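import Pool.Agent.Run7.h27.FG.Lam3

set_option autoImplicit false
set_option maxHeartbeats 4000000

/-!
`lamQ m` is at most a small power of `log N` for all the integers `m` near almost all the members of families of reals with small
exponential sums.
-/

namespace Pool.Agent.Run7.h27.FG

open Finset Filter
open Pool.Agent.Run7.h844.RP (ES)
open Pool.Agent.Run7.h582.FM (Thin)

/-- the choice of the first dyadic range -/
lemma first_class (θ : ℝ) (hθ : 0 < θ) : ∃ t₀ : ℝ, ∀ t : ℝ, t₀ ≤ t → ∃ i₀ : ℕ, 5 ≤ i₀ ∧ t ^ 5 ≤ ((2 : ℝ) ^ i₀) ^ 2 ∧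
    4 * (4 * ((2 : ℝ) ^ i₀) ^ (1 / 3 : ℝ) + 10) ≤ θ * t := by
  refine ⟨16 + 80 / θ + 128 * (32 / θ) ^ 6, fun t ht => ?_⟩
  have h1 : 0 < 80 / θ := by positivity
  have h2 : 0 < 128 * (32 / θ) ^ 6 := by positivity
  have ht16 : 16 ≤ t := by linarith
  have ht0 : 0 < t := by linarith
  obtain ⟨u, hu⟩ : ∃ u, u = ⌈t⌉₊ := ⟨_, rfl⟩
  have hu1 : t ≤ u := by rw [hu]; exact Nat.le_ceil t
  have hu2 : (u : ℝ) < t + 1 := by rw [hu]; exact Nat.ceil_lt_add_one ht0.le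
  have hu0 : u ≠ 0 := by
    intro h
    rw [h, Nat.cast_zero] at hu1
    linarith
  obtain ⟨a, ha⟩ : ∃ a, a = Nat.log 2 (u ^ 5) := ⟨_, rfl⟩
  have ha1 : 2 ^ a ≤ u ^ 5 := by rw [ha]; exact Nat.pow_log_le_self 2 (pow_ne_zero _ hu0)
  have ha2 : u ^ 5 < 2 ^ (a + 1) := by rw [ha]; exact Nat.lt_pow_succ_log_self (by norm_num) _
  obtain ⟨i₀, hi₀⟩ : ∃ i₀, i₀ = a / 2 + 1 := ⟨_, rfl⟩
  have hi1 : a + 1 ≤ 2 * i₀ := by omega
  have hi2 : 2 * i₀ ≤ a + 2 := by omega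
  have h3 : (u : ℝ) ^ 5 ≤ ((2 : ℝ) ^ i₀) ^ 2 := by
    rw [← pow_mul]
    have : u ^ 5 ≤ 2 ^ (i₀ * 2) := ha2.le.trans (Nat.pow_le_pow_right (by norm_num) (by omega))
    exact_mod_cast this
  have h4 : ((2 : ℝ) ^ i₀) ^ 2 ≤ 4 * (u : ℝ) ^ 5 := by
    rw [← pow_mul]
    have : 2 ^ (i₀ * 2) ≤ 4 * u ^ 5 := by
      calc 2 ^ (i₀ * 2) ≤ 2 ^ (a + 2) := Nat.pow_le_pow_right (by norm_num) (by omega)
        _ = 4 * 2 ^ a := by rw [pow_add]; ring
        _ ≤ 4 * u ^ 5 := Nat.mul_le_mul_left _ ha1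
    exact_mod_cast this
  have h5 : t ^ 5 ≤ (u : ℝ) ^ 5 := pow_le_pow_left₀ ht0.le hu1 5
  refine ⟨i₀, ?_, h5.trans h3, ?_⟩
  · by_contra hcon
    push Not at hcon
    have h6 : 2 ^ (a + 1) ≤ 2 ^ 8 := Nat.pow_le_pow_right (by norm_num) (by omega)
    have h7 : (u : ℝ) ^ 5 < 256 := by
      have : u ^ 5 < 2 ^ 8 := lt_of_lt_of_le ha2 h6
      have h8 : ((u ^ 5 : ℕ) : ℝ) < ((2 ^ 8 : ℕ) : ℝ) := by exact_mod_cast this
      push_cast at h8
      linarith
    have h8 : (16 : ℝ) ^ 5 ≤ (u : ℝ) ^ 5 := pow_le_pow_left₀ (by norm_num) (by linarith) 5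
    norm_num at h8
    linarith
  · obtain ⟨A, hA⟩ : ∃ A : ℝ, A = ((2 : ℝ) ^ i₀) ^ (1 / 3 : ℝ) := ⟨_, rfl⟩
    rw [← hA]
    have hA0 : 0 < A := by rw [hA]; positivity
    have hA6 : A ^ 6 ≤ 128 * t ^ 5 := by
      have e1 : A ^ 6 = ((2 : ℝ) ^ i₀) ^ 2 := by
        rw [hA, ← Real.rpow_natCast, ← Real.rpow_mul (by positivity), ← Real.rpow_natCast ((2 : ℝ) ^ i₀)]
        norm_num
      rw [e1]
      refine h4.trans ?_
      have e2 : (u : ℝ) ^ 5 ≤ (2 * t) ^ 5 := pow_le_pow_left₀ (Nat.cast_nonneg _) (by linarith) 5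
      calc 4 * (u : ℝ) ^ 5 ≤ 4 * (2 * t) ^ 5 := by linarith
        _ = 128 * t ^ 5 := by ring
    have hA1 : A ≤ θ * t / 32 := by
      by_contra hcon
      push Not at hcon
      have e1 := pow_lt_pow_left₀ hcon (by positivity) (show 6 ≠ 0 by norm_num)
      have e2 : (θ * t / 32) ^ 6 < 128 * t ^ 5 := lt_of_lt_of_le e1 hA6
      have e3 : 128 * (32 / θ) ^ 6 * t ^ 5 ≤ t ^ 6 := by
        calc 128 * (32 / θ) ^ 6 * t ^ 5 ≤ t * t ^ 5 := mul_le_mul_of_nonneg_right (by linarith) (by positivity)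
          _ = t ^ 6 := by ring
      have e4 : 128 * t ^ 5 ≤ (θ * t / 32) ^ 6 := by
        have e5 : (θ * t / 32) ^ 6 = (θ / 32) ^ 6 * t ^ 6 := by ring
        rw [e5]
        calc 128 * t ^ 5 = (θ / 32) ^ 6 * (128 * (32 / θ) ^ 6 * t ^ 5) := by field_simp
          _ ≤ _ := mul_le_mul_of_nonneg_left e3 (by positivity)
      linarith
    have h6 : 80 ≤ θ * t := by
      have : 80 / θ ≤ t := by linarith
      rw [div_le_iff₀ hθ] at this
      linarith
    linarith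

open Classical in
/-- `lamQ` is small at all the integers near almost all the members -/
theorem thin_lam (W : ℕ) (θ : ℝ) (hθ : 0 < θ) :
    Thin (fun N y => ∀ m : ℕ, 1 ≤ m → |(m : ℝ) - y| ≤ Real.log N ^ W → lamQ m ≤ Real.log N ^ θ) := by
  intro B δ hδ hδ1 U
  obtain ⟨U₂, hU₂⟩ : ∃ U₂, U₂ = U + W + 5 := ⟨_, rfl⟩
  obtain ⟨V, hV⟩ : ∃ V, V = 4 * (U₂ + 2) := ⟨_, rfl⟩
  obtain ⟨N₁, h1⟩ := div_bound B V δ hδ
  obtain ⟨t₀, h2⟩ := first_class θ hθ
  have htl : Tendsto (fun N : ℕ => Real.log (Real.log (N : ℝ))) atTop atTop :=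
    Real.tendsto_log_atTop.comp (Real.tendsto_log_atTop.comp tendsto_natCast_atTop_atTop)
  obtain ⟨N₂, h3⟩ := eventually_atTop.1 ((htl.eventually_ge_atTop (|t₀| + (256 * (V : ℝ) ^ 4 + 2))).and
    ((Pool.Agent.N384.MQ.ev_log_ge 500).and (Pool.Agent.N384.MQ.ev_log_pow W 1)))
  refine ⟨V, N₁ + N₂ + 1, fun N hN ι s y hy hs => ?_⟩
  obtain ⟨h4, h5, h6⟩ := h3 N (by omega)
  obtain ⟨L, hL⟩ : ∃ L, L = Real.log (N : ℝ) := ⟨_, rfl⟩
  rw [← hL] at h4 h5 h6
  obtain ⟨t, ht⟩ : ∃ t, t = Real.log L := ⟨_, rfl⟩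
  rw [← ht] at h4
  have hV4 : (0 : ℝ) ≤ (V : ℝ) ^ 4 := by positivity
  have hL0 : 0 < L := by linarith
  have hL1 : 1 ≤ L := by linarith
  have hN0 : (0 : ℝ) < N := by exact_mod_cast (by omega : 0 < N)
  have ht₀ : t₀ ≤ t := by linarith [le_abs_self t₀]
  obtain ⟨i₀, hi5, hit, hiθ⟩ := h2 t ht₀
  have ht1 : 256 * (V : ℝ) ^ 4 + 2 ≤ t := by linarith [abs_nonneg t₀]
  obtain ⟨R, hR⟩ : ∃ R : ℕ, R = ⌈L ^ W⌉₊ + 1 := ⟨_, rfl⟩
  obtain ⟨I, hI⟩ : ∃ I : ℕ, I = ⌈16 * L ^ 2⌉₊ := ⟨_, rfl⟩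
  obtain ⟨J, hJ⟩ : ∃ J : Finset (ℤ × ℕ), J = Icc (-(R : ℤ)) R ×ˢ ((range I).filter (fun i => i₀ ≤ i ∧ (2 : ℝ) ^ i ≤ 16 * L ^ 2)) :=
    ⟨_, rfl⟩
  -- the union
  have hsub : s.filter (fun i => ¬ ∀ m : ℕ, 1 ≤ m → |(m : ℝ) - y i| ≤ L ^ W → lamQ m ≤ L ^ θ) ⊆
      J.biUnion (fun z => s.filter (fun ω => 2 ^ z.2 < nP (⌊y ω⌋ + z.1).natAbs z.2 ^ 2)) := by
    intro ω hω
    rw [mem_filter] at hω
    obtain ⟨hωs, hω⟩ := hω
    push Not at hω
    obtain ⟨m, hm1, hm2, hm3⟩ := hω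
    by_contra hcon
    rw [mem_biUnion] at hcon
    push Not at hcon
    have hm0 : (0 : ℝ) < m := by exact_mod_cast hm1
    -- all the ranges
    have hall : ∀ i : ℕ, i₀ ≤ i → nP m i ^ 2 ≤ 2 ^ i := by
      intro i hi
      by_cases hbig : (2 : ℝ) ^ i ≤ 16 * L ^ 2
      · have hr : |(m : ℤ) - ⌊y ω⌋| ≤ R := by
          have e1 : |(m : ℝ) - ⌊y ω⌋| ≤ L ^ W + 1 := by
            have e2 : (m : ℝ) - ⌊y ω⌋ = (m - y ω) + Int.fract (y ω) := by
              rw [← Int.self_sub_floor]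
              ring
            rw [e2]
            refine (abs_add_le _ _).trans (add_le_add hm2 ?_)
            rw [abs_of_nonneg (Int.fract_nonneg _)]
            exact (Int.fract_lt_one _).le
          have e3 : L ^ W + 1 ≤ (R : ℝ) := by
            rw [hR]
            push_cast
            linarith [Nat.le_ceil (L ^ W)]
          have e4 : ((|(m : ℤ) - ⌊y ω⌋| : ℤ) : ℝ) ≤ ((R : ℤ) : ℝ) := by
            push_cast
            exact e1.trans e3
          exact_mod_cast e4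
        have hiI : i < I := by
          have e1 : (i : ℝ) < 2 ^ i := by exact_mod_cast Nat.lt_two_pow_self
          have e2 : (i : ℝ) < (I : ℝ) := by
            rw [hI]
            exact lt_of_lt_of_le (lt_of_lt_of_le e1 hbig) (Nat.le_ceil _)
          exact_mod_cast e2
        have hz := hcon ((m : ℤ) - ⌊y ω⌋, i) (by
          rw [hJ, mem_product, mem_Icc, mem_filter, mem_range]
          exact ⟨abs_le.1 hr, hiI, hi, hbig⟩)
        rw [mem_filter, not_and] at hz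
        have hz2 := hz hωs
        push Not at hz2
        have e5 : (⌊y ω⌋ + ((m : ℤ) - ⌊y ω⌋)).natAbs = m := by
          rw [add_sub_cancel, Int.natAbs_natCast]
        simp only [e5] at hz2
        exact hz2
      · push Not at hbig
        have e1 : (nP m i : ℝ) ≤ m.primeFactors.card := by
          unfold nP
          exact_mod_cast card_filter_le _ _
        have e2 : ((2 : ℝ) ^ m.primeFactors.card) ≤ m := by exact_mod_cast two_pow_card m (by omega)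
        have e3 : (m : ℝ) ≤ N ^ 2 := by
          have e4 := (abs_le.1 hm2).2
          have e5 := (abs_le.1 (hy ω hωs)).2
          have e6 : (2 : ℝ) ≤ N := by
            by_contra hcon2
            push Not at hcon2
            have e7 := Real.log_le_sub_one_of_pos hN0
            rw [← hL] at e7
            linarith
          nlinarith
        have e4 : (m.primeFactors.card : ℝ) * Real.log 2 ≤ 2 * L := by
          have e5 := Real.log_le_log (by positivity) (e2.trans e3)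
          rw [Real.log_pow, Real.log_pow, ← hL] at e5
          push_cast at e5
          exact e5
        have e5 : (nP m i : ℝ) ≤ 4 * L := by
          have := Real.log_two_gt_d9
          have e6 : (0 : ℝ) ≤ m.primeFactors.card := Nat.cast_nonneg _
          nlinarith
        have e6 : ((nP m i ^ 2 : ℕ) : ℝ) ≤ ((2 ^ i : ℕ) : ℝ) := by
          push_cast
          calc (nP m i : ℝ) ^ 2 ≤ (4 * L) ^ 2 := pow_le_pow_left₀ (Nat.cast_nonneg _) e5 2
            _ = 16 * L ^ 2 := by ring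
            _ ≤ 2 ^ i := hbig.le
        exact_mod_cast e6
    have e1 := lam_le_exp m
    have e2 := sum_le_of m i₀ hall
    have e3 : lamQ m ≤ L ^ θ := by
      refine e1.trans ?_
      rw [Real.rpow_def_of_pos hL0, ← ht]
      apply Real.exp_le_exp.2
      linarith
    linarith
  have hone : ∀ z ∈ J, ((s.filter (fun ω => 2 ^ z.2 < nP (⌊y ω⌋ + z.1).natAbs z.2 ^ 2)).card : ℝ) ≤ 72 * s.card / L ^ U₂ := by
    intro z hz
    rw [hJ, mem_product, mem_filter] at hz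
    obtain ⟨-, -, hz2, hz3⟩ := hz
    refine one_class U₂ V hV L t ht hL1 ht1 s (fun ω => (⌊y ω⌋ + z.1).natAbs) (fun d hd1 hd2 => ?_) z.2 (by omega) ?_ hz3
    · have e1 := h1 N (by omega) ι s y hs z.1 d hd1 (by rw [← hL]; exact hd2)
      refine le_trans (le_of_eq ?_) e1
      congr 2
      apply filter_congr
      intro ω _
      rw [← Int.natCast_dvd]
    · refine hit.trans ?_
      apply pow_le_pow_left₀ (by positivity)
      exact pow_le_pow_right₀ (by norm_num) hz2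
  have hJc : (J.card : ℝ) ≤ L ^ (W + 4) := by
    rw [hJ, card_product, Nat.cast_mul]
    have e1 : ((Icc (-(R : ℤ)) R).card : ℝ) ≤ 7 * L ^ W := by
      rw [Int.card_Icc]
      have e2 : ((R : ℤ) + 1 - -(R : ℤ)).toNat = 2 * R + 1 := by omega
      rw [e2]
      push_cast
      have e3 : (R : ℝ) ≤ L ^ W + 2 := by
        rw [hR]
        push_cast
        linarith [(Nat.ceil_lt_add_one (show (0 : ℝ) ≤ L ^ W by positivity)).le]
      have e4 : 1 ≤ L ^ W := one_le_pow₀ hL1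
      linarith
    have e2 : (((range I).filter (fun i => i₀ ≤ i ∧ (2 : ℝ) ^ i ≤ 16 * L ^ 2)).card : ℝ) ≤ 17 * L ^ 2 := by
      have e3 : (((range I).filter (fun i => i₀ ≤ i ∧ (2 : ℝ) ^ i ≤ 16 * L ^ 2)).card : ℝ) ≤ I := by
        have := card_filter_le (range I) (fun i => i₀ ≤ i ∧ (2 : ℝ) ^ i ≤ 16 * L ^ 2)
        rw [card_range] at this
        exact_mod_cast this
      refine e3.trans ?_
      rw [hI]
      have e4 : (1 : ℝ) ≤ L ^ 2 := one_le_pow₀ hL1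
      linarith [(Nat.ceil_lt_add_one (show (0 : ℝ) ≤ 16 * L ^ 2 by positivity)).le]
    calc ((Icc (-(R : ℤ)) R).card : ℝ) * (((range I).filter (fun i => i₀ ≤ i ∧ (2 : ℝ) ^ i ≤ 16 * L ^ 2)).card : ℝ)
        ≤ (7 * L ^ W) * (17 * L ^ 2) := mul_le_mul e1 e2 (Nat.cast_nonneg _) (by positivity)
      _ = 119 * L ^ (W + 2) := by ring
      _ ≤ (L * L) * L ^ (W + 2) := by
          apply mul_le_mul_of_nonneg_right _ (by positivity)
          nlinarith
      _ = L ^ (W + 4) := by ring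
  have hfin : ((s.filter (fun i => ¬ ∀ m : ℕ, 1 ≤ m → |(m : ℝ) - y i| ≤ L ^ W → lamQ m ≤ L ^ θ)).card : ℝ) ≤
      J.card * (72 * s.card / L ^ U₂) := by
    calc ((s.filter (fun i => ¬ ∀ m : ℕ, 1 ≤ m → |(m : ℝ) - y i| ≤ L ^ W → lamQ m ≤ L ^ θ)).card : ℝ)
        ≤ ((J.biUnion (fun z => s.filter (fun ω => 2 ^ z.2 < nP (⌊y ω⌋ + z.1).natAbs z.2 ^ 2))).card : ℝ) := by
          exact_mod_cast card_le_card hsub
      _ ≤ ∑ z ∈ J, ((s.filter (fun ω => 2 ^ z.2 < nP (⌊y ω⌋ + z.1).natAbs z.2 ^ 2)).card : ℝ) := by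
          exact_mod_cast card_biUnion_le
      _ ≤ ∑ _z ∈ J, (72 * s.card / L ^ U₂) := sum_le_sum hone
      _ = J.card * (72 * s.card / L ^ U₂) := by rw [sum_const, nsmul_eq_mul]
  have hres : ((s.filter (fun i => ¬ ∀ m : ℕ, 1 ≤ m → |(m : ℝ) - y i| ≤ L ^ W → lamQ m ≤ L ^ θ)).card : ℝ) ≤ s.card / L ^ U := by
    refine hfin.trans ?_
    have hc0 : (0 : ℝ) ≤ s.card := Nat.cast_nonneg _
    calc (J.card : ℝ) * (72 * s.card / L ^ U₂) ≤ L ^ (W + 4) * (72 * s.card / L ^ U₂) :=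
          mul_le_mul_of_nonneg_right hJc (by positivity)
      _ ≤ L ^ (W + 4) * (L * s.card / L ^ U₂) := by
          apply mul_le_mul_of_nonneg_left _ (by positivity)
          apply div_le_div_of_nonneg_right _ (by positivity)
          nlinarith
      _ = s.card / L ^ U := by
          rw [hU₂, show U + W + 5 = U + (W + 5) by ring, pow_add L U]
          field_simp
          ring
  rw [hL] at hres
  exact hres

end Pool.Agent.Run7.h27.FG
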