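import Pool.Agent.Run7.h27.FG.Thin
import Pool.Agent.Run7.h27.FG.Lam4

set_option autoImplicit false
set_option maxHeartbeats 4000000

/-!
The asymptotic formula with both main terms and an error term `X / log ^ (ρ/4) Q` for `Q log ^ ρ Q ≤ X ≤ Q log ^ T Q`, for all the
multiples of all the neighbours of almost all the members of families of reals with small exponential sums.
-/

namespace Pool.Agent.Run7.h27.FG

open Finset Filter MeasureTheory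
open Pool.Agent.N625.PT (TCls t_small pow_le_pow_digits)
open Pool.Agent.TH894.PV (G)
open Pool.Agent.Run7.h844.RP (ES)
open Pool.Agent.Run7.h582.FM (Thin)

/-- the formula with both main terms and a small error term -/
def FClean (ρ : ℝ) (T Q : ℕ) : Prop :=
  ∀ x : ℝ, Q * Real.log Q ^ ρ ≤ x → x ≤ Q * Real.log Q ^ T →
    |G x Q - (x * Real.log Q - CC Q * x)| ≤ x / Real.log Q ^ (ρ / 4)

lemma clean_of (K ρ : ℝ) (hK : 0 < K) (hρ : 0 < ρ) (T A : ℕ) (hA : ρ ≤ A) : ∃ Q₀ : ℕ, ∀ Q : ℕ, Q₀ ≤ Q → FGood K T A Q →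
    lamQ Q ≤ Real.log Q ^ (ρ / 24) → FClean ρ T Q := by
  obtain ⟨Q₀, h0⟩ := eventually_atTop.1 ((Pool.Agent.N384.MQ.ev_log_ge 1).and
    (Pool.Agent.N384.MQ.ev_log_ge ((2 * K) ^ (24 / ρ))))
  refine ⟨Q₀ + 1, fun Q hQ hg hlam x hx1 hx2 => ?_⟩
  obtain ⟨h1, h2⟩ := h0 Q (by omega)
  obtain ⟨l, hl⟩ : ∃ l, l = Real.log (Q : ℝ) := ⟨_, rfl⟩
  rw [← hl] at h1 h2 hlam hx1 hx2 ⊢
  have hl0 : 0 < l := by linarith
  have hQ0 : (0 : ℝ) < Q := by exact_mod_cast (by omega : 0 < Q)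
  have hlρ : 0 < l ^ ρ := by positivity
  have hlρ1 : 1 ≤ l ^ ρ := Real.one_le_rpow h1 hρ.le
  have hx0 : 0 < x := lt_of_lt_of_le (by positivity) hx1
  have hxQ : (Q : ℝ) ≤ x := by
    refine le_trans ?_ hx1
    exact le_mul_of_one_le_right hQ0.le hlρ1
  have h3 := hg x hxQ (by rw [← hl]; exact hx2)
  rw [← hl] at h3
  refine h3.trans ?_
  have h4 : ((Q : ℝ) / x) ^ (1 / 3 : ℝ) ≤ l ^ (-(ρ / 3)) := by
    have e1 : (Q : ℝ) / x ≤ l ^ (-ρ) := by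
      rw [div_le_iff₀ hx0, Real.rpow_neg hl0.le]
      calc (Q : ℝ) = (l ^ ρ)⁻¹ * (Q * l ^ ρ) := by field_simp
        _ ≤ (l ^ ρ)⁻¹ * x := mul_le_mul_of_nonneg_left hx1 (by positivity)
    calc ((Q : ℝ) / x) ^ (1 / 3 : ℝ) ≤ (l ^ (-ρ)) ^ (1 / 3 : ℝ) :=
          Real.rpow_le_rpow (by positivity) e1 (by norm_num)
      _ = l ^ (-(ρ / 3)) := by
          rw [← Real.rpow_mul hl0.le]
          congr 1
          ring
  have h5 : lamQ Q * ((Q : ℝ) / x) ^ (1 / 3 : ℝ) ≤ l ^ (-(7 * ρ / 24)) := by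
    calc lamQ Q * ((Q : ℝ) / x) ^ (1 / 3 : ℝ) ≤ l ^ (ρ / 24) * l ^ (-(ρ / 3)) :=
          mul_le_mul hlam h4 (by positivity) (by positivity)
      _ = l ^ (-(7 * ρ / 24)) := by
          rw [← Real.rpow_add hl0]
          congr 1
          ring
  have h6 : 1 / l ^ A ≤ l ^ (-(7 * ρ / 24)) := by
    rw [Real.rpow_neg hl0.le, ← one_div, ← Real.rpow_natCast]
    apply one_div_le_one_div_of_le (by positivity)
    apply Real.rpow_le_rpow_of_exponent_le h1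
    linarith
  have h7 : 2 * K ≤ l ^ (ρ / 24) := by
    have e1 := Real.rpow_le_rpow (by positivity) h2 (show 0 ≤ ρ / 24 by positivity)
    rw [← Real.rpow_mul (by positivity)] at e1
    have e2 : 24 / ρ * (ρ / 24) = 1 := by field_simp
    rw [e2, Real.rpow_one] at e1
    exact e1
  calc K * (x * (lamQ Q * ((Q : ℝ) / x) ^ (1 / 3 : ℝ) + 1 / l ^ A))
      ≤ K * (x * (l ^ (-(7 * ρ / 24)) + l ^ (-(7 * ρ / 24)))) := by
        apply mul_le_mul_of_nonneg_left _ hK.le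
        apply mul_le_mul_of_nonneg_left _ hx0.le
        exact add_le_add h5 h6
    _ = (2 * K) * (x * l ^ (-(7 * ρ / 24))) := by ring
    _ ≤ l ^ (ρ / 24) * (x * l ^ (-(7 * ρ / 24))) := mul_le_mul_of_nonneg_right h7 (by positivity)
    _ = x * (l ^ (ρ / 24) * l ^ (-(7 * ρ / 24))) := by ring
    _ = x / l ^ (ρ / 4) := by
        rw [← Real.rpow_add hl0, show ρ / 24 + -(7 * ρ / 24) = -(ρ / 4) by ring, Real.rpow_neg hl0.le, ← div_eq_mul_inv]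

lemma lam_mul (h q : ℕ) (hh : h ≠ 0) (hq : q ≠ 0) : lamQ (h * q) ≤ lamQ h * lamQ q := by
  classical
  unfold lamQ
  rw [Nat.primeFactors_mul hh hq]
  have h1 : ∀ p : ℕ, (1 : ℝ) ≤ 1 + 4 * (p : ℝ) ^ (-(2 / 3) : ℝ) := by
    intro p
    have : (0 : ℝ) ≤ (p : ℝ) ^ (-(2 / 3) : ℝ) := Real.rpow_nonneg (Nat.cast_nonneg _) _
    linarith
  have h2 := prod_union_inter (s₁ := h.primeFactors) (s₂ := q.primeFactors) (f := fun p : ℕ => 1 + 4 * (p : ℝ) ^ (-(2 / 3) : ℝ))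
  rw [← h2]
  apply le_mul_of_one_le_right
  · exact prod_nonneg fun p _ => by linarith [h1 p]
  · have h3 := prod_le_prod (s := h.primeFactors ∩ q.primeFactors) (f := fun _ => (1 : ℝ))
      (g := fun p : ℕ => 1 + 4 * (p : ℝ) ^ (-(2 / 3) : ℝ)) (fun _ _ => zero_le_one) (fun p _ => h1 p)
    rw [prod_const_one] at h3
    exact h3

/-- `lamQ` at the small integers -/
lemma lam_small (J : ℕ) (θ : ℝ) (hθ : 0 < θ) : ∃ N₀ : ℕ, ∀ N : ℕ, N₀ ≤ N → ∀ h : ℕ, 1 ≤ h → (h : ℝ) ≤ Real.log N ^ J →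
    lamQ h ≤ Real.log N ^ θ := by
  obtain ⟨t₀, h2⟩ := first_class θ hθ
  have htl : Tendsto (fun N : ℕ => Real.log (Real.log (N : ℝ))) atTop atTop :=
    Real.tendsto_log_atTop.comp (Real.tendsto_log_atTop.comp tendsto_natCast_atTop_atTop)
  obtain ⟨N₀, h3⟩ := eventually_atTop.1 ((htl.eventually_ge_atTop (|t₀| + (16 * (J : ℝ) ^ 4 + 1))).and
    (Pool.Agent.N384.MQ.ev_log_ge 3))
  refine ⟨N₀, fun N hN h hh1 hh2 => ?_⟩
  obtain ⟨h4, h5⟩ := h3 N hN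
  obtain ⟨L, hL⟩ : ∃ L, L = Real.log (N : ℝ) := ⟨_, rfl⟩
  rw [← hL] at h4 h5 hh2 ⊢
  obtain ⟨t, ht⟩ : ∃ t, t = Real.log L := ⟨_, rfl⟩
  rw [← ht] at h4
  have hJ0 : (0 : ℝ) ≤ (J : ℝ) ^ 4 := by positivity
  have hL0 : 0 < L := by linarith
  have ht₀ : t₀ ≤ t := by linarith [le_abs_self t₀]
  have htJ : 16 * (J : ℝ) ^ 4 ≤ t := by linarith [abs_nonneg t₀]
  have ht0 : 0 < t := by linarith [abs_nonneg t₀]
  obtain ⟨i₀, hi5, hit, hiθ⟩ := h2 t ht₀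
  have hall : ∀ i : ℕ, i₀ ≤ i → nP h i ^ 2 ≤ 2 ^ i := by
    intro i hi
    have e1 : (nP h i : ℝ) ≤ h.primeFactors.card := by
      unfold nP
      exact_mod_cast card_filter_le _ _
    have e2 : ((2 : ℝ) ^ h.primeFactors.card) ≤ h := by exact_mod_cast two_pow_card h (by omega)
    have e4 : (h.primeFactors.card : ℝ) * Real.log 2 ≤ J * t := by
      have e5 := Real.log_le_log (by positivity) (e2.trans hh2)
      rw [Real.log_pow, Real.log_pow, ← ht] at e5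
      exact e5
    have e5 : (nP h i : ℝ) ≤ 2 * (J * t) := by
      have := Real.log_two_gt_d9
      have e6 : (0 : ℝ) ≤ h.primeFactors.card := Nat.cast_nonneg _
      nlinarith
    have e6 : (4 * (J * t) ^ 2) ^ 2 ≤ ((2 : ℝ) ^ i) ^ 2 := by
      calc (4 * ((J : ℝ) * t) ^ 2) ^ 2 = 16 * (J : ℝ) ^ 4 * t ^ 4 := by ring
        _ ≤ t * t ^ 4 := mul_le_mul_of_nonneg_right htJ (by positivity)
        _ = t ^ 5 := by ring
        _ ≤ ((2 : ℝ) ^ i₀) ^ 2 := hit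
        _ ≤ ((2 : ℝ) ^ i) ^ 2 := by
            apply pow_le_pow_left₀ (by positivity)
            exact pow_le_pow_right₀ (by norm_num) hi
    have e7 : 4 * (J * t) ^ 2 ≤ (2 : ℝ) ^ i := (le_abs_self _).trans (abs_le_of_sq_le_sq e6 (by positivity))
    have e8 : ((nP h i ^ 2 : ℕ) : ℝ) ≤ ((2 ^ i : ℕ) : ℝ) := by
      push_cast
      calc (nP h i : ℝ) ^ 2 ≤ (2 * (J * t)) ^ 2 := pow_le_pow_left₀ (Nat.cast_nonneg _) e5 2
        _ = 4 * (J * t) ^ 2 := by ring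
        _ ≤ 2 ^ i := e7
    exact_mod_cast e8
  have e1 := lam_le_exp h
  have e2 := sum_le_of h i₀ hall
  refine e1.trans ?_
  rw [Real.rpow_def_of_pos hL0, ← ht]
  apply Real.exp_le_exp.2
  linarith

open Classical in
lemma thin_and {P P' : ℕ → ℝ → Prop} (h1 : Thin P) (h2 : Thin P') : Thin (fun N y => P N y ∧ P' N y) := by
  obtain ⟨R, hR⟩ : ∃ R : ℕ → ℝ → Prop, R = fun N y => P N y ∧ P' N y := ⟨_, rfl⟩
  rw [← hR]
  intro B δ hδ hδ1 U
  obtain ⟨V₁, N₁, g1⟩ := h1 B δ hδ hδ1 (U + 1)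
  obtain ⟨V₂, N₂, g2⟩ := h2 B δ hδ hδ1 (U + 1)
  obtain ⟨N₃, g3⟩ := eventually_atTop.1 (Pool.Agent.N384.MQ.ev_log_ge 2)
  refine ⟨V₁ + V₂, N₁ + N₂ + N₃, fun N hN ι s y hy hs => ?_⟩
  have hL := g3 N (by omega)
  have hL1 : 1 ≤ Real.log N := by linarith
  have e1 := g1 N (by omega) ι s y hy (Pool.Agent.Run7.h582.FM.ES.mono (by omega) hL1 hs)
  have e2 := g2 N (by omega) ι s y hy (Pool.Agent.Run7.h582.FM.ES.mono (by omega) hL1 hs)
  have e3 : ((s.filter fun i => ¬ R N (y i)).card : ℝ) ≤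
      ((s.filter fun i => ¬ P N (y i)).card : ℝ) + ((s.filter fun i => ¬ P' N (y i)).card : ℝ) := by
    have : (s.filter fun i => ¬ R N (y i)) ⊆
        (s.filter fun i => ¬ P N (y i)) ∪ (s.filter fun i => ¬ P' N (y i)) := by
      intro i hi
      rw [mem_filter, hR, not_and_or] at hi
      rw [mem_union, mem_filter, mem_filter]
      rcases hi.2 with h | h
      · exact Or.inl ⟨hi.1, h⟩
      · exact Or.inr ⟨hi.1, h⟩
    exact_mod_cast (card_le_card this).trans (card_union_le _ _)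
  refine e3.trans ((add_le_add e1 e2).trans ?_)
  have hc : (0 : ℝ) ≤ s.card := Nat.cast_nonneg _
  rw [pow_succ, ← add_div, div_le_div_iff₀ (by positivity) (by positivity)]
  have : 0 < Real.log N ^ U := by positivity
  nlinarith [mul_nonneg hc this.le]

lemma thin_mono {P P' : ℕ → ℝ → Prop} (N₀ : ℕ) (h : ∀ N : ℕ, N₀ ≤ N → ∀ y : ℝ, P N y → P' N y) (h1 : Thin P) : Thin P' := by
  classical
  intro B δ hδ hδ1 U
  obtain ⟨V, N₁, g1⟩ := h1 B δ hδ hδ1 U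
  refine ⟨V, N₁ + N₀, fun N hN ι s y hy hs => ?_⟩
  refine le_trans ?_ (g1 N (by omega) ι s y hy hs)
  have : (s.filter fun i => ¬ P' N (y i)) ⊆ (s.filter fun i => ¬ P N (y i)) := by
    intro i hi
    rw [mem_filter] at hi ⊢
    exact ⟨hi.1, fun hcon => hi.2 (h N (by omega) _ hcon)⟩
  exact_mod_cast card_le_card this

open Classical in
/-- the neighbours of almost all the members are large -/
theorem thin_big (W : ℕ) : Thin (fun N y => ∀ q : ℕ, 1 ≤ q → |(q : ℝ) - y| ≤ Real.log N ^ W → N ≤ q * q) := by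
  intro B δ hδ hδ1 U
  obtain ⟨G', hG⟩ : ∃ G' : ℕ → ℤ → Prop, G' = fun k z => ∀ q : ℕ, 1 ≤ q → |(q : ℤ) - z| ≤ ((k : ℕ) : ℤ) ^ (W + 1) →
      2 ^ k ≤ q * q := ⟨_, rfl⟩
  obtain ⟨V, q₀, h0⟩ := Pool.Agent.Run7.h582.FM.transferTN B δ hδ hδ1 0 1 one_ne_zero U G' (fun C hC => by
    obtain ⟨D, k₀, h1⟩ := t_small hC (W + 1) U
    obtain ⟨k₁, h2⟩ := pow_le_pow_digits 2 le_rfl (2 * D)
    refine ⟨k₀ + k₁, fun k hk p hp c _ => ?_⟩
    refine le_trans (sum_le_sum fun v _ => ?_) (h1 k (by omega) p hp c)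
    have hp0 := hC.nonneg k p hp v
    by_cases hb : ∀ q : ℕ, 1 ≤ q → |(q : ℤ) - (c + 1 * v)| ≤ (k : ℤ) ^ (W + 1) → 2 ^ k ≤ q * k ^ D
    · rw [if_pos hb, if_pos]
      rw [hG]
      intro q hq1 hq2
      have e1 := hb q hq1 hq2
      have e2 := h2 k (by omega)
      have e3 : 2 ^ k * 2 ^ k ≤ (q * q) * 2 ^ k := by
        calc 2 ^ k * 2 ^ k ≤ (q * k ^ D) * (q * k ^ D) := Nat.mul_le_mul e1 e1
          _ = (q * q) * k ^ (2 * D) := by ring
          _ ≤ (q * q) * 2 ^ k := Nat.mul_le_mul_left _ e2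
      exact Nat.le_of_mul_le_mul_right e3 (Nat.pow_pos (by norm_num))
    · rw [if_neg hb]
      split_ifs
      · exact hp0
      · exact le_rfl)
  obtain ⟨N₁, h1⟩ := Pool.Agent.N193.PS.ev_near 1
  refine ⟨V, q₀ + N₁ + 2, fun M hM ι s y hy hf => ?_⟩
  obtain ⟨k, g1, g2, g3, g4, g5⟩ := h0 M (by omega)
  have hL3 := (h1 M (by omega)).1
  have hl0 : 0 ≤ Real.log M := Real.log_natCast_nonneg M
  refine le_trans (Nat.cast_le.2 (card_le_card fun i hi => ?_)) (g5 ι s y hy hf 0 (by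
    rw [Int.cast_zero, abs_zero]
    positivity))
  rw [mem_filter] at hi ⊢
  refine ⟨hi.1, fun hcon => hi.2 ?_⟩
  rw [hG] at hcon
  intro q hq1 hq
  have h2 : 2 ^ k ≤ q * q := by
    refine hcon q hq1 ?_
    have h3 : ((|(q : ℤ) - (0 + 1 * ⌊y i⌋)| : ℤ) : ℝ) ≤ ((((k : ℕ) : ℤ) ^ (W + 1) : ℤ) : ℝ) := by
      push_cast
      rw [zero_add, one_mul]
      have h8 := Int.floor_le (y i)
      have h9 := Int.lt_floor_add_one (y i)
      have h10 : |(q : ℝ) - ⌊y i⌋| ≤ |(q : ℝ) - y i| + 1 := by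
        have : (q : ℝ) - ⌊y i⌋ = (q - y i) + (y i - ⌊y i⌋) := by ring
        rw [this]
        refine (abs_add_le _ _).trans (add_le_add le_rfl ?_)
        rw [abs_of_nonneg (by linarith)]
        linarith
      have h11 : 1 ≤ Real.log M ^ W := one_le_pow₀ (by linarith)
      have h12 : Real.log M ^ W ≤ (k : ℝ) ^ W := pow_le_pow_left₀ hl0 g1 W
      have h13 : (3 : ℝ) ≤ k := by linarith
      rw [pow_succ]
      nlinarith
    exact_mod_cast h3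
  have h3 : M ≤ 2 ^ k := by
    have h4 : (M : ℝ) ≤ 2 ^ k := by
      refine le_trans ?_ g3
      have : (1 : ℝ) ≤ Real.log M ^ (0 + 1) := one_le_pow₀ (by linarith)
      exact le_mul_of_one_le_right (Nat.cast_nonneg _) this
    exact_mod_cast h4
  exact h3.trans h2

/-- all the multiples of all the neighbours are large -/
theorem thin_bigM (Q₀ J W : ℕ) : Thin (fun N y => ∀ q : ℕ, 1 ≤ q → |(q : ℝ) - y| ≤ Real.log N ^ W → ∀ h : ℕ, 1 ≤ h →
    (h : ℝ) ≤ Real.log N ^ J → Q₀ ≤ h * q) := by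
  refine thin_mono (Q₀ * Q₀) (fun N hN y hy q hq1 hq h hh1 _ => ?_) (thin_big W)
  have h1 := hy q hq1 hq
  have h2 : Q₀ ≤ q := by
    by_contra hcon
    push Not at hcon
    have : q * q < Q₀ * Q₀ := Nat.mul_lt_mul'' hcon hcon
    omega
  exact h2.trans (Nat.le_mul_of_pos_left _ hh1)

/-- `lamQ` at the multiples of the neighbours -/
theorem thin_lamM (θ : ℝ) (hθ : 0 < θ) (J W : ℕ) : Thin (fun N y => ∀ q : ℕ, 1 ≤ q → |(q : ℝ) - y| ≤ Real.log N ^ W →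
    ∀ h : ℕ, 1 ≤ h → (h : ℝ) ≤ Real.log N ^ J → lamQ (h * q) ≤ Real.log ((h * q : ℕ) : ℝ) ^ θ) := by
  obtain ⟨N₀, h0⟩ := lam_small J (θ / 4) (by positivity)
  obtain ⟨N₁, h1⟩ := eventually_atTop.1 (Pool.Agent.N384.MQ.ev_log_ge 8)
  refine thin_mono (N₀ + N₁ + 1) (fun N hN y hy q hq1 hq h hh1 hh2 => ?_) (thin_and (thin_big W) (thin_lam W (θ / 4) (by positivity)))
  have e1 := hy.1 q hq1 hq
  have e2 := hy.2 q hq1 hq
  have e3 := h0 N (by omega) h hh1 hh2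
  have e4 := h1 N (by omega)
  have hN0 : (0 : ℝ) < N := by exact_mod_cast (by omega : 0 < N)
  have hq0 : (0 : ℝ) < q := by exact_mod_cast hq1
  have e5 : Real.log N ≤ 2 * Real.log q := by
    have g1 : (N : ℝ) ≤ q * q := by exact_mod_cast e1
    have g2 := Real.log_le_log hN0 g1
    rw [Real.log_mul hq0.ne' hq0.ne'] at g2
    linarith
  have e6 : Real.log (q : ℝ) ≤ Real.log ((h * q : ℕ) : ℝ) := by
    apply Real.log_le_log hq0
    exact_mod_cast Nat.le_mul_of_pos_left _ hh1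
  obtain ⟨l, hl⟩ : ∃ l, l = Real.log ((h * q : ℕ) : ℝ) := ⟨_, rfl⟩
  rw [← hl] at e6 ⊢
  have hl4 : 4 ≤ l := by linarith
  have e7 : Real.log N ≤ l ^ (2 : ℝ) := by
    rw [Real.rpow_two]
    nlinarith
  have hLp : 0 ≤ Real.log N := by linarith
  have hlamq : 0 ≤ lamQ q := prod_nonneg fun p _ => by positivity
  calc lamQ (h * q) ≤ lamQ h * lamQ q := lam_mul h q (by omega) (by omega)
    _ ≤ Real.log N ^ (θ / 4) * Real.log N ^ (θ / 4) := mul_le_mul e3 e2 hlamq (Real.rpow_nonneg hLp _)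
    _ = Real.log N ^ (θ / 2) := by
        rw [← Real.rpow_add (by linarith)]
        congr 1
        ring
    _ ≤ (l ^ (2 : ℝ)) ^ (θ / 2) := Real.rpow_le_rpow hLp e7 (by positivity)
    _ = l ^ θ := by
        rw [← Real.rpow_mul (by linarith)]
        congr 1
        ring

/-- the formula for all the multiples of all the neighbours of almost all the members -/
theorem thin_clean (ρ : ℝ) (hρ : 0 < ρ) (T J W : ℕ) : Thin (fun N y => ∀ q : ℕ, 1 ≤ q → |(q : ℝ) - y| ≤ Real.log N ^ W →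
    ∀ h : ℕ, 1 ≤ h → (h : ℝ) ≤ Real.log N ^ J → FClean ρ T (h * q)) := by
  obtain ⟨A, hA⟩ := exists_nat_ge ρ
  obtain ⟨K, hK, hmain⟩ := t_fg T A
  obtain ⟨Q₀, h0⟩ := clean_of K ρ hK hρ T A hA
  refine thin_mono 0 (fun N _ y hy q hq1 hq h hh1 hh2 => ?_) (thin_and (thin_fg K T A (fun hC => hmain hC) J W)
    (thin_and (thin_bigM Q₀ J W) (thin_lamM (ρ / 24) (by positivity) J W)))
  exact h0 (h * q) (hy.2.1 q hq1 hq h hh1 hh2) (hy.1 q hq1 hq h hh1 hh2) (hy.2.2 q hq1 hq h hh1 hh2)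

/-- almost every real number with respect to every measure with Fourier decay -/
theorem ae_clean (μ : Measure ℝ) (hμ : Pool.Agent.Run7.h582.FM.Decay μ) (η : ℝ) (hη : 0 < η) (B S : ℕ) (N : ℕ → ℕ)
    (lam c : ℕ → ℝ) (hS : Pool.Agent.Run7.h582.FM.Sc η B S N lam c) :
    ∀ᵐ x ∂μ, ∀ (ρ : ℝ), 0 < ρ → ∀ T J W : ℕ, ∀ᶠ n : ℕ in atTop, ∀ q : ℕ, 1 ≤ q →
      |(q : ℝ) - (lam n * x + c n)| ≤ Real.log (N n) ^ W → ∀ h : ℕ, 1 ≤ h → (h : ℝ) ≤ Real.log (N n) ^ J →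
        FClean ρ T (h * q) := by
  obtain ⟨K, hK, hae⟩ := ae_fg
  have key1 := hae μ hμ η hη B S N lam c hS
  have key2 := Pool.Agent.Run7.h582.FM.ae_mult (ι := ℕ) (fun Q₀ Q => Q₀ ≤ Q) (fun Q₀ J W => thin_bigM Q₀ J W)
    μ hμ η hη B S N lam c hS
  have key3 := Pool.Agent.Run7.h582.FM.ae_mult (ι := ℕ) (fun k Q => lamQ Q ≤ Real.log Q ^ (1 / ((k : ℝ) + 1)))
    (fun k J W => thin_lamM (1 / ((k : ℝ) + 1)) (by positivity) J W) μ hμ η hη B S N lam c hS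
  filter_upwards [key1, key2, key3] with x h1 h2 h3 ρ hρ T J W
  obtain ⟨A, hA⟩ := exists_nat_ge ρ
  obtain ⟨Q₀, h0⟩ := clean_of (K T A) ρ (hK T A) hρ T A hA
  obtain ⟨Q₁, h4⟩ := eventually_atTop.1 (Pool.Agent.N384.MQ.ev_log_ge 1)
  obtain ⟨k, hk⟩ := exists_nat_one_div_lt (show 0 < ρ / 24 by positivity)
  filter_upwards [h1 T A J W, h2 (Q₀ + Q₁) J W, h3 k J W] with n g1 g2 g3 q hq1 hq h hh1 hh2
  have e1 := g2 q hq1 hq h hh1 hh2
  refine h0 (h * q) (by omega) (g1 q hq1 hq h hh1 hh2) ((g3 q hq1 hq h hh1 hh2).trans ?_)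
  exact Real.rpow_le_rpow_of_exponent_le (h4 _ (by omega)) hk.le

open Classical in
/-- values of generalised polynomials at primes -/
theorem clean_primes (F : Finset ℝ) (c : ℝ) (hcF : c ∈ F) (hn : ∀ m : ℕ, c ≠ m) (hc : 0 < c) (hmax : ∀ x ∈ F, x ≤ c)
    (a : ℝ → ℝ) (ha : a c ≠ 0) (ρ : ℝ) (hρ : 0 < ρ) (T J W U : ℕ) : ∃ X₀ : ℕ, ∀ X : ℕ, X₀ ≤ X → ∀ z : ℝ, |z| ≤ (X : ℝ) ^ c →
      (((Ioc X (2 * X)).filter fun p : ℕ => p.Prime ∧
        ¬ Pool.Agent.Run7.h844.RP.NearP (fun q => ∀ h : ℕ, 1 ≤ h → (h : ℝ) ≤ Real.log X ^ J → FClean ρ T (h * q))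
          (Real.log X ^ W) (Pool.Agent.Run7.h844.RP.ph F a p + z)).card : ℝ) ≤ X / Real.log X ^ U := by
  obtain ⟨X₂, h2⟩ := Pool.Agent.Run7.h844.RP.log_cmp (Pool.Agent.Run7.h844.RP.Ac F c a) c
    (Pool.Agent.Run7.h844.RP.Ac_pos F c a) hc J
  exact Pool.Agent.Run7.h844.RP.primes_nearX F c hcF hn hc hmax a ha U W
    (fun N q => ∀ h : ℕ, 1 ≤ h → (h : ℝ) ≤ Real.log N ^ (J + 1) → FClean ρ T (h * q))
    (fun X q => ∀ h : ℕ, 1 ≤ h → (h : ℝ) ≤ Real.log X ^ J → FClean ρ T (h * q))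
    ⟨X₂, fun X hX m hm h h1 h3 => hm h h1 (h3.trans (h2 X hX).2.2.1)⟩
    (thin_clean ρ hρ T (J + 1) (W + 1) 8 (1 / 2) (by norm_num) (by norm_num) (U + 1))

end Pool.Agent.Run7.h27.FG
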