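import Pool.Agent.Run7.h27.FG.Det
import Pool.Agent.Y958.RM.Main
import Pool.Agent.Y958.RM.Cor
import Pool.Agent.N625.PT.K

set_option autoImplicit false

/-!
The variance with its second main term, for random moduli with a thin large spectrum. Adapted from
`Pool.Agent.Y958.RM.Main` (first main term).
-/

namespace Pool.Agent.Run7.h27.FG

open Finset
open Pool.Agent.H373R2.T7
open Pool.Agent.W93.DG
open Pool.Agent.Y885
open Pool.Agent.TH894.PV (G)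
open Pool.Agent.TH894.PA (cz)
open Pool.Agent.Y958.RM (COR eH)

/-- the formula with both main terms for the modulus `Q` and all heights `Q ≤ x ≤ Q log ^ T Q` -/
def FGood (K : ℝ) (T A Q : ℕ) : Prop :=
  ∀ x : ℝ, (Q : ℝ) ≤ x → x ≤ Q * Real.log Q ^ T →
    |G x Q - (x * Real.log Q - CC Q * x)| ≤ K * (x * (lamQ Q * (Q / x) ^ (1 / 3 : ℝ) + 1 / Real.log Q ^ A))

theorem main2 (T A : ℕ) : ∃ K : ℝ, 0 < K ∧ ∀ κ U b E : ℕ, T ≤ κ → 2 ≤ b → 1 ≤ E → ∃ V : ℕ, ∀ c : ℕ, ∃ k₀ : ℕ, ∀ k : ℕ, k₀ ≤ k →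
    ∀ (ι : Type) (Ω : Finset ι) (p : ι → ℝ) (Y : ι → ℤ), ∑ ω ∈ Ω, p ω = 1 →
    (∀ h : ℕ, 1 ≤ h → Nat.log b h ≤ eH b (2 * (κ + 1)) k → TLaw b E c V (k + eH b (2 * (κ + 1)) k) Ω p (fun ω => (h : ℤ) * Y ω)) →
    (∀ ω ∈ Ω, |Y ω| ≤ (b : ℤ) ^ k) →
    ∀ bad : ι → Prop, ∀ _hdec : DecidablePred bad,
    (∀ ω ∈ Ω, bad ω → (b : ℤ) ^ k ≤ Y ω * (k : ℤ) ^ κ ∧ ¬ FGood K T A (Y ω).toNat) →
    ∑ ω ∈ Ω, (if bad ω then p ω else 0) ≤ 1 / (k : ℝ) ^ U := by
  have hCOR := Pool.Agent.Y958.RM.cor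
  obtain ⟨K, hK, hdet⟩ := det_var2 T A
  refine ⟨K, hK, fun κ U b E hTκ hb hE => ?_⟩
  obtain ⟨κ', hκ'⟩ : ∃ κ', κ' = κ + 1 := ⟨_, rfl⟩
  obtain ⟨V, hV⟩ := hCOR b E (2 * κ') (2 * κ' + 2) (4 * κ' + 2 * A + κ) U hb hE
  refine ⟨V, fun c => ?_⟩
  rw [← hκ']
  obtain ⟨B, hB⟩ := hV c
  obtain ⟨E', hE'⟩ : ∃ E', E' = B + κ' + A + 3 := ⟨_, rfl⟩
  obtain ⟨k0, h0⟩ := hB (E' + 1)
  obtain ⟨n1, h1⟩ := hdet (2 * (E' + 1))
  obtain ⟨n2, h2⟩ := ev_L' (2 ^ κ + 4)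
  obtain ⟨n3, h3⟩ := Pool.Agent.N625.PT.pow_le_pow_digits b hb (2 * κ)
  refine ⟨k0 + n1 * n1 + n2 + n3 + b + 4, fun k hK ι Ω p Y hp1 hlaw hY bad _ hbad => ?_⟩
  have hb1 : 1 < b := by omega
  have hbr : (2 : ℝ) ≤ b := by exact_mod_cast hb
  have hKX : k < b ^ k := Nat.lt_pow_self hb1
  have hK0 : (0 : ℝ) < k := by exact_mod_cast (by omega : 0 < k)
  have hK1 : (1 : ℝ) ≤ k := by exact_mod_cast (by omega : 1 ≤ k)
  have hKb : (b : ℝ) ≤ k := by exact_mod_cast (by omega : b ≤ k)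
  obtain ⟨L, hL⟩ : ∃ L, L = Real.log ((b ^ k : ℕ) : ℝ) := ⟨_, rfl⟩
  obtain ⟨q1, q2⟩ := logX b k hb
  rw [← hL] at q1 q2
  have hLK2 : L ≤ (k : ℝ) ^ 2 := by
    rw [pow_two]
    exact q2.trans (mul_le_mul_of_nonneg_right hKb hK0.le)
  have hLb := h2 (b ^ k) (by omega)
  rw [← hL] at hLb
  have q3 : (0 : ℝ) < 2 ^ κ := by positivity
  have hL4 : 4 ≤ L := by linarith
  have hL1 : 1 ≤ L := by linarith
  have hL0 : 0 < L := by linarith
  obtain ⟨z, hz⟩ : ∃ z, z = ⌈L ^ E'⌉₊ := ⟨_, rfl⟩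
  have hz1 : L ^ E' ≤ z := by rw [hz]; exact Nat.le_ceil _
  have hz2 : (z : ℝ) ≤ L ^ (E' + 1) := by
    have q1 : (z : ℝ) < L ^ E' + 1 := by rw [hz]; exact Nat.ceil_lt_add_one (by positivity)
    have q2 : 1 ≤ L ^ E' := one_le_pow₀ hL1
    rw [pow_succ]
    nlinarith
  obtain ⟨e, he⟩ : ∃ e, e = eH b (2 * κ') k := ⟨_, rfl⟩
  rw [← he] at hlaw
  have hkp : k ^ (2 * κ') ≠ 0 := pow_ne_zero _ (by omega)
  have he0 : 2 ≤ e := by rw [he]; unfold eH; omega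
  have he1 : k ^ (2 * κ') < b ^ (e - 1) := by
    rw [he]
    unfold eH
    have h5 : Nat.log b (k ^ (2 * κ')) + 2 - 1 = Nat.log b (k ^ (2 * κ')) + 1 := by omega
    rw [h5]
    exact Nat.lt_pow_succ_log_self hb1 _
  have he2 : b ^ e ≤ k ^ (2 * κ' + 2) := by
    rw [he]
    unfold eH
    rw [pow_add, pow_add]
    exact Nat.mul_le_mul (Nat.pow_log_le_self b hkp) (Nat.pow_le_pow_left (by omega) 2)
  have hke : k + e - 1 = k + (e - 1) := by omega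
  have hmul : b ^ k * k ^ (2 * κ') ≤ b ^ (k + e - 1) := by
    rw [hke, pow_add]
    exact Nat.mul_le_mul_left _ he1.le
  have hlogh : ∀ h : ℕ, h ≤ k ^ (2 * κ') → Nat.log b h ≤ e := by
    intro h hh
    rw [he]
    unfold eH
    exact (Nat.log_mono_right hh).trans (by omega)
  refine h0 k (by omega) e (by omega) he2 z (by rw [← hL]; exact (pow_le_pow_right₀ hL1 (by omega)).trans hz1) (by rw [← hL]; exact hz2)
    ι Ω p Y hp1 (fun h hh1 hh2 => hlaw h hh1 (hlogh h hh2)) ?_ bad _ ?_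
  · intro ω hω h hh1 hh2
    rw [abs_mul, Nat.abs_cast]
    have g1 : (h : ℤ) * |Y ω| ≤ ((k ^ (2 * κ') : ℕ) : ℤ) * (b : ℤ) ^ k :=
      mul_le_mul (by exact_mod_cast hh2) (hY ω hω) (abs_nonneg _) (by positivity)
    refine g1.trans ?_
    rw [mul_comm]
    exact_mod_cast hmul
  · intro ω hω hbω
    obtain ⟨hlow, hx3⟩ := hbad ω hω hbω
    have hYpos : 0 < Y ω := by
      by_contra hcon
      push Not at hcon
      have g1 : Y ω * (k : ℤ) ^ κ ≤ 0 := mul_nonpos_of_nonpos_of_nonneg hcon (by positivity)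
      have g2 : (0 : ℤ) < (b : ℤ) ^ k := by positivity
      linarith
    obtain ⟨Q, hQ⟩ : ∃ Q : ℕ, Q = (Y ω).toNat := ⟨_, rfl⟩
    have hQY : (Q : ℤ) = Y ω := by rw [hQ]; exact Int.toNat_of_nonneg hYpos.le
    rw [← hQ] at hx3
    rw [← hQY] at hlow
    have hlow' : b ^ k ≤ Q * k ^ κ := by exact_mod_cast hlow
    have hQle : Q ≤ b ^ k := by
      have g1 := (le_abs_self _).trans (hY ω hω)
      rw [← hQY] at g1
      exact_mod_cast g1
    have hQ0 : 0 < Q := by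
      have : (0 : ℤ) < Q := by rw [hQY]; exact hYpos
      exact_mod_cast this
    have hQr : (0 : ℝ) < Q := by exact_mod_cast hQ0
    -- the logarithm of the modulus
    have hsq : b ^ k ≤ Q * Q := by
      have g1 := h3 k (by omega)
      have g2 : b ^ k * b ^ k ≤ (Q * Q) * b ^ k := by
        calc b ^ k * b ^ k ≤ (Q * k ^ κ) * (Q * k ^ κ) := Nat.mul_le_mul hlow' hlow'
          _ = (Q * Q) * k ^ (2 * κ) := by ring
          _ ≤ (Q * Q) * b ^ k := Nat.mul_le_mul_left _ g1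
      exact Nat.le_of_mul_le_mul_right g2 (Nat.pow_pos (by omega))
    obtain ⟨l, hl⟩ : ∃ l, l = Real.log (Q : ℝ) := ⟨_, rfl⟩
    have hlL : l ≤ L := by
      rw [hl, hL]
      exact Real.log_le_log hQr (by exact_mod_cast hQle)
    have hLl : L ≤ 2 * l := by
      have g1 : L ≤ Real.log ((Q : ℝ) * Q) := by
        rw [hL]
        apply Real.log_le_log (by exact_mod_cast (by omega : 0 < b ^ k))
        exact_mod_cast hsq
      rw [Real.log_mul hQr.ne' hQr.ne'] at g1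
      linarith
    have hl2 : 2 ≤ l := by linarith
    have hl0 : 0 < l := by linarith
    have hl1 : 1 ≤ l := by linarith
    have hlk : l ≤ (k : ℝ) ^ 2 := hlL.trans hLK2
    have hn1 : n1 ≤ Q := by
      by_contra hcon
      push Not at hcon
      have g1 : Q * Q ≤ n1 * n1 := Nat.mul_le_mul hcon.le hcon.le
      omega
    by_contra hcon
    push Not at hcon
    apply hx3
    intro x hx1 hx2
    refine h1 Q hn1 z ?_ ?_ Q le_rfl ?_ x hx1 hx2 ?_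
    · rw [← hl]
      calc l ^ (T + A + 3) ≤ L ^ (T + A + 3) := pow_le_pow_left₀ hl0.le hlL _
        _ ≤ L ^ E' := pow_le_pow_right₀ hL1 (by omega)
        _ ≤ z := hz1
    · rw [← hl]
      calc (z : ℝ) ≤ L ^ (E' + 1) := hz2
        _ ≤ (l ^ 2) ^ (E' + 1) := pow_le_pow_left₀ hL0.le (by nlinarith) _
        _ = l ^ (2 * (E' + 1)) := by rw [← pow_mul]
    · rw [← hl]
      exact le_mul_of_one_le_right hQr.le (one_le_pow₀ hl1)
    · intro h hh1 hh2 N₁ hN₁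
      rw [← hl] at hh2 hN₁ ⊢
      have hlT : l ^ T ≤ (k : ℝ) ^ (2 * κ') := by
        calc l ^ T ≤ ((k : ℝ) ^ 2) ^ T := pow_le_pow_left₀ hl0.le hlk _
          _ = (k : ℝ) ^ (2 * T) := by rw [← pow_mul]
          _ ≤ (k : ℝ) ^ (2 * κ') := pow_le_pow_right₀ hK1 (by omega)
      have e1 : h ≤ k ^ (2 * κ') := by exact_mod_cast hh2.trans hlT
      have e2 : N₁ ≤ b ^ k * k ^ (2 * κ') := by
        have e3 : (N₁ : ℝ) ≤ ((b ^ k : ℕ) : ℝ) * (k : ℝ) ^ (2 * κ') :=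
          hN₁.trans (mul_le_mul (by exact_mod_cast hQle) hlT (by positivity) (by positivity))
        exact_mod_cast e3
      have e4 := hcon h N₁ hh1 e1 (e2.trans hmul)
      have e5 : cz z N₁ (h * Q) = ∑ n ∈ Icc 1 N₁, ArithmeticFunction.vonMangoldt n *
          (lamI ((n : ℤ) + (h : ℤ) * Y ω) - lamzI z ((n : ℤ) + (h : ℤ) * Y ω)) := by
        unfold cz
        rw [← hQY]
        push_cast
        rfl
      rw [← e5] at e4
      refine e4.trans ?_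
      have e6 : (b : ℝ) ^ k ≤ Q * (k : ℝ) ^ κ := by exact_mod_cast hlow'
      rw [div_le_div_iff₀ (by positivity) (by positivity)]
      calc (b : ℝ) ^ k * l ^ (2 * T + A) ≤ (Q * (k : ℝ) ^ κ) * ((k : ℝ) ^ 2) ^ (2 * T + A) :=
            mul_le_mul e6 (pow_le_pow_left₀ hl0.le hlk _) (by positivity) (by positivity)
        _ = Q * (k : ℝ) ^ (κ + 2 * (2 * T + A)) := by rw [← pow_mul, pow_add]; ring
        _ ≤ Q * (k : ℝ) ^ (4 * κ' + 2 * A + κ) := by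
            apply mul_le_mul_of_nonneg_left _ hQr.le
            exact pow_le_pow_right₀ hK1 (by omega)

end Pool.Agent.Run7.h27.FG
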