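import Pool.Agent.Run7.h27.FG.Cls

set_option autoImplicit false

/-!
The variance with its second main term, for all the multiples of all the neighbours of the members of the law classes. Adapted
from `Pool.Agent.N625.PT.G` (first main term).
-/

namespace Pool.Agent.Run7.h27.FG

open Finset
open Pool.Agent.Y885 (TLaw)
open Pool.Agent.Y958.RM (eH)
open Pool.Agent.N625.PT

open Classical in
theorem t_fg (T A : ℕ) : ∃ K : ℝ, 0 < K ∧ ∀ {b : ℕ} {κ : ℤ} {C : ℕ → (ℕ → ℝ) → Prop}, TCls b κ C → ∀ B J W U : ℕ,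
    ∃ k₀ : ℕ, ∀ k : ℕ, k₀ ≤ k → ∀ p, C k p → ∀ c : ℤ, |c| ≤ B * (b : ℤ) ^ k →
    ∑ v ∈ range (b ^ k), (if ∀ q : ℕ, 1 ≤ q → |(q : ℤ) - (c + κ * v)| ≤ (k : ℤ) ^ W → ∀ h : ℕ, 1 ≤ h → h ≤ k ^ J →
      FGood K T A (h * q) then 0 else p v) ≤ 1 / (k : ℝ) ^ U := by
  obtain ⟨Kc, hKc, hmain⟩ := main2 T A
  refine ⟨Kc, hKc, fun {b κ C} hC B J W U => ?_⟩
  have hb := hC.two
  obtain ⟨F, hF, hlaw⟩ := hC.law
  obtain ⟨U', hU'⟩ : ∃ U', U' = U + J + W + 1 := ⟨_, rfl⟩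
  obtain ⟨e₀, he₀⟩ : ∃ e₀, e₀ = F + (B + κ.natAbs + 1) + 2 := ⟨_, rfl⟩
  obtain ⟨c₁, m₁, h1⟩ := hlaw (3 * J + e₀) (U' + 1 + 1)
  obtain ⟨W', K₁, hsm⟩ := Pool.Agent.Y885.small_ball b hb 15 c₁ (U' + 1) (by norm_num)
  obtain ⟨κ', hκ'⟩ : ∃ κ', κ' = 2 * (W' + 1) + T + b + 1 := ⟨_, rfl⟩
  obtain ⟨H, hH⟩ : ∃ H, H = 2 * (κ' + 1) := ⟨_, rfl⟩
  obtain ⟨V, hV⟩ := hmain κ' (U' + 1) b 15 (by omega) hb (by norm_num)
  rw [← hH] at hV
  obtain ⟨c₂, m₂, h2⟩ := hlaw (3 * J + e₀ + (5 * H + 2)) V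
  obtain ⟨K₂, h3⟩ := hV c₂
  obtain ⟨k4, h4⟩ := pow_le_pow_digits b hb W
  obtain ⟨k5, h5⟩ := log_small (3 * J + e₀)
  refine ⟨m₁ + m₂ + K₁ + K₂ + k4 + k5 + b + 8, fun k hk p hp c hc => ?_⟩
  have hbr : (2 : ℝ) ≤ b := by exact_mod_cast hb
  have hkr : (8 : ℝ) ≤ k := by exact_mod_cast (by omega : 8 ≤ k)
  have hk0 : (0 : ℝ) < k := by linarith
  have key := union J W U k (by omega) (b ^ k) p (hC.nonneg k p hp)
    (fun h s v => 0 < (h : ℤ) * (c + s + κ * v) ∧ ¬ FGood Kc T A ((h : ℤ) * (c + s + κ * v)).toNat)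
    (fun v => ∀ q : ℕ, 1 ≤ q → |(q : ℤ) - (c + κ * v)| ≤ (k : ℤ) ^ W → ∀ h : ℕ, 1 ≤ h → h ≤ k ^ J →
      FGood Kc T A (h * q)) (fun v hv => by
      push Not at hv
      obtain ⟨q, hq1, hq2, h, hh1, hh2, hx⟩ := hv
      refine ⟨h, hh1, hh2, (q : ℤ) - (c + κ * v), hq2, ?_⟩
      have e : (h : ℤ) * (c + ((q : ℤ) - (c + κ * v)) + κ * v) = ((h * q : ℕ) : ℤ) := by
        push_cast
        ring
      rw [e]
      have h0 : 0 < h * q := Nat.mul_pos hh1 hq1
      refine ⟨by exact_mod_cast h0, ?_⟩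
      rw [Int.toNat_natCast]
      exact hx) ?_
  · exact key
  intro h hh1 hh2 s hs
  rw [← hU']
  obtain ⟨e, he⟩ : ∃ e, e = ex b J e₀ k := ⟨_, rfl⟩
  have hee : e = J * (Nat.log b k + 1) + e₀ := by rw [he]; rfl
  have hlogF := log_ex b J F hb k h hF hh1 hh2
  have heW : (e : ℝ) ≤ ((3 * J + e₀ : ℕ) : ℝ) * Real.log k := by rw [he]; exact ex_le b J e₀ hb k (by omega)
  have hek : e ≤ k := by
    have := heW.trans (h5 k (by omega))
    exact_mod_cast this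
  obtain ⟨K, hK⟩ : ∃ K, K = k + e := ⟨_, rfl⟩
  have hKr : (k : ℝ) ≤ K := by exact_mod_cast (by omega : k ≤ K)
  have hK0 : (0 : ℝ) < K := by linarith
  obtain ⟨Y, hY⟩ : ∃ Y : ℕ → ℤ, Y = fun v : ℕ => (h : ℤ) * (c + s + κ * v) := ⟨_, rfl⟩
  have hYv : ∀ v : ℕ, (h : ℤ) * (c + s + κ * v) = Y v := fun v => by rw [hY]
  simp only [hYv]
  have t1 := h1 k (by omega) e heW h hh1 (by omega) p hp (c + s)
  rw [← hK, ← hY] at t1
  have hsize : ∀ v ∈ range (b ^ k), |Y v| ≤ (b : ℤ) ^ K := by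
    intro v hv
    rw [mem_range] at hv
    rw [← hYv]
    refine (val_ex b J W B hb κ k (h4 k (by omega)) c s hc hs h hh2 v hv).trans ?_
    apply pow_le_pow_right₀ (by exact_mod_cast (by omega : 1 ≤ b))
    omega
  have s1 := hsm K (by omega) ℕ (range (b ^ k)) p Y t1
  obtain ⟨Bd, hBd⟩ : ∃ Bd : ℕ → Prop, Bd = fun v => (b : ℤ) ^ K ≤ Y v * (K : ℤ) ^ κ' ∧ ¬ FGood Kc T A (Y v).toNat := ⟨_, rfl⟩
  have s2 := h3 K (by omega) ℕ (range (b ^ k)) p Y (hC.sum k p hp) (by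
    intro h' hh'1 hh'2
    obtain ⟨e', he'⟩ : ∃ e', e' = eH b H K := ⟨_, rfl⟩
    rw [← he'] at hh'2 ⊢
    have e1 : K + e' = k + (e + e') := by omega
    rw [e1]
    have e2 : (fun ω : ℕ => (h' : ℤ) * Y ω) = fun v : ℕ => ((h' * h : ℕ) : ℤ) * ((c + s) + κ * v) := by
      funext v
      rw [hY]
      push_cast
      ring
    rw [e2]
    refine h2 k (by omega) (e + e') ?_ (h' * h) (Nat.mul_pos hh'1 hh1) ?_ p hp (c + s)
    · have f1 : (e' : ℝ) ≤ ((5 * H + 2 : ℕ) : ℝ) * Real.log k := by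
        have g1 : (e' : ℝ) ≤ H * ((Nat.log b K : ℝ) + 1) + 2 := by
          rw [he']
          exact_mod_cast eH_bd b H hb K (by omega)
        have g2 := log_real b hb K (by omega)
        have g3 : Real.log K ≤ 2 * Real.log k := by
          have q1 : (K : ℝ) ≤ (k : ℝ) ^ 2 := by
            have : (K : ℝ) ≤ 2 * k := by exact_mod_cast (by omega : K ≤ 2 * k)
            nlinarith
          have q2 := Real.log_le_log hK0 q1
          rw [Real.log_pow] at q2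
          push_cast at q2
          exact q2
        have g4 : 1 ≤ Real.log k := by
          rw [Real.le_log_iff_exp_le hk0]
          linarith [Real.exp_one_lt_d9]
        have hH0 : (0 : ℝ) ≤ H := Nat.cast_nonneg _
        push_cast
        nlinarith
      push_cast at heW f1 ⊢
      linarith
    · have q1 := log_mul_le b h' (F * h) hb hh'1 (Nat.mul_pos hF hh1)
      have q2 : F * (h' * h) = h' * (F * h) := by ring
      rw [q2]
      omega) hsize Bd (fun _ => Classical.propDecidable _)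
    (fun v _ hv => by rw [hBd] at hv; exact hv)
  have hsplit : ∀ v ∈ range (b ^ k), (if 0 < Y v ∧ ¬ FGood Kc T A (Y v).toNat then p v else 0) ≤
      (if 1 ≤ Y v ∧ (Y v : ℝ) < ((b ^ K : ℕ) : ℝ) / Real.log ((b ^ K : ℕ) : ℝ) ^ (W' + 1) then p v else 0) +
      (if Bd v then p v else 0) := by
    intro v _
    have hpv := hC.nonneg k p hp v
    by_cases hbad : 0 < Y v ∧ ¬ FGood Kc T A (Y v).toNat
    · rw [if_pos hbad]
      by_cases hsmall : 1 ≤ Y v ∧ (Y v : ℝ) < ((b ^ K : ℕ) : ℝ) / Real.log ((b ^ K : ℕ) : ℝ) ^ (W' + 1)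
      · rw [if_pos hsmall]
        have : 0 ≤ (if Bd v then p v else 0) := by
          split_ifs
          · exact hpv
          · exact le_rfl
        linarith
      · rw [if_neg hsmall, zero_add, if_pos]
        obtain ⟨hY0, hx3⟩ := hbad
        have hY1 : 1 ≤ Y v := hY0
        rw [not_and, not_lt] at hsmall
        have hbig := hsmall hY1
        have hlogK : Real.log ((b ^ K : ℕ) : ℝ) ≤ (K : ℝ) ^ 2 := by
          rw [Nat.cast_pow, Real.log_pow, pow_two]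
          apply mul_le_mul_of_nonneg_left _ hK0.le
          have q1 : Real.log (b : ℝ) ≤ b := (Real.log_le_sub_one_of_pos (by linarith)).trans (by linarith)
          exact q1.trans (by exact_mod_cast (by omega : b ≤ K))
        have hlog0 : 0 < Real.log ((b ^ K : ℕ) : ℝ) := by
          apply Real.log_pos
          have : 1 < b ^ K := Nat.one_lt_pow (by omega) (by omega)
          exact_mod_cast this
        have hYr : (0 : ℝ) < (Y v : ℝ) := by exact_mod_cast hY0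
        have hK1 : (1 : ℝ) ≤ K := by linarith
        rw [hBd]
        refine ⟨?_, hx3⟩
        have q1 : ((b ^ K : ℕ) : ℝ) ≤ (Y v : ℝ) * (K : ℝ) ^ κ' := by
          rw [div_le_iff₀ (by positivity)] at hbig
          refine hbig.trans (mul_le_mul_of_nonneg_left ?_ hYr.le)
          calc Real.log ((b ^ K : ℕ) : ℝ) ^ (W' + 1) ≤ ((K : ℝ) ^ 2) ^ (W' + 1) := pow_le_pow_left₀ hlog0.le hlogK _
            _ = (K : ℝ) ^ (2 * (W' + 1)) := by rw [← pow_mul]
            _ ≤ (K : ℝ) ^ κ' := pow_le_pow_right₀ hK1 (by omega)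
        have q2 : (((b : ℤ) ^ K : ℤ) : ℝ) ≤ ((Y v * (K : ℤ) ^ κ' : ℤ) : ℝ) := by
          push_cast at q1 ⊢
          exact q1
        exact_mod_cast q2
    · rw [if_neg hbad]
      apply add_nonneg <;> split_ifs <;> first | exact hpv | exact le_rfl
  refine (sum_le_sum hsplit).trans ?_
  rw [sum_add_distrib]
  refine (add_le_add s1 s2).trans ?_
  have e1 : 1 / (K : ℝ) ^ (U' + 1) ≤ 1 / (2 * (k : ℝ) ^ U') := by
    apply one_div_le_one_div_of_le (by positivity)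
    rw [pow_succ]
    calc 2 * (k : ℝ) ^ U' = (k : ℝ) ^ U' * 2 := by ring
      _ ≤ (K : ℝ) ^ U' * K := mul_le_mul (pow_le_pow_left₀ hk0.le hKr _) (by linarith) (by norm_num) (by positivity)
  have e2 : 1 / (2 * (k : ℝ) ^ U') + 1 / (2 * (k : ℝ) ^ U') = 1 / (k : ℝ) ^ U' := by
    field_simp
    norm_num
  linarith

end Pool.Agent.Run7.h27.FG
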