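import Pool.Agent.Run7.h27.FG.Sum
import Pool.Agent.TH894.PV3

set_option autoImplicit false

/-!
The constants of the second main term for the primes up to a parameter.
-/

namespace Pool.Agent.Run7.h27.FG

open Finset Filter Topology
open Pool.Agent.H373R2.T7 (pz mem_pz)
open Pool.Agent.TH894.PV (al be fs CQ card_pf)

/-- the inverse squares -/
noncomputable def invsq : ℕ →* ℝ where
  toFun n := ((n : ℝ) ^ 2)⁻¹
  map_one' := by simp
  map_mul' a b := by push_cast; rw [mul_pow, mul_inv]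

lemma invsq_apply (n : ℕ) : invsq n = ((n : ℝ) ^ 2)⁻¹ := rfl

lemma invsq_hasSum : HasSum (fun n => invsq n) Z2 := by
  have h := hasSum_zeta_two
  have e : (fun n => invsq n) = fun n : ℕ => 1 / (n : ℝ) ^ 2 := by
    funext n
    rw [invsq_apply, one_div]
  rw [e]
  exact h

/-- Euler's product -/
lemma euler2 (z : ℕ) (hz : 2 ≤ z) : 1 ≤ Z2 * ∏ p ∈ pz z, (1 - 1 / (p : ℝ) ^ 2) ∧ Z2 * ∏ p ∈ pz z, (1 - 1 / (p : ℝ) ^ 2) ≤ 1 + 1 / z := by
  have hz0 : (0 : ℝ) < z := by exact_mod_cast (by omega : 0 < z)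
  have hz2 : (2 : ℝ) ≤ z := by exact_mod_cast hz
  have hs := invsq_hasSum
  have key := EulerProduct.prod_primesBelow_geometric_eq_tsum_smoothNumbers (f := invsq) hs.summable (z + 1)
  have e1 : (z + 1).primesBelow = pz z := by
    ext p
    rw [Nat.mem_primesBelow, mem_pz]
    constructor
    · rintro ⟨h1, h2⟩
      exact ⟨by omega, h2⟩
    · rintro ⟨h1, h2⟩
      exact ⟨by omega, h2⟩
  obtain ⟨Pr, hPr⟩ : ∃ Pr, Pr = ∏ p ∈ pz z, (1 - 1 / (p : ℝ) ^ 2) := ⟨_, rfl⟩
  have hPr0 : 0 < Pr := by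
    rw [hPr]
    apply prod_pos
    intro p hp
    have h2 : (2 : ℝ) ≤ p := by exact_mod_cast (mem_pz.1 hp).2.two_le
    rw [sub_pos, div_lt_one (by positivity)]
    nlinarith
  have e2 : ∏ p ∈ (z + 1).primesBelow, (1 - invsq p)⁻¹ = Pr⁻¹ := by
    rw [e1, hPr, ← prod_inv_distrib]
    apply prod_congr rfl
    intro p _
    rw [invsq_apply, one_div]
  rw [e2] at key
  have hup : Pr⁻¹ ≤ Z2 := by
    rw [key, ← hs.tsum_eq, _root_.tsum_subtype]
    apply Summable.tsum_le_tsum _ (hs.summable.indicator _) hs.summable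
    intro n
    apply Set.indicator_le_self'
    intro m _
    rw [invsq_apply]
    positivity
  have hlo : Z2 - 1 / z ≤ Pr⁻¹ := by
    have h1 := sqs z (by omega)
    have h2 : ∑ m ∈ Icc 1 z, 1 / (m : ℝ) ^ 2 ≤ Pr⁻¹ := by
      rw [key, _root_.tsum_subtype]
      have h3 : ∑ m ∈ Icc 1 z, 1 / (m : ℝ) ^ 2 = ∑ m ∈ Icc 1 z, (Nat.smoothNumbers (z + 1)).indicator (fun n => invsq n) m := by
        apply sum_congr rfl
        intro m hm
        rw [mem_Icc] at hm
        rw [Set.indicator_of_mem, invsq_apply, one_div]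
        rw [Nat.mem_smoothNumbers]
        refine ⟨by omega, fun p hp => ?_⟩
        have := Nat.le_of_mem_primeFactorsList hp
        omega
      rw [h3]
      apply (hs.summable.indicator _).sum_le_tsum
      intro m _
      apply Set.indicator_nonneg
      intro n _
      rw [invsq_apply]
      positivity
    have h4 : 1 / (z : ℝ) ^ 3 ≤ 1 / (2 * (z : ℝ) ^ 2) := by
      apply one_div_le_one_div_of_le (by positivity)
      nlinarith [sq_nonneg (z : ℝ)]
    have h5 := (abs_le.1 h1).1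
    linarith
  rw [← hPr]
  have hPi : Pr * Pr⁻¹ = 1 := mul_inv_cancel₀ hPr0.ne'
  constructor
  · nlinarith
  · have hZ : Z2 ≤ Pr⁻¹ + 1 / z := by linarith
    have hPr1 : Pr ≤ 1 := by
      rw [hPr]
      apply prod_le_one
      · intro p hp
        have h2 : (2 : ℝ) ≤ p := by exact_mod_cast (mem_pz.1 hp).2.two_le
        rw [sub_nonneg, div_le_one (by positivity)]
        nlinarith
      · intro p _
        have : 0 ≤ 1 / (p : ℝ) ^ 2 := by positivity
        linarith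
    calc Z2 * Pr ≤ (Pr⁻¹ + 1 / z) * Pr := mul_le_mul_of_nonneg_right hZ hPr0.le
      _ = 1 + 1 / z * Pr := by rw [add_mul, inv_mul_cancel₀ hPr0.ne']
      _ ≤ 1 + 1 / z := by
          have : 1 / (z : ℝ) * Pr ≤ 1 / z := mul_le_of_le_one_right (by positivity) hPr1
          linarith

lemma aP_eq (z Q : ℕ) : aP Q (pz z) = (Z2 * ∏ p ∈ pz z, (1 - 1 / (p : ℝ) ^ 2)) * CQ z Q := by
  unfold aP CQ
  rw [prod_filter, mul_assoc, ← prod_mul_distrib]
  congr 1
  apply prod_congr rfl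
  intro p hp
  have hp2 : (2 : ℝ) ≤ p := by exact_mod_cast (mem_pz.1 hp).2.two_le
  have h1 : (p : ℝ) - 1 ≠ 0 := by linarith
  have h0 : (p : ℝ) ≠ 0 := by linarith
  unfold b0 b1 b2 be
  split_ifs
  · have e1 : (1 - 1 / (p : ℝ)) = (p - 1) / p := by field_simp
    rw [e1]
    field_simp
    ring
  · field_simp
    ring

/-- the constant of the problem -/
noncomputable def CC (Q : ℕ) : ℝ := ∑ p ∈ Q.primeFactors, Real.log p / ((p : ℝ) - 1) + Real.eulerMascheroniConstant + Real.log (2 * Real.pi)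

lemma cP_eq (z Q : ℕ) (hQ : 1 ≤ Q) (hz : 1 ≤ z) : cP Q (pz z) ≤ CC Q - 1 ∧ CC Q - 1 - 2 * Real.log Q ^ 2 / z ≤ cP Q (pz z) := by
  have hz0 : (0 : ℝ) < z := by exact_mod_cast hz
  have h1 : cP Q (pz z) = c1 + ∑ p ∈ (pz z).filter (fun p => p ∣ Q), Real.log p / ((p : ℝ) - 1) := by
    unfold cP
    rw [sum_filter, sub_eq_add_neg, ← sum_neg_distrib]
    congr 1
    apply sum_congr rfl
    intro p _
    unfold b1 b2
    split_ifs
    · ring
    · ring
  have h2 : (pz z).filter (fun p => p ∣ Q) = Q.primeFactors.filter (fun p => p ≤ z) := by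
    ext p
    rw [mem_filter, mem_filter, mem_pz, Nat.mem_primeFactors]
    constructor
    · rintro ⟨⟨a, b⟩, c⟩
      exact ⟨⟨b, c, by omega⟩, a⟩
    · rintro ⟨⟨a, b, _⟩, c⟩
      exact ⟨⟨c, a⟩, b⟩
  have h3 : CC Q - 1 = c1 + ∑ p ∈ Q.primeFactors, Real.log p / ((p : ℝ) - 1) := by
    unfold CC c1
    ring
  have h4 := sum_filter_add_sum_filter_not Q.primeFactors (fun p => p ≤ z) (fun p => Real.log p / ((p : ℝ) - 1))
  rw [h1, h2, h3, ← h4]
  have hlQ : 0 ≤ Real.log Q := Real.log_natCast_nonneg Q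
  have h5 : 0 ≤ ∑ p ∈ Q.primeFactors.filter (fun p => ¬ p ≤ z), Real.log p / ((p : ℝ) - 1) := by
    apply sum_nonneg
    intro p hp
    rw [mem_filter, Nat.mem_primeFactors] at hp
    have hp2 : (2 : ℝ) ≤ p := by exact_mod_cast hp.1.1.two_le
    exact div_nonneg (Real.log_natCast_nonneg p) (by linarith)
  have h6 : ∑ p ∈ Q.primeFactors.filter (fun p => ¬ p ≤ z), Real.log p / ((p : ℝ) - 1) ≤ 2 * Real.log Q ^ 2 / z := by
    calc ∑ p ∈ Q.primeFactors.filter (fun p => ¬ p ≤ z), Real.log p / ((p : ℝ) - 1) ≤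
          ∑ _p ∈ Q.primeFactors.filter (fun p => ¬ p ≤ z), Real.log Q / z := by
          apply sum_le_sum
          intro p hp
          rw [mem_filter, Nat.mem_primeFactors] at hp
          have hp2 : (2 : ℝ) ≤ p := by exact_mod_cast hp.1.1.two_le
          have hpz : (z : ℝ) ≤ (p : ℝ) - 1 := by
            have h7 : z + 1 ≤ p := by omega
            have h8 : (z : ℝ) + 1 ≤ p := by exact_mod_cast h7
            linarith
          have hpQ : Real.log p ≤ Real.log Q := Real.log_le_log (by linarith) (by exact_mod_cast Nat.le_of_dvd (by omega) hp.1.2.1)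
          exact div_le_div₀ hlQ hpQ hz0 hpz
      _ = ((Q.primeFactors.filter (fun p => ¬ p ≤ z)).card : ℝ) * (Real.log Q / z) := by rw [sum_const, nsmul_eq_mul]
      _ ≤ (2 * Real.log Q) * (Real.log Q / z) := by
          apply mul_le_mul_of_nonneg_right _ (by positivity)
          refine le_trans ?_ (card_pf Q hQ)
          exact_mod_cast card_le_card (filter_subset _ _)
      _ = _ := by ring
  constructor <;> linarith

lemma Gm_pz (z Q j : ℕ) (hj : 1 ≤ j) (hjz : j ≤ z) : Gm Q (pz z) j = CQ z Q * fs ((pz z).filter (fun p => ¬ p ∣ Q)) j := by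
  have h1 : j.primeFactors \ pz z = ∅ := by
    rw [sdiff_eq_empty_iff_subset]
    intro p hp
    rw [Nat.mem_primeFactors] at hp
    exact mem_pz.2 ⟨(Nat.le_of_dvd hj hp.2.1).trans hjz, hp.1⟩
  unfold Gm
  rw [h1, prod_empty, mul_one]
  unfold CQ fs phl
  rw [prod_filter, prod_filter, ← prod_mul_distrib]
  apply prod_congr rfl
  intro p _
  by_cases h : p ∣ Q
  · rw [if_pos h, if_pos h, if_neg (by simp [h]), mul_one]
  · rw [if_neg h, if_neg h, if_pos h, one_mul]

/-- **the sum of the singular series of the multiples** -/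
theorem ss_main : ∃ C : ℝ, 0 < C ∧ ∀ z Q : ℕ, 2 ≤ z → 1 ≤ Q → ∀ y : ℝ, 0 < y → y ≤ z →
    |∑ j ∈ Icc 1 ⌊y⌋₊, (y - (j : ℝ)) * (CQ z Q * fs ((pz z).filter (fun p => ¬ p ∣ Q)) j) -
      (aP Q (pz z) * y ^ 2 / 2 - y / 2 * (Real.log y + cP Q (pz z)))| ≤ C * lamQ Q * y ^ (2 / 3 : ℝ) := by
  obtain ⟨C, hC, h⟩ := DD_main
  obtain ⟨C', hC', h'⟩ := eP_le
  refine ⟨C * C', by positivity, fun z Q hz hQ y hy hyz => ?_⟩
  have hP : ∀ q ∈ pz z, q.Prime := fun q hq => (mem_pz.1 hq).2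
  have h1 := h Q (pz z) hP y hy
  have h2 := h' Q (by omega) (pz z) hP
  have h3 : ∑ j ∈ Icc 1 ⌊y⌋₊, (y - (j : ℝ)) * (CQ z Q * fs ((pz z).filter (fun p => ¬ p ∣ Q)) j) = DD Q (pz z) y := by
    unfold DD
    apply sum_congr rfl
    intro j hj
    rw [mem_Icc] at hj
    rw [Gm_pz z Q j hj.1]
    have : (j : ℝ) ≤ z := ((Nat.le_floor_iff hy.le).1 hj.2).trans hyz
    exact_mod_cast this
  rw [h3]
  refine h1.trans ?_
  apply mul_le_mul_of_nonneg_right _ (by positivity)
  rw [mul_assoc]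
  exact mul_le_mul_of_nonneg_left h2 hC.le

end Pool.Agent.Run7.h27.FG
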