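import Pool.Agent.Run7.h27.FG.Harm
import Pool.Agent.TH894.PV4

set_option autoImplicit false

/-!
The sum of `Λ(n)^2` with its second main term.
-/

namespace Pool.Agent.Run7.h27.FG

open Finset Filter Topology
open Pool.Agent.H373R2.T7
open Pool.Agent.TH894.PV (vq vq_le vq_nonneg not_cop card_pf)

/-- partial summation -/
lemma abel_log (a : ℕ → ℝ) (X : ℕ) (hX : 1 ≤ X) : ∑ n ∈ Icc 1 X, a n * Real.log n =
    (∑ n ∈ Icc 1 X, a n) * Real.log X - ∑ m ∈ Ico 1 X, (∑ n ∈ Icc 1 m, a n) * (Real.log ((m : ℝ) + 1) - Real.log m) := by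
  induction X, hX using Nat.le_induction with
  | base => simp
  | succ X hX ih =>
    rw [sum_Icc_succ_top (by omega), sum_Icc_succ_top (by omega), sum_Ico_succ_top hX, ih]
    push_cast
    ring

lemma log_step (m : ℕ) (hm : 1 ≤ m) : 0 ≤ Real.log ((m : ℝ) + 1) - Real.log m ∧ Real.log ((m : ℝ) + 1) - Real.log m ≤ 1 / m := by
  have hm0 : (0 : ℝ) < m := by exact_mod_cast hm
  constructor
  · have := Real.log_le_log hm0 (by linarith : (m : ℝ) ≤ m + 1)
    linarith
  · rw [← Real.log_div (by positivity) hm0.ne']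
    have h1 := Real.log_le_sub_one_of_pos (by positivity : 0 < ((m : ℝ) + 1) / m)
    have h2 : ((m : ℝ) + 1) / m - 1 = 1 / m := by field_simp; ring
    linarith

lemma lam_log (U : ℕ) : ∃ C : ℝ, 0 < C ∧ ∃ X₀ : ℕ, ∀ X : ℕ, X₀ ≤ X →
    |∑ n ∈ Icc 1 X, ArithmeticFunction.vonMangoldt n * Real.log n - (X * Real.log X - X)| ≤ C * (X / Real.log X ^ U) := by
  obtain ⟨C, n0, hC, h0⟩ := pnt_lam (U + 1)
  obtain ⟨n1, h1⟩ := ev_log' (U + 3) 1
  obtain ⟨n3, h3⟩ := ev_L' 4
  refine ⟨C + C * 4 ^ (U + 1) + 20, by positivity, n0 * n0 + n1 + n3 + 2, fun X hX => ?_⟩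
  have hn0 : n0 ≤ n0 * n0 := Nat.le_mul_self n0
  have hX1 : 1 ≤ X := by omega
  have hX0 : (0 : ℝ) < X := by exact_mod_cast hX1
  have hX1r : (1 : ℝ) ≤ X := by exact_mod_cast hX1
  have a0 := h0 X (by omega)
  have a1 := h1 X (by omega)
  have a3 := h3 X (by omega)
  obtain ⟨L, hL⟩ : ∃ L, L = Real.log (X : ℝ) := ⟨_, rfl⟩
  rw [← hL] at a0 a1 a3 ⊢
  rw [one_mul] at a1
  have hL0 : 0 < L := by linarith
  have hL1 : 1 ≤ L := by linarith
  have hss : √(X : ℝ) * √(X : ℝ) = X := Real.mul_self_sqrt hX0.le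
  have hs0 : 0 < √(X : ℝ) := Real.sqrt_pos.2 hX0
  obtain ⟨r, hr⟩ : ∃ r : ℕ → ℝ, r = fun m => lam1 m - m := ⟨_, rfl⟩
  -- the logarithms
  have hlogs : ∑ n ∈ Icc 1 X, Real.log (n : ℝ) = Real.log (X.factorial : ℝ) := by
    clear * -
    induction X with
    | zero => simp
    | succ n ih =>
      rw [sum_Icc_succ_top (by omega), ih, Nat.factorial_succ]
      push_cast
      rw [Real.log_mul (by positivity) (by exact_mod_cast Nat.factorial_ne_zero n)]
      ring
  have k1 := abel_log (fun n => ArithmeticFunction.vonMangoldt n) X hX1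
  have k2 := abel_log (fun _ => 1) X hX1
  simp only [one_mul] at k2
  rw [hlogs] at k2
  have hcard : ∀ m : ℕ, ∑ _n ∈ Icc 1 m, (1 : ℝ) = m := by
    intro m
    rw [sum_const, Nat.card_Icc, nsmul_eq_mul, mul_one, Nat.add_sub_cancel]
  simp only [hcard] at k2
  have hdiff : ∑ n ∈ Icc 1 X, ArithmeticFunction.vonMangoldt n * Real.log n - Real.log (X.factorial : ℝ) =
      r X * L - ∑ m ∈ Ico 1 X, r m * (Real.log ((m : ℝ) + 1) - Real.log m) := by
    rw [k1, k2, hr]
    simp only [lam1]
    have e1 : ∑ m ∈ Ico 1 X, ((∑ n ∈ Icc 1 m, ArithmeticFunction.vonMangoldt n) - (m : ℝ)) * (Real.log ((m : ℝ) + 1) - Real.log m) =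
        ∑ m ∈ Ico 1 X, (∑ n ∈ Icc 1 m, ArithmeticFunction.vonMangoldt n) * (Real.log ((m : ℝ) + 1) - Real.log m) -
        ∑ m ∈ Ico 1 X, (m : ℝ) * (Real.log ((m : ℝ) + 1) - Real.log m) := by
      rw [← sum_sub_distrib]
      apply sum_congr rfl
      intro m _
      ring
    rw [e1, hL]
    ring
  -- the error at `X`
  have hXL : 2 * L ≤ X / L ^ U := by
    rw [le_div_iff₀ (by positivity)]
    calc 2 * L * L ^ U ≤ L ^ 2 * (L * L ^ U) := by
          have : (2 : ℝ) ≤ L ^ 2 := by nlinarith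
          have h5 : 0 ≤ L * L ^ U := by positivity
          nlinarith
      _ = L ^ (U + 3) := by ring
      _ ≤ √X := a1
      _ ≤ X := by
        have hs1 : 1 ≤ √(X : ℝ) := by rw [Real.one_le_sqrt]; exact hX1r
        nlinarith
  have hrX : |r X * L| ≤ C * (X / L ^ U) + X / L ^ U := by
    rw [abs_mul, abs_of_pos hL0, hr]
    calc |lam1 X - (X : ℝ)| * L ≤ (C * (X / L ^ (U + 1)) + 2) * L := mul_le_mul_of_nonneg_right a0 hL0.le
      _ = C * (X / L ^ U) + 2 * L := by rw [pow_succ]; field_simp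
      _ ≤ _ := by linarith
  -- the small `m`
  have hr0 : ∀ m : ℕ, 1 ≤ m → m ≤ X → |r m| ≤ m * (2 * L) := by
    intro m hm hmX
    have hm0 : (0 : ℝ) < m := by exact_mod_cast hm
    have h4 : lam1 m ≤ m * L := by
      unfold lam1
      calc ∑ n ∈ Icc 1 m, ArithmeticFunction.vonMangoldt n ≤ ∑ _n ∈ Icc 1 m, L := by
            apply sum_le_sum
            intro n hn
            rw [mem_Icc] at hn
            refine ArithmeticFunction.vonMangoldt_le_log.trans ?_
            rw [hL]
            exact Real.log_le_log (by exact_mod_cast hn.1) (by exact_mod_cast hn.2.trans hmX)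
        _ = m * L := by rw [sum_const, Nat.card_Icc, nsmul_eq_mul, Nat.add_sub_cancel]
    have h5 : 0 ≤ lam1 m := sum_nonneg fun _ _ => ArithmeticFunction.vonMangoldt_nonneg
    rw [hr]
    simp only
    rw [abs_le]
    have h6 : (m : ℝ) ≤ m * L := le_mul_of_one_le_right hm0.le hL1
    constructor <;> nlinarith
  have hterm : ∀ m ∈ Ico 1 X, |r m * (Real.log ((m : ℝ) + 1) - Real.log m)| ≤
      (if m < Nat.sqrt X then 2 * L else 0) + (C * 4 ^ (U + 1) / L ^ (U + 1) + 2 / (m : ℝ)) := by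
    intro m hm
    rw [mem_Ico] at hm
    have hm0 : (0 : ℝ) < m := by exact_mod_cast hm.1
    obtain ⟨l1, l2⟩ := log_step m hm.1
    rw [abs_mul, abs_of_nonneg l1]
    split_ifs with hms
    · have h4 : |r m| * (Real.log ((m : ℝ) + 1) - Real.log m) ≤ m * (2 * L) * (1 / m) :=
        mul_le_mul (hr0 m hm.1 hm.2.le) l2 l1 (by positivity)
      have h5 : (m : ℝ) * (2 * L) * (1 / m) = 2 * L := by field_simp
      have h6 : 0 ≤ C * 4 ^ (U + 1) / L ^ (U + 1) + 2 / (m : ℝ) := by positivity
      linarith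
    · push Not at hms
      have h4 : n0 ≤ m := by
        refine le_trans ?_ hms
        exact Nat.le_sqrt.2 (by omega)
      have h5 := h0 m h4
      have h6 : X < (m + 1) * (m + 1) := by
        have := Nat.lt_succ_sqrt X
        have h7 : X < (Nat.sqrt X + 1) * (Nat.sqrt X + 1) := this
        exact lt_of_lt_of_le h7 (Nat.mul_le_mul (by omega) (by omega))
      have h7 : L ≤ 2 * Real.log ((m : ℝ) + 1) := by
        rw [hL]
        have h8 : (X : ℝ) ≤ ((m : ℝ) + 1) ^ 2 := by
          have : (X : ℝ) < ((m + 1) * (m + 1) : ℕ) := by exact_mod_cast h6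
          push_cast at this
          nlinarith
        have := Real.log_le_log hX0 h8
        rw [Real.log_pow] at this
        push_cast at this
        exact this
      have h9 : Real.log ((m : ℝ) + 1) ≤ Real.log m + 1 := by
        have : 1 / (m : ℝ) ≤ 1 := by
          rw [div_le_one hm0]
          exact_mod_cast hm.1
        linarith
      have h10 : L / 4 ≤ Real.log m := by linarith
      have hlm : 0 < Real.log m := by linarith
      rw [hr]
      simp only
      have h11 : |lam1 m - (m : ℝ)| * (Real.log ((m : ℝ) + 1) - Real.log m) ≤ (C * (m / Real.log m ^ (U + 1)) + 2) * (1 / m) :=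
        mul_le_mul h5 l2 l1 (by positivity)
      have h12 : (C * (m / Real.log m ^ (U + 1)) + 2) * (1 / m) = C / Real.log m ^ (U + 1) + 2 / (m : ℝ) := by field_simp
      rw [h12] at h11
      have h13 : C / Real.log m ^ (U + 1) ≤ C * 4 ^ (U + 1) / L ^ (U + 1) := by
        rw [div_le_div_iff₀ (by positivity) (by positivity), mul_assoc]
        apply mul_le_mul_of_nonneg_left _ hC.le
        rw [← mul_pow]
        exact pow_le_pow_left₀ hL0.le (by linarith) _
      linarith
  have hsum : |∑ m ∈ Ico 1 X, r m * (Real.log ((m : ℝ) + 1) - Real.log m)| ≤ √X * (2 * L) + (X * (C * 4 ^ (U + 1) / L ^ (U + 1)) + 2 * (1 + L)) := by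
    refine (abs_sum_le_sum_abs _ _).trans ((sum_le_sum hterm).trans ?_)
    rw [sum_add_distrib, sum_add_distrib]
    apply add_le_add
    · rw [← sum_filter, sum_const, nsmul_eq_mul]
      apply mul_le_mul_of_nonneg_right _ (by positivity)
      have h4 : ((Ico 1 X).filter (fun m => m < Nat.sqrt X)) ⊆ range (Nat.sqrt X) := by
        intro m hm
        rw [mem_filter] at hm
        exact mem_range.2 hm.2
      have h5 := card_le_card h4
      rw [card_range] at h5
      have h6 : ((Nat.sqrt X : ℕ) : ℝ) ≤ √X := Real.nat_sqrt_le_real_sqrt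
      exact (Nat.cast_le.2 h5).trans h6
    · apply add_le_add
      · rw [sum_const, Nat.card_Ico, nsmul_eq_mul]
        apply mul_le_mul_of_nonneg_right _ (by positivity)
        exact_mod_cast Nat.sub_le _ _
      · have h4 : ∑ m ∈ Ico 1 X, 2 / (m : ℝ) ≤ 2 * ∑ m ∈ Icc 1 X, 1 / (m : ℝ) := by
          rw [mul_sum]
          calc ∑ m ∈ Ico 1 X, 2 / (m : ℝ) ≤ ∑ m ∈ Icc 1 X, 2 / (m : ℝ) := by
                apply sum_le_sum_of_subset_of_nonneg
                · intro m hm
                  rw [mem_Ico] at hm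
                  rw [mem_Icc]
                  omega
                · intro m _ _
                  positivity
            _ = _ := by
                apply sum_congr rfl
                intro m _
                ring
        have h5 := harmonic_le_one_add_log X
        rw [harmonic_eq_sum_Icc] at h5
        push_cast at h5
        have h6 : ∑ m ∈ Icc 1 X, 1 / (m : ℝ) = ∑ m ∈ Icc 1 X, ((m : ℝ))⁻¹ := sum_congr rfl fun m _ => by rw [one_div]
        rw [h6] at h4
        rw [← hL] at h5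
        linarith
  have hst := stir X hX1
  rw [← hL] at hst
  have hpi : Real.log (2 * Real.pi) ≤ 6 := by
    have h4 := Real.log_le_sub_one_of_pos (by positivity : 0 < 2 * Real.pi)
    have h5 := Real.pi_lt_d2
    linarith
  have hpi0 : 0 ≤ Real.log (2 * Real.pi) := Real.log_nonneg (by linarith [Real.pi_gt_three])
  have h2X : 2 / (X : ℝ) ≤ 2 := by
    rw [div_le_iff₀ hX0]
    linarith
  obtain ⟨W, hW⟩ : ∃ W, W = (X : ℝ) / L ^ U := ⟨_, rfl⟩
  rw [← hW] at hXL hrX ⊢
  have hs2 : √X * (2 * L) ≤ W := by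
    rw [hW, le_div_iff₀ (by positivity)]
    calc √X * (2 * L) * L ^ U ≤ √X * (L ^ (U + 3)) := by
          have : (2 : ℝ) ≤ L ^ 2 := by nlinarith
          have h5 : 0 ≤ L * L ^ U := by positivity
          have h6 : 2 * L * L ^ U ≤ L ^ (U + 3) := by
            calc 2 * L * L ^ U = 2 * (L * L ^ U) := by ring
              _ ≤ L ^ 2 * (L * L ^ U) := mul_le_mul_of_nonneg_right this h5
              _ = _ := by ring
          rw [mul_assoc]
          exact mul_le_mul_of_nonneg_left h6 hs0.le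
      _ ≤ √X * √X := mul_le_mul_of_nonneg_left a1 hs0.le
      _ = X := hss
  have hC4 : X * (C * 4 ^ (U + 1) / L ^ (U + 1)) ≤ C * 4 ^ (U + 1) * W := by
    have e : X * (C * 4 ^ (U + 1) / L ^ (U + 1)) = C * 4 ^ (U + 1) * W * (1 / L) := by rw [hW, pow_succ L U]; field_simp
    rw [e]
    apply mul_le_of_le_one_right (by rw [hW]; positivity)
    rw [div_le_one hL0]
    exact hL1
  have hfin : ∑ n ∈ Icc 1 X, ArithmeticFunction.vonMangoldt n * Real.log n - (X * L - X) =
      (r X * L - ∑ m ∈ Ico 1 X, r m * (Real.log ((m : ℝ) + 1) - Real.log m)) + (Real.log (X.factorial : ℝ) - (X * L - X)) := by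
    rw [← hdiff]
    ring
  rw [hfin]
  have e5 : (C + C * 4 ^ (U + 1) + 20) * W = C * W + C * 4 ^ (U + 1) * W + 20 * W := by ring
  rw [e5]
  have hW0 : 0 ≤ W := by linarith
  rw [abs_le] at hrX hsum hst ⊢
  constructor <;> linarith [hrX.1, hrX.2, hsum.1, hsum.2, hst.1, hst.2]

/-- **the diagonal** -/
theorem diag2 (U : ℕ) : ∃ C : ℝ, 0 < C ∧ ∃ X₀ : ℕ, ∀ X : ℕ, X₀ ≤ X → ∀ Q : ℕ, 1 ≤ Q → Q ≤ X →
    |∑ n ∈ Icc 1 X, vq Q n ^ 2 - (X * Real.log X - X)| ≤ C * (X / Real.log X ^ U) := by
  obtain ⟨C, hC, n0, h0⟩ := lam_log U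
  obtain ⟨C', hC', hvd⟩ := Pool.Agent.W110.HV.vdiff
  obtain ⟨n1, h1⟩ := ev_log' (U + 3) 1
  obtain ⟨n3, h3⟩ := ev_L' 2
  refine ⟨C + C' + 1, by positivity, n0 + n1 + n3 + 1, fun X hX Q hQ hQX => ?_⟩
  have hX1 : 1 ≤ X := by omega
  have hX0 : (0 : ℝ) < X := by exact_mod_cast hX1
  have hX1r : (1 : ℝ) ≤ X := by exact_mod_cast hX1
  have a0 := h0 X (by omega)
  have a1 := h1 X (by omega)
  have a3 := h3 X (by omega)
  obtain ⟨L, hL⟩ : ∃ L, L = Real.log (X : ℝ) := ⟨_, rfl⟩
  rw [← hL] at a0 a1 a3 ⊢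
  rw [one_mul] at a1
  have hL0 : 0 < L := by linarith
  have hL1 : 1 ≤ L := by linarith
  have hss : √(X : ℝ) * √(X : ℝ) = X := Real.mul_self_sqrt hX0.le
  have hs0 : 0 < √(X : ℝ) := Real.sqrt_pos.2 hX0
  have hs1 : 1 ≤ √(X : ℝ) := by rw [Real.one_le_sqrt]; exact hX1r
  have hd1 := hvd X
  have hd2 := not_cop Q X hQ hX1
  rw [← hL] at hd2
  have hω : (Q.primeFactors.card : ℝ) ≤ 2 * L := by
    refine (card_pf Q hQ).trans ?_
    rw [hL]
    have : Real.log (Q : ℝ) ≤ Real.log X := Real.log_le_log (by exact_mod_cast hQ) (by exact_mod_cast hQX)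
    linarith
  have hd3 : ∑ n ∈ Icc 1 X, (ArithmeticFunction.vonMangoldt n - vq Q n) ≤ 2 * L * L := hd2.trans (mul_le_mul_of_nonneg_right hω hL0.le)
  have hdiff : |∑ n ∈ Icc 1 X, vq Q n ^ 2 - ∑ n ∈ Icc 1 X, ArithmeticFunction.vonMangoldt n * Real.log n| ≤ L * (C' * √X + 2 * L * L) := by
    rw [← sum_sub_distrib]
    refine (abs_sum_le_sum_abs _ _).trans ?_
    have e1 : ∀ n ∈ Icc 1 X, |vq Q n ^ 2 - ArithmeticFunction.vonMangoldt n * Real.log n| ≤
        L * ((ArithmeticFunction.vonMangoldt n - Pool.Agent.W110.HV.uR X n) + (ArithmeticFunction.vonMangoldt n - vq Q n)) := by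
      intro n hn
      rw [mem_Icc] at hn
      have g1 := Pool.Agent.W110.HV.uR_le X n
      have g2 := Pool.Agent.W110.HV.uR_nonneg X n
      have g3 := vq_le Q n
      have g4 := vq_nonneg Q n
      have g6 : ArithmeticFunction.vonMangoldt n ≤ Real.log n := ArithmeticFunction.vonMangoldt_le_log
      have g7 : Real.log n ≤ L := by
        rw [hL]
        exact Real.log_le_log (by exact_mod_cast hn.1) (by exact_mod_cast hn.2)
      have g8 : 0 ≤ ArithmeticFunction.vonMangoldt n := ArithmeticFunction.vonMangoldt_nonneg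
      by_cases hp : n.Prime ∧ X < n ^ 2
      · have h4 : Pool.Agent.W110.HV.uR X n = Real.log n := by
          unfold Pool.Agent.W110.HV.uR
          rw [if_pos hp]
        have h5 : ArithmeticFunction.vonMangoldt n = Real.log n := ArithmeticFunction.vonMangoldt_apply_prime hp.1
        rw [h4, h5, sub_self, zero_add]
        rw [h5] at g3
        have h6 : vq Q n ^ 2 - Real.log n * Real.log n = -((Real.log n - vq Q n) * (Real.log n + vq Q n)) := by ring
        have h7 : vq Q n = 0 ∨ vq Q n = Real.log n := by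
          unfold Pool.Agent.TH894.PV.vq
          split_ifs
          · exact Or.inr h5
          · exact Or.inl rfl
        rcases h7 with h7 | h7
        · rw [h7, sub_zero, zero_pow (by norm_num), zero_sub, abs_neg, abs_of_nonneg (by positivity)]
          exact mul_le_mul_of_nonneg_right g7 (by linarith)
        · rw [h7, sub_self, mul_zero, pow_two, sub_self, abs_zero]
      · have h4 : Pool.Agent.W110.HV.uR X n = 0 := by
          unfold Pool.Agent.W110.HV.uR
          rw [if_neg hp]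
        rw [h4, sub_zero]
        have h5 : vq Q n ^ 2 ≤ ArithmeticFunction.vonMangoldt n * L := by
          rw [pow_two]
          exact mul_le_mul g3 (g3.trans (g6.trans g7)) g4 g8
        have h6 : ArithmeticFunction.vonMangoldt n * Real.log n ≤ ArithmeticFunction.vonMangoldt n * L := mul_le_mul_of_nonneg_left g7 g8
        have h7 : 0 ≤ ArithmeticFunction.vonMangoldt n * Real.log n := mul_nonneg g8 (g8.trans g6)
        have h8 : 0 ≤ L * (ArithmeticFunction.vonMangoldt n - vq Q n) := mul_nonneg hL0.le (by linarith)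
        have h9 : 0 ≤ vq Q n ^ 2 := sq_nonneg _
        rw [abs_le]
        constructor <;> linarith
    refine (sum_le_sum e1).trans ?_
    rw [← mul_sum, sum_add_distrib]
    apply mul_le_mul_of_nonneg_left _ (by positivity)
    linarith
  obtain ⟨W, hW⟩ : ∃ W, W = (X : ℝ) / L ^ U := ⟨_, rfl⟩
  rw [← hW] at a0 ⊢
  have hs2 : √X * L ≤ W := by
    rw [hW, le_div_iff₀ (by positivity)]
    calc √X * L * L ^ U = √X * (L ^ (U + 1)) := by ring
      _ ≤ √X * √X := mul_le_mul_of_nonneg_left ((pow_le_pow_right₀ hL1 (by omega)).trans a1) hs0.le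
      _ = X := hss
  have hs3 : 2 * L * L * L ≤ W := by
    rw [hW, le_div_iff₀ (by positivity)]
    calc 2 * L * L * L * L ^ U = 2 * L ^ (U + 3) := by ring
      _ ≤ 2 * √X := by linarith
      _ ≤ L * √X := mul_le_mul_of_nonneg_right a3 hs0.le
      _ ≤ √X * √X := by
          apply mul_le_mul_of_nonneg_right _ hs0.le
          exact (le_self_pow₀ hL1 (by omega)).trans a1
      _ = X := hss
  have hfin : L * (C' * √X + 2 * L * L) ≤ C' * W + W := by
    have e1 : L * (C' * √X + 2 * L * L) = C' * (√X * L) + 2 * L * L * L := by ring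
    rw [e1]
    have := mul_le_mul_of_nonneg_left hs2 hC'.le
    linarith
  have e3 : ∑ n ∈ Icc 1 X, vq Q n ^ 2 - (X * L - X) = (∑ n ∈ Icc 1 X, vq Q n ^ 2 - ∑ n ∈ Icc 1 X, ArithmeticFunction.vonMangoldt n * Real.log n) +
      (∑ n ∈ Icc 1 X, ArithmeticFunction.vonMangoldt n * Real.log n - (X * L - X)) := by ring
  rw [e3]
  refine (abs_add_le _ _).trans ?_
  have e4 : (C + C' + 1) * W = C * W + (C' * W + W) := by ring
  rw [e4]
  linarith

end Pool.Agent.Run7.h27.FG
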