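import Pool.Agent.Run7.h27.FG.Cst
import Pool.Agent.Run7.h27.FG.Diag
import Pool.Agent.TH894.PV6

set_option autoImplicit false

/-!
The variance of the primes in the residue classes of one modulus with its second main term: the deterministic part.
-/

namespace Pool.Agent.Run7.h27.FG

open Finset Filter Topology
open Pool.Agent.H373R2.T7
open Pool.Agent.TH894.PA (cz)
open Pool.Agent.TH894.PV

/-- **the deterministic part** -/
theorem det_var2 (κ A : ℕ) : ∃ K : ℝ, 0 < K ∧ ∀ E : ℕ, ∃ Y₀ : ℕ, ∀ Y : ℕ, Y₀ ≤ Y → ∀ z : ℕ,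
    Real.log Y ^ (κ + A + 3) ≤ z → (z : ℝ) ≤ Real.log Y ^ E → ∀ Q : ℕ, Q ≤ Y → (Y : ℝ) ≤ Q * Real.log Y ^ κ →
    ∀ x : ℝ, (Q : ℝ) ≤ x → x ≤ Q * Real.log Y ^ κ →
    (∀ h : ℕ, 1 ≤ h → (h : ℝ) ≤ Real.log Y ^ κ → ∀ N₁ : ℕ, (N₁ : ℝ) ≤ Y * Real.log Y ^ κ → |cz z N₁ (h * Q)| ≤ Y / Real.log Y ^ (2 * κ + A)) →
    |G x Q - (x * Real.log Q - CC Q * x)| ≤ K * (x * (lamQ Q * (Q / x) ^ (1 / 3 : ℝ) + 1 / Real.log Y ^ A)) := by
  obtain ⟨Cs, hCs, hss3⟩ := ss_main
  obtain ⟨C1, hC1, n2, h2⟩ := diag2 A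
  obtain ⟨C, hC, n3, h3⟩ := first (κ + A + 1)
  refine ⟨2 * Cs + (C1 * 2 ^ A + 6 * C * 2 ^ (κ + A + 1) + 30), by positivity, fun E => ?_⟩
  obtain ⟨n1, h1⟩ := main_one E (3 * κ + A)
  obtain ⟨n5, h5⟩ := ev_log' (κ + A + 4) 40
  obtain ⟨n7, h7⟩ := ev_L' 16
  obtain ⟨n8, h8⟩ := Vz_inv_small E
  refine ⟨n1 + n2 * n2 + n3 * n3 + n5 + n7 + n8 + 16, fun Y hY z hz1 hz2 Q hQY hYQ x hQx hxQ hcor => ?_⟩
  have a5 := h5 Y (by omega)
  have a7 := h7 Y (by omega)
  obtain ⟨L, hL⟩ : ∃ L, L = Real.log (Y : ℝ) := ⟨_, rfl⟩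
  rw [← hL] at a5 a7 hz1 hz2 hYQ hxQ hcor ⊢
  have hL1 : 1 ≤ L := by linarith
  have hL0 : 0 < L := by linarith
  have hYn : 0 < Y := by omega
  have hY0 : (0 : ℝ) < Y := by exact_mod_cast hYn
  have hz : 1 ≤ z := by
    have : (1 : ℝ) ≤ z := (one_le_pow₀ hL1).trans hz1
    exact_mod_cast this
  have hz2' : 2 ≤ z := by
    have : (2 : ℝ) ≤ z := by
      refine le_trans ?_ hz1
      have : L ^ 1 ≤ L ^ (κ + A + 3) := pow_le_pow_right₀ hL1 (by omega)
      rw [pow_one] at this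
      linarith
    exact_mod_cast this
  have hz0 : (0 : ℝ) < z := by exact_mod_cast hz
  have a8 := h8 Y (by omega) z hz (by rw [← hL]; exact hz2)
  rw [← hL] at a8
  have hLκ : 0 < L ^ κ := by positivity
  have hLκ1 : 1 ≤ L ^ κ := one_le_pow₀ hL1
  have hLA : 0 < L ^ A := by positivity
  have hLA1 : 1 ≤ L ^ A := one_le_pow₀ hL1
  have hss : √(Y : ℝ) * √(Y : ℝ) = Y := Real.mul_self_sqrt hY0.le
  have hs0 : 0 < √(Y : ℝ) := Real.sqrt_pos.2 hY0
  -- sizes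
  have hQ0 : (0 : ℝ) < Q := by
    by_contra hcon
    push Not at hcon
    have : (Q : ℝ) * L ^ κ ≤ 0 := mul_nonpos_of_nonpos_of_nonneg hcon hLκ.le
    linarith
  have hQ : 1 ≤ Q := by exact_mod_cast hQ0
  have hLκs : L ^ κ ≤ √Y := by
    refine (pow_le_pow_right₀ hL1 (by omega : κ ≤ κ + A + 4)).trans ?_
    have : 0 ≤ L ^ (κ + A + 4) := by positivity
    linarith
  have hQs : √(Y : ℝ) ≤ Q := by
    have e1 : √(Y : ℝ) * L ^ κ ≤ Q * L ^ κ := by
      calc √(Y : ℝ) * L ^ κ ≤ √Y * √Y := mul_le_mul_of_nonneg_left hLκs hs0.le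
        _ = Y := hss
        _ ≤ _ := hYQ
    exact le_of_mul_le_mul_right e1 hLκ
  obtain ⟨l, hl⟩ : ∃ l, l = Real.log (Q : ℝ) := ⟨_, rfl⟩
  have hl1 : L / 2 ≤ l := by
    have e1 := Real.log_le_log hs0 hQs
    rw [Real.log_sqrt hY0.le, ← hL, ← hl] at e1
    exact e1
  have hl2 : l ≤ L := by
    rw [hl, hL]
    exact Real.log_le_log hQ0 (by exact_mod_cast hQY)
  have hl0 : 0 < l := by linarith
  have hx0 : 0 < x := by linarith
  have hx1 : (1 : ℝ) ≤ x := le_trans (by exact_mod_cast hQ) hQx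
  obtain ⟨X, hX⟩ : ∃ X, X = ⌊x⌋₊ := ⟨_, rfl⟩
  have hXx : (X : ℝ) ≤ x := by rw [hX]; exact Nat.floor_le hx0.le
  have hxX : x < X + 1 := by rw [hX]; exact Nat.lt_floor_add_one x
  have hQX : Q ≤ X := by rw [hX]; exact Nat.le_floor hQx
  have hX1 : 1 ≤ X := by omega
  have hX0 : (0 : ℝ) < X := by exact_mod_cast hX1
  have hQXr : (Q : ℝ) ≤ X := by exact_mod_cast hQX
  have hXn : ∀ n : ℕ, n * n ≤ Y → n ≤ X := by
    intro n hn
    have e1 : (n : ℝ) ≤ √Y := by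
      apply Real.le_sqrt_of_sq_le
      rw [pow_two]
      exact_mod_cast hn
    have e2 : (n : ℝ) ≤ X := e1.trans (hQs.trans hQXr)
    exact_mod_cast e2
  have hlx : Real.log x ≤ 2 * L := by
    have e1 : Real.log x ≤ Real.log (Q * L ^ κ) := Real.log_le_log hx0 hxQ
    rw [Real.log_mul hQ0.ne' hLκ.ne', ← hl] at e1
    have e2 := Real.log_le_log hLκ hLκs
    rw [Real.log_sqrt hY0.le, ← hL] at e2
    linarith
  have hlX : Real.log X ≤ Real.log x := Real.log_le_log hX0 hXx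
  have hlX2 : Real.log X ≤ 2 * L := hlX.trans hlx
  have hlX3 : l ≤ Real.log X := by rw [hl]; exact Real.log_le_log hQ0 hQXr
  have hω : (Q.primeFactors.card : ℝ) ≤ 2 * L := (card_pf Q hQ).trans (by rw [← hl]; linarith)
  have hxY : x ≤ Y * L ^ κ := hxQ.trans (mul_le_mul_of_nonneg_right (by exact_mod_cast hQY) hLκ.le)
  have hxq : x / Q ≤ L ^ κ := by rw [div_le_iff₀ hQ0, mul_comm]; exact hxQ
  -- Euler's function
  have hφ : (0 : ℝ) < (Nat.totient Q : ℝ) := by exact_mod_cast Nat.totient_pos.2 hQ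
  have hLz : L ^ κ * L ^ A * L ^ 3 ≤ z := by rw [← pow_add, ← pow_add]; exact hz1
  have hωz : (Q.primeFactors.card : ℝ) ≤ z := by
    have e1 : L ^ 2 ≤ L ^ κ * L ^ A * L ^ 3 := by
      rw [← pow_add, ← pow_add]
      exact pow_le_pow_right₀ hL1 (by omega)
    have e2 : 2 * L ≤ L ^ 2 := by
      rw [pow_two]
      exact mul_le_mul_of_nonneg_right (by linarith) hL0.le
    linarith
  obtain ⟨t1, t2⟩ := totient_fac z Q hz hQ hωz
  obtain ⟨c, hc⟩ : ∃ c, c = CQ z Q := ⟨_, rfl⟩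
  rw [← hc] at t1 t2
  have hc1 : 1 ≤ c := by rw [hc]; exact CQ_one z Q
  have hcV : c ≤ (Vz z)⁻¹ := by rw [hc]; exact CQ_le z Q
  have hcL : c ≤ L := hcV.trans a8
  have hQφ3 : (Q : ℝ) / (Nat.totient Q : ℝ) ≤ 3 * L := by
    have e1 : (Q.primeFactors.card : ℝ) / z ≤ 1 := by rw [div_le_one hz0]; exact hωz
    have e2 : c * (1 + 2 * (Q.primeFactors.card / z)) ≤ c * 3 := mul_le_mul_of_nonneg_left (by linarith) (by linarith)
    linarith
  obtain ⟨T, hT⟩ : ∃ T, T = x / L ^ A := ⟨_, rfl⟩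
  have hT0 : 0 < T := by rw [hT]; positivity
  have hbig : 40 * L ^ (κ + 4) ≤ T := by
    rw [hT, le_div_iff₀ hLA]
    calc 40 * L ^ (κ + 4) * L ^ A = 40 * L ^ (κ + A + 4) := by rw [mul_assoc, ← pow_add]; congr 2; omega
      _ ≤ √Y := a5
      _ ≤ x := hQs.trans hQx
  have hbig1 : ∀ j : ℕ, j ≤ κ + 4 → L ^ j ≤ T / 40 := by
    intro j hj
    have := pow_le_pow_right₀ hL1 hj
    linarith
  -- the four parts
  have E1 : |∑ n ∈ Icc 1 X, vq Q n ^ 2 - (x * Real.log x - x)| ≤ (C1 * 2 ^ A + 1) * T := by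
    have e1 := h2 X (hXn n2 (by omega)) Q hQ hQX
    have e2 : C1 * (X / Real.log X ^ A) ≤ C1 * 2 ^ A * T := by
      rw [mul_assoc]
      apply mul_le_mul_of_nonneg_left _ hC1.le
      have e5 : (L / 2) ^ A ≤ Real.log X ^ A := pow_le_pow_left₀ (by positivity) (hl1.trans hlX3) _
      calc (X : ℝ) / Real.log X ^ A ≤ x / (L / 2) ^ A := div_le_div₀ hx0.le hXx (by positivity) e5
        _ = 2 ^ A * T := by rw [div_pow, hT]; field_simp
    have e3 : |(X * Real.log X - X) - (x * Real.log x - x)| ≤ 4 * L := by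
      have f1 : Real.log (x / X) ≤ x / X - 1 := Real.log_le_sub_one_of_pos (by positivity)
      rw [Real.log_div hx0.ne' hX0.ne'] at f1
      have f2 : X * (Real.log x - Real.log X) ≤ x - X := by
        have := mul_le_mul_of_nonneg_left f1 hX0.le
        have f3 : X * (x / X - 1) = x - X := by field_simp
        linarith
      have f4 : 0 ≤ X * (Real.log x - Real.log X) := mul_nonneg hX0.le (by linarith)
      have f5 : 0 ≤ (x - X) * Real.log x := mul_nonneg (by linarith) (Real.log_nonneg hx1)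
      have f6 : (x - X) * Real.log x ≤ 1 * (2 * L) := mul_le_mul (by linarith) hlx (Real.log_nonneg hx1) zero_le_one
      have f7 : (X * Real.log X - X) - (x * Real.log x - x) = -(X * (Real.log x - Real.log X)) - (x - X) * Real.log x + (x - X) := by ring
      rw [f7, abs_le]
      constructor <;> linarith
    have e4 : 4 * L ≤ T := by
      have := hbig1 1 (by omega)
      rw [pow_one] at this
      linarith
    have e6 : (C1 * 2 ^ A + 1) * T = C1 * 2 ^ A * T + T := by ring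
    rw [e6]
    have e7 : ∑ n ∈ Icc 1 X, vq Q n ^ 2 - (x * Real.log x - x) = (∑ n ∈ Icc 1 X, vq Q n ^ 2 - (X * Real.log X - X)) +
        ((X * Real.log X - X) - (x * Real.log x - x)) := by ring
    rw [e7]
    exact (abs_add_le _ _).trans (add_le_add (e1.trans e2) (e3.trans e4))
  have E2 : |∑ h ∈ Icc 1 (X / Q), ∑ n ∈ Icc 1 (X - h * Q), vq Q n * vq Q (n + h * Q) -
      ∑ h ∈ Icc 1 (X / Q), (x - ((h * Q : ℕ) : ℝ)) * (c * fs ((pz z).filter (fun p => ¬ p ∣ Q)) h)| ≤ 4 * T := by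
    rw [← sum_sub_distrib]
    refine (abs_sum_le_sum_abs _ _).trans ?_
    have g0 : ∀ h ∈ Icc 1 (X / Q), |∑ n ∈ Icc 1 (X - h * Q), vq Q n * vq Q (n + h * Q) -
        (x - ((h * Q : ℕ) : ℝ)) * (c * fs ((pz z).filter (fun p => ¬ p ∣ Q)) h)| ≤ 8 * L ^ 3 + L + 3 * (Y / L ^ (2 * κ + A)) := by
      intro h hh
      rw [mem_Icc] at hh
      have hhQ : h * Q ≤ X := by rw [← Nat.le_div_iff_mul_le hQ]; exact hh.2
      have hhL : (h : ℝ) ≤ L ^ κ := by
        have g1 : (h : ℝ) * Q ≤ X := by exact_mod_cast hhQ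
        rw [← div_le_div_iff_of_pos_right hQ0] at g1
        rw [mul_div_cancel_right₀ _ hQ0.ne'] at g1
        exact g1.trans ((div_le_div_of_nonneg_right hXx hQ0.le).trans hxq)
      have hN1 : ((X - h * Q : ℕ) : ℝ) ≤ Y * L ^ κ := by
        have : ((X - h * Q : ℕ) : ℝ) ≤ X := by exact_mod_cast Nat.sub_le _ _
        linarith
      obtain ⟨F, hF⟩ : ∃ F, F = c * fs ((pz z).filter (fun p => ¬ p ∣ Q)) h := ⟨_, rfl⟩
      have hF0 : 0 ≤ F := by
        rw [hF]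
        exact mul_nonneg (by linarith) (fs_nonneg _ (fun p hp => (mem_pz.1 (mem_filter.1 hp).1).2) h)
      have hF1 : F ≤ L := by rw [hF, hc]; exact (fs_le z Q h).trans a8
      have g1 := h1 Y (by omega) z hz (by rw [← hL]; exact hz2) Q h (X - h * Q)
      rw [← hL, ← hc, ← hF] at g1
      have g2 : (((X - h * Q : ℕ) : ℝ) + Y) / L ^ (3 * κ + A) ≤ 2 * (Y / L ^ (2 * κ + A)) := by
        have g3 : ((X - h * Q : ℕ) : ℝ) + Y ≤ 2 * Y * L ^ κ := by
          have g31 : (Y : ℝ) ≤ Y * L ^ κ := le_mul_of_one_le_right hY0.le hLκ1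
          have g32 : 2 * (Y : ℝ) * L ^ κ = Y * L ^ κ + Y * L ^ κ := by ring
          rw [g32]
          linarith
        calc (((X - h * Q : ℕ) : ℝ) + Y) / L ^ (3 * κ + A) ≤ (2 * Y * L ^ κ) / L ^ (3 * κ + A) := div_le_div_of_nonneg_right g3 (by positivity)
          _ = 2 * (Y / L ^ (2 * κ + A)) := by
            rw [show 3 * κ + A = 2 * κ + A + κ by ring, pow_add L (2 * κ + A) κ]
            field_simp
      have g4 := off_one z Q h X F (Y / L ^ (2 * κ + A)) (2 * (Y / L ^ (2 * κ + A))) (2 * L) hQ hQX hh.1 hhQ hlX2 hω (hcor h hh.1 hhL _ hN1) (g1.trans g2)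
      have g5 : ((X - h * Q : ℕ) : ℝ) = X - ((h * Q : ℕ) : ℝ) := by rw [Nat.cast_sub hhQ]
      have g6 : ∑ n ∈ Icc 1 (X - h * Q), vq Q n * vq Q (n + h * Q) - (x - ((h * Q : ℕ) : ℝ)) * F =
          (∑ n ∈ Icc 1 (X - h * Q), vq Q n * vq Q (n + h * Q) - ((X - h * Q : ℕ) : ℝ) * F) - (x - X) * F := by
        rw [g5]; ring
      rw [← hF, g6]
      refine (abs_sub _ _).trans ?_
      have g7 : |(x - X) * F| ≤ L := by
        rw [abs_of_nonneg (mul_nonneg (by linarith) hF0)]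
        calc (x - X) * F ≤ 1 * L := mul_le_mul (by linarith) hF1 hF0 (by norm_num)
          _ = L := one_mul _
      have g8 : (2 * L) ^ 3 = 8 * L ^ 3 := by ring
      rw [g8] at g4
      linarith
    refine (sum_le_sum g0).trans ?_
    rw [sum_const, Nat.card_Icc, Nat.add_sub_cancel, nsmul_eq_mul]
    have g1 : ((X / Q : ℕ) : ℝ) ≤ L ^ κ := by
      refine Nat.cast_div_le.trans ((div_le_div_of_nonneg_right hXx hQ0.le).trans hxq)
    have g2 : 0 ≤ 8 * L ^ 3 + L + 3 * (Y / L ^ (2 * κ + A)) := by positivity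
    refine (mul_le_mul_of_nonneg_right g1 g2).trans ?_
    have g3 : L ^ κ * (Y / L ^ (2 * κ + A)) = Y / L ^ κ / L ^ A := by
      rw [two_mul, pow_add, pow_add]
      field_simp
    have g4 : Y / L ^ κ / L ^ A ≤ T := by
      rw [hT]
      apply div_le_div_of_nonneg_right _ hLA.le
      rw [div_le_iff₀ hLκ]
      exact hYQ.trans (mul_le_mul_of_nonneg_right hQx hLκ.le)
    have g5 : L ^ κ * (8 * L ^ 3 + L) ≤ T := by
      refine le_trans ?_ hbig
      have g6 : 8 * L ^ 3 + L ≤ 40 * L ^ 4 := by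
        have h61 : L ≤ L ^ 4 := le_self_pow₀ hL1 (by norm_num)
        have h62 : L ^ 3 ≤ L ^ 4 := pow_le_pow_right₀ hL1 (by norm_num)
        have h63 : 0 ≤ L ^ 4 := by positivity
        linarith
      calc L ^ κ * (8 * L ^ 3 + L) ≤ L ^ κ * (40 * L ^ 4) := mul_le_mul_of_nonneg_left g6 hLκ.le
        _ = 40 * L ^ (κ + 4) := by rw [pow_add]; ring
    have g6 : L ^ κ * (8 * L ^ 3 + L + 3 * (Y / L ^ (2 * κ + A))) = L ^ κ * (8 * L ^ 3 + L) + 3 * (L ^ κ * (Y / L ^ (2 * κ + A))) := by ring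
    rw [g6, g3]
    linarith
  obtain ⟨W, hW⟩ : ∃ W, W = x * (lamQ Q * (Q / x) ^ (1 / 3 : ℝ)) := ⟨_, rfl⟩
  have E3 : |2 * ∑ h ∈ Icc 1 (X / Q), (x - ((h * Q : ℕ) : ℝ)) * (c * fs ((pz z).filter (fun p => ¬ p ∣ Q)) h) -
      (x ^ 2 / (Nat.totient Q : ℝ) - x * (Real.log x - l + CC Q - 1))| ≤ 2 * Cs * W + 7 * T := by
    obtain ⟨y, hy⟩ : ∃ y, y = x / (Q : ℝ) := ⟨_, rfl⟩
    have hxy : x = Q * y := by rw [hy]; field_simp
    have hy0 : 0 < y := by rw [hy]; positivity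
    have hfl : X / Q = ⌊y⌋₊ := by rw [hy, Nat.floor_div_natCast, ← hX]
    have hyz : y ≤ z := by
      rw [hy]
      refine hxq.trans (le_trans ?_ hLz)
      have q1 : 1 ≤ L ^ 3 := one_le_pow₀ hL1
      calc L ^ κ = L ^ κ * 1 * 1 := by ring
        _ ≤ L ^ κ * L ^ A * L ^ 3 := by gcongr
    have g1 := hss3 z Q hz2' hQ y hy0 hyz
    rw [← hc] at g1
    have g2 : 2 * ∑ h ∈ Icc 1 (X / Q), (x - ((h * Q : ℕ) : ℝ)) * (c * fs ((pz z).filter (fun p => ¬ p ∣ Q)) h) =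
        2 * Q * ∑ j ∈ Icc 1 ⌊y⌋₊, (y - (j : ℝ)) * (c * fs ((pz z).filter (fun p => ¬ p ∣ Q)) j) := by
      rw [hfl, mul_assoc, mul_sum _ _ (Q : ℝ)]
      congr 1
      apply sum_congr rfl
      intro h _
      rw [hxy]
      push_cast
      ring
    have hlogy : Real.log y = Real.log x - l := by rw [hy, Real.log_div hx0.ne' hQ0.ne', hl]
    rw [hlogy] at g1
    obtain ⟨Sg, hSg⟩ : ∃ Sg, Sg = ∑ j ∈ Icc 1 ⌊y⌋₊, (y - (j : ℝ)) * (c * fs ((pz z).filter (fun p => ¬ p ∣ Q)) j) := ⟨_, rfl⟩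
    rw [g2, ← hSg]
    rw [← hSg] at g1
    have hpow : 2 * Q * (Cs * lamQ Q * y ^ (2 / 3 : ℝ)) = 2 * Cs * W := by
      have k1 : (Q / x) ^ (1 / 3 : ℝ) = y ^ (-(1 / 3) : ℝ) := by
        rw [hy, ← inv_div, Real.inv_rpow (by positivity), Real.rpow_neg (by positivity)]
      have k2 : y ^ (2 / 3 : ℝ) = y * y ^ (-(1 / 3) : ℝ) := by
        nth_rewrite 2 [← Real.rpow_one y]
        rw [← Real.rpow_add hy0]
        norm_num
      rw [hW, k1, k2, hxy]
      have : (Q : ℝ) * y / Q = y := by field_simp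
      ring
    have g3 : |2 * Q * Sg - 2 * Q * (aP Q (pz z) * y ^ 2 / 2 - y / 2 * (Real.log x - l + cP Q (pz z)))| ≤ 2 * Cs * W := by
      rw [← mul_sub, abs_mul, abs_of_nonneg (by positivity), ← hpow]
      exact mul_le_mul_of_nonneg_left g1 (by positivity)
    have g4 : 2 * Q * (aP Q (pz z) * y ^ 2 / 2 - y / 2 * (Real.log x - l + cP Q (pz z))) =
        aP Q (pz z) * (x ^ 2 / Q) - x * (Real.log x - l + cP Q (pz z)) := by
      rw [hy]
      field_simp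
    rw [g4] at g3
    obtain ⟨u1, u2⟩ := euler2 z hz2'
    obtain ⟨e, he⟩ : ∃ e, e = Z2 * ∏ p ∈ pz z, (1 - 1 / (p : ℝ) ^ 2) := ⟨_, rfl⟩
    have haP : aP Q (pz z) = e * c := by rw [he, hc, aP_eq]
    rw [← he] at u1 u2
    have g5 : |aP Q (pz z) * (x ^ 2 / Q) - x ^ 2 / (Nat.totient Q : ℝ)| ≤ 5 * T := by
      have g8 : aP Q (pz z) * (x ^ 2 / Q) - x ^ 2 / (Nat.totient Q : ℝ) = (x / Q) * x * (e * c - (Q : ℝ) / (Nat.totient Q : ℝ)) := by
        rw [haP]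
        field_simp
      have g9 : |e * c - (Q : ℝ) / (Nat.totient Q : ℝ)| ≤ 5 * L ^ 2 / z := by
        have r1 : e * c ≤ c + c * (1 / z) := by
          have := mul_le_mul_of_nonneg_right u2 (by linarith : 0 ≤ c)
          have r2 : (1 + 1 / (z : ℝ)) * c = c + c * (1 / z) := by ring
          linarith
        have r3 : c ≤ e * c := le_mul_of_one_le_left (by linarith) u1
        have r4 : c * (1 + 2 * (Q.primeFactors.card / z)) ≤ c + L * (2 * (2 * L / z)) := by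
          have r5 : c * (2 * ((Q.primeFactors.card : ℝ) / z)) ≤ L * (2 * (2 * L / z)) := by
            apply mul_le_mul hcL _ (mul_nonneg (by norm_num) (div_nonneg (Nat.cast_nonneg _) hz0.le)) hL0.le
            apply mul_le_mul_of_nonneg_left _ (by norm_num)
            exact div_le_div_of_nonneg_right hω hz0.le
          have r6 : c * (1 + 2 * ((Q.primeFactors.card : ℝ) / z)) = c + c * (2 * ((Q.primeFactors.card : ℝ) / z)) := by ring
          linarith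
        have r7 : c * (1 / z) ≤ L ^ 2 / z := by
          rw [mul_one_div]
          apply div_le_div_of_nonneg_right _ hz0.le
          nlinarith
        have r8 : L * (2 * (2 * L / z)) = 4 * L ^ 2 / z := by ring
        have r9 : 5 * L ^ 2 / (z : ℝ) = 4 * L ^ 2 / z + L ^ 2 / z := by ring
        have r10 : 0 ≤ L ^ 2 / (z : ℝ) := by positivity
        have r11 : 0 ≤ 4 * L ^ 2 / (z : ℝ) := by positivity
        rw [r9]
        rw [r8] at r4
        rw [abs_le]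
        constructor <;> linarith
      rw [g8, abs_mul, abs_of_nonneg (by positivity)]
      calc (x / Q) * x * |e * c - (Q : ℝ) / (Nat.totient Q : ℝ)| ≤ L ^ κ * x * (5 * L ^ 2 / z) := by
            apply mul_le_mul _ g9 (abs_nonneg _) (by positivity)
            exact mul_le_mul_of_nonneg_right hxq hx0.le
        _ = 5 * T * (L ^ κ * L ^ A * L ^ 2 / z) := by rw [hT]; field_simp
        _ ≤ 5 * T * 1 := by
            apply mul_le_mul_of_nonneg_left _ (by positivity)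
            rw [div_le_one hz0]
            refine le_trans ?_ hLz
            apply mul_le_mul_of_nonneg_left _ (by positivity)
            exact pow_le_pow_right₀ hL1 (by norm_num)
        _ = 5 * T := mul_one _
    have g6 : |x * (Real.log x - l + cP Q (pz z)) - x * (Real.log x - l + CC Q - 1)| ≤ 2 * T := by
      obtain ⟨v1, v2⟩ := cP_eq z Q hQ hz
      rw [← hl] at v2
      have w1 : x * (Real.log x - l + cP Q (pz z)) - x * (Real.log x - l + CC Q - 1) = x * (cP Q (pz z) - (CC Q - 1)) := by ring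
      have w2 : |cP Q (pz z) - (CC Q - 1)| ≤ 2 * L ^ 2 / z := by
        have w3 : 2 * l ^ 2 / (z : ℝ) ≤ 2 * L ^ 2 / z := by
          apply div_le_div_of_nonneg_right _ hz0.le
          have := pow_le_pow_left₀ hl0.le hl2 2
          linarith
        have w4 : 0 ≤ 2 * L ^ 2 / (z : ℝ) := by positivity
        rw [abs_le]
        constructor <;> linarith
      rw [w1, abs_mul, abs_of_pos hx0]
      calc x * |cP Q (pz z) - (CC Q - 1)| ≤ x * (2 * L ^ 2 / z) := mul_le_mul_of_nonneg_left w2 hx0.le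
        _ = 2 * T * (L ^ A * L ^ 2 / z) := by rw [hT]; field_simp
        _ ≤ 2 * T * 1 := by
            apply mul_le_mul_of_nonneg_left _ (by positivity)
            rw [div_le_one hz0]
            refine le_trans ?_ hLz
            calc L ^ A * L ^ 2 ≤ (L ^ κ * L ^ A) * L ^ 3 := by
                  apply mul_le_mul _ (pow_le_pow_right₀ hL1 (by norm_num)) (by positivity) (by positivity)
                  exact le_mul_of_one_le_left hLA.le hLκ1
              _ = _ := rfl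
        _ = 2 * T := mul_one _
    have g7 : 2 * Q * Sg - (x ^ 2 / (Nat.totient Q : ℝ) - x * (Real.log x - l + CC Q - 1)) =
        (2 * Q * Sg - (aP Q (pz z) * (x ^ 2 / Q) - x * (Real.log x - l + cP Q (pz z)))) +
        (aP Q (pz z) * (x ^ 2 / Q) - x ^ 2 / (Nat.totient Q : ℝ)) - (x * (Real.log x - l + cP Q (pz z)) - x * (Real.log x - l + CC Q - 1)) := by
      ring
    rw [g7]
    refine (abs_sub _ _).trans ((add_le_add_left (abs_add_le _ _) _).trans ?_)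
    linarith
  have E4 : |2 * (x / (Nat.totient Q : ℝ)) * (x - ∑ n ∈ Icc 1 X, vq Q n)| ≤ (6 * C * 2 ^ (κ + A + 1) + 1) * T := by
    have g1 := h3 X (hXn n3 (by omega)) Q hQ hQX
    have g2 : x / (Nat.totient Q : ℝ) ≤ L ^ κ * (3 * L) := by
      calc x / (Nat.totient Q : ℝ) = (x / Q) * ((Q : ℝ) / (Nat.totient Q : ℝ)) := by field_simp
        _ ≤ _ := mul_le_mul hxq hQφ3 (by positivity) hLκ.le
    have g3 : |x - ∑ n ∈ Icc 1 X, vq Q n| ≤ C * (x * (2 ^ (κ + A + 1) / L ^ (κ + A + 1))) + 1 := by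
      have g4 : (X : ℝ) / Real.log X ^ (κ + A + 1) ≤ x * (2 ^ (κ + A + 1) / L ^ (κ + A + 1)) := by
        have g5 : (L / 2) ^ (κ + A + 1) ≤ Real.log X ^ (κ + A + 1) := pow_le_pow_left₀ (by positivity) (hl1.trans hlX3) _
        calc (X : ℝ) / Real.log X ^ (κ + A + 1) ≤ x / (L / 2) ^ (κ + A + 1) := by
              apply div_le_div₀ hx0.le hXx (by positivity) g5
          _ = _ := by rw [div_pow]; field_simp
      have g5 := mul_le_mul_of_nonneg_left g4 hC.le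
      rw [abs_le] at g1 ⊢
      constructor <;> linarith
    rw [abs_mul, abs_of_nonneg (by positivity)]
    calc 2 * (x / (Nat.totient Q : ℝ)) * |x - ∑ n ∈ Icc 1 X, vq Q n| ≤ 2 * (L ^ κ * (3 * L)) * (C * (x * (2 ^ (κ + A + 1) / L ^ (κ + A + 1))) + 1) := by
          apply mul_le_mul _ g3 (abs_nonneg _) (by positivity)
          linarith
      _ = 6 * C * 2 ^ (κ + A + 1) * T + 6 * L ^ (κ + 1) := by
          rw [hT, show κ + A + 1 = κ + 1 + A by ring, pow_add L (κ + 1) A, pow_succ L κ]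
          field_simp
          ring
      _ ≤ 6 * C * 2 ^ (κ + A + 1) * T + T := by
          apply add_le_add le_rfl
          have := hbig1 (κ + 1) (by omega)
          linarith
      _ = _ := by ring
  -- conclusion
  rw [G_expand x Q hQ, ← hX, ← hl]
  have hid : (∑ n ∈ Icc 1 X, vq Q n ^ 2 + 2 * ∑ h ∈ Icc 1 (X / Q), ∑ n ∈ Icc 1 (X - h * Q), vq Q n * vq Q (n + h * Q)) -
      2 * (x / (Nat.totient Q : ℝ)) * (∑ n ∈ Icc 1 X, vq Q n) + x ^ 2 / (Nat.totient Q : ℝ) - (x * l - CC Q * x) =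
      (∑ n ∈ Icc 1 X, vq Q n ^ 2 - (x * Real.log x - x)) + 2 * (∑ h ∈ Icc 1 (X / Q), ∑ n ∈ Icc 1 (X - h * Q), vq Q n * vq Q (n + h * Q) -
      ∑ h ∈ Icc 1 (X / Q), (x - ((h * Q : ℕ) : ℝ)) * (c * fs ((pz z).filter (fun p => ¬ p ∣ Q)) h)) +
      (2 * ∑ h ∈ Icc 1 (X / Q), (x - ((h * Q : ℕ) : ℝ)) * (c * fs ((pz z).filter (fun p => ¬ p ∣ Q)) h) -
      (x ^ 2 / (Nat.totient Q : ℝ) - x * (Real.log x - l + CC Q - 1))) +
      2 * (x / (Nat.totient Q : ℝ)) * (x - ∑ n ∈ Icc 1 X, vq Q n) := by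
    have g1 : x ^ 2 / (Nat.totient Q : ℝ) = x / (Nat.totient Q : ℝ) * x := by ring
    rw [g1]
    ring
  rw [hid]
  obtain ⟨P1, hP1⟩ : ∃ P, P = ∑ n ∈ Icc 1 X, vq Q n ^ 2 - (x * Real.log x - x) := ⟨_, rfl⟩
  obtain ⟨P2, hP2⟩ : ∃ P, P = ∑ h ∈ Icc 1 (X / Q), ∑ n ∈ Icc 1 (X - h * Q), vq Q n * vq Q (n + h * Q) -
      ∑ h ∈ Icc 1 (X / Q), (x - ((h * Q : ℕ) : ℝ)) * (c * fs ((pz z).filter (fun p => ¬ p ∣ Q)) h) := ⟨_, rfl⟩
  obtain ⟨P3, hP3⟩ : ∃ P, P = 2 * ∑ h ∈ Icc 1 (X / Q), (x - ((h * Q : ℕ) : ℝ)) * (c * fs ((pz z).filter (fun p => ¬ p ∣ Q)) h) -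
      (x ^ 2 / (Nat.totient Q : ℝ) - x * (Real.log x - l + CC Q - 1)) := ⟨_, rfl⟩
  obtain ⟨P4, hP4⟩ : ∃ P, P = 2 * (x / (Nat.totient Q : ℝ)) * (x - ∑ n ∈ Icc 1 X, vq Q n) := ⟨_, rfl⟩
  rw [← hP1] at E1
  rw [← hP2] at E2
  rw [← hP3] at E3
  rw [← hP4] at E4
  rw [← hP1, ← hP2, ← hP3, ← hP4]
  have hlam : 0 ≤ lamQ Q := prod_nonneg fun p _ => by positivity
  have hW0 : 0 ≤ W := by rw [hW]; positivity
  have hres : (2 * Cs + (C1 * 2 ^ A + 6 * C * 2 ^ (κ + A + 1) + 30)) * (x * (lamQ Q * (Q / x) ^ (1 / 3 : ℝ) + 1 / L ^ A)) =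
      2 * Cs * W + 2 * Cs * T + (C1 * 2 ^ A + 6 * C * 2 ^ (κ + A + 1) + 30) * W + (C1 * 2 ^ A * T + 6 * C * 2 ^ (κ + A + 1) * T + 30 * T) := by
    rw [hW, hT]
    ring
  rw [hres]
  have z1 : 0 ≤ 2 * Cs * T := by positivity
  have z2 : 0 ≤ (C1 * 2 ^ A + 6 * C * 2 ^ (κ + A + 1) + 30) * W := by positivity
  have z3 : (C1 * 2 ^ A + 1) * T = C1 * 2 ^ A * T + T := by ring
  have z4 : (6 * C * 2 ^ (κ + A + 1) + 1) * T = 6 * C * 2 ^ (κ + A + 1) * T + T := by ring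
  rw [z3] at E1
  rw [z4] at E4
  rw [abs_le] at E1 E2 E3 E4 ⊢
  obtain ⟨q1, q2⟩ := E1
  obtain ⟨q3, q4⟩ := E2
  obtain ⟨q5, q6⟩ := E3
  obtain ⟨q7, q8⟩ := E4
  constructor <;> linarith

end Pool.Agent.Run7.h27.FG
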