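import Pool.Agent.Run7.h27.FG.Det
import Pool.Agent.Run7.h27.EH.Lev
import Pool.Agent.Run7.h794.MK.All

set_option autoImplicit false

/-!
The variance of the primes in the residue classes of one modulus with its second main term, for almost all members of
families of integers whose exponential sums are small off few narrow arcs.
-/

namespace Pool.Agent.Run7.h27.FG

open Finset Filter Topology
open Pool.Agent.H373R2.T7
open Pool.Agent.H807R2.Dav (ee norm_ee ee_add)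
open Pool.Agent.W93.AU (dI)
open Pool.Agent.TH212.EH (markov)
open Pool.Agent.TH894.PA (cz)
open Pool.Agent.TH894.PV
open Pool.Agent.Run7.h27.EH (Off OffR Arc Base base_arc maxi)
open Pool.Agent.Run7.h27.MK (ev_logN ev_ge)

/-- multiples of the members -/
lemma off_mul {V T κ D N H : ℕ} {ι : Type} [Fintype ι] {v : ι → ℤ} (h : Off V T D N H v) (c : ℕ)
    (hc : 1 ≤ c) (hcL : (c : ℝ) ≤ Real.log N ^ κ) : Off V (T + κ) D N H (fun i => (c : ℤ) * v i) := by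
  classical
  obtain ⟨Γ, hΓ, h⟩ := h
  have hc0 : (0 : ℝ) < c := by exact_mod_cast hc
  have hc1 : (1 : ℝ) ≤ c := by exact_mod_cast hc
  refine ⟨(Γ ×ˢ (range c)).image (fun g => (g.1 + ((g.2 : ℕ) : ℝ)) / c), ?_, fun α hα => ?_⟩
  · calc ((((Γ ×ˢ (range c)).image (fun g => (g.1 + ((g.2 : ℕ) : ℝ)) / c)).card : ℕ) : ℝ) ≤ ((Γ.card * c : ℕ) : ℝ) := by
          apply Nat.cast_le.2
          refine card_image_le.trans ?_
          rw [card_product, card_range]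
      _ = (Γ.card : ℝ) * c := by push_cast; ring
      _ ≤ Real.log N ^ T * Real.log N ^ κ := mul_le_mul hΓ hcL hc0.le (by positivity)
      _ = _ := by rw [pow_add]
  · have h1 := h (c * α) (fun γ hγ m => by
      obtain ⟨b, hb⟩ : ∃ b : ℕ, (b : ℤ) = m % c := ⟨(m % c).toNat, Int.toNat_of_nonneg (Int.emod_nonneg m (by omega))⟩
      have hbk : b < c := by
        have := Int.emod_lt_of_pos m (show (0 : ℤ) < c by omega)
        omega
      obtain ⟨j, hj⟩ : ∃ j : ℤ, m = b + c * j := ⟨m / c, by rw [hb]; exact (Int.emod_add_mul_ediv m c).symm⟩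
      have h3 := hα ((γ + (b : ℝ)) / c) (by
        rw [mem_image]
        exact ⟨(γ, b), mem_product.2 ⟨hγ, mem_range.2 hbk⟩, rfl⟩) j
      have e1 : (c : ℝ) * α - γ - m = c * (α - (γ + b) / c - j) := by
        rw [hj]
        push_cast
        field_simp
        ring
      rw [e1, abs_mul, abs_of_pos hc0]
      refine lt_of_lt_of_le h3 ?_
      exact le_mul_of_one_le_left (abs_nonneg _) hc1)
    refine le_trans (le_of_eq ?_) h1
    congr 1
    refine sum_congr rfl fun i _ => ?_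
    congr 1
    push_cast
    ring

/-- change of the scale -/
lemma off_scale {V T D N M H : ℕ} {ι : Type} [Fintype ι] {v : ι → ℤ} (hL : 1 ≤ Real.log N) (hNM : Real.log N ≤ Real.log M)
    (hM2 : Real.log M ≤ 2 * Real.log N) (h2 : (2 : ℝ) ^ V ≤ Real.log N) (h : Off (V + 1) T D N H v) : Off V T D M H v := by
  obtain ⟨Γ, hΓ, h⟩ := h
  have hL0 : 0 < Real.log (N : ℝ) := by linarith
  have hM0 : 0 < Real.log (M : ℝ) := by linarith
  refine ⟨Γ, hΓ.trans (pow_le_pow_left₀ hL0.le hNM T), fun α hα => ?_⟩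
  refine (h α fun γ hγ m => lt_of_le_of_lt ?_ (hα γ hγ m)).trans ?_
  · apply div_le_div_of_nonneg_right _ (Nat.cast_nonneg _)
    exact pow_le_pow_left₀ hL0.le hNM D
  · apply div_le_div_of_nonneg_left (Nat.cast_nonneg _) (by positivity)
    calc Real.log M ^ V ≤ (2 * Real.log N) ^ V := pow_le_pow_left₀ hM0.le hM2 V
      _ = 2 ^ V * Real.log N ^ V := by rw [mul_pow]
      _ ≤ Real.log N * Real.log N ^ V := mul_le_mul_of_nonneg_right h2 (by positivity)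
      _ = _ := by rw [pow_succ]; ring

lemma cz_S1 (z N₁ M y : ℕ) (w : ℤ) (hw : w = y) (hN : N₁ ≤ M) :
    TH212.EH.S1 (fun n => if n ≤ M then ArithmeticFunction.vonMangoldt n else 0) z N₁ w = cz z N₁ y := by
  unfold TH212.EH.S1 cz dI
  refine sum_congr rfl fun n hn => ?_
  rw [mem_Icc] at hn
  simp only
  rw [if_pos (by omega), hw]

open Classical in
/-- the correlations along all small multiples of the neighbours of almost all members of a family -/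
theorem corr_fam (B κ J U W : ℕ) : ∃ V : ℕ, ∀ S D : ℕ, ∃ C B₀ : ℕ, ∀ E : ℕ, ∃ N₀ : ℕ, ∀ N : ℕ, N₀ ≤ N → ∀ H : ℕ,
    (N : ℝ) ^ (1 / 3 : ℝ) * Real.log N ^ C ≤ H → ∀ (ι : Type) [Fintype ι] (v : ι → ℤ), (∀ i, |v i| ≤ B * N) → Off V S D N H v →
    ∀ Y : ℕ, Y = (B + 1) * N → ∀ z : ℕ, Real.log Y ^ B₀ ≤ z → (z : ℝ) ≤ Real.log Y ^ E →
    ((univ.filter (fun i : ι => ¬ ∀ k : ℕ, |(k : ℝ) - v i| ≤ Real.log N ^ W → ∀ h : ℕ, 1 ≤ h → (h : ℝ) ≤ Real.log Y ^ κ →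
      ∀ N₁ : ℕ, (N₁ : ℝ) ≤ Y * Real.log Y ^ κ → |cz z N₁ (h * k)| ≤ Y / Real.log Y ^ J)).card : ℝ) ≤
      Fintype.card ι / Real.log N ^ U := by
  obtain ⟨U', hU'⟩ : ∃ U', U' = U + W + 3 * κ + J + 2 := ⟨_, rfl⟩
  obtain ⟨R, hR⟩ := maxi 1 1 U'
  obtain ⟨V', hV'⟩ := base_arc Pool.Agent.Run7.h794.MK.law_all 1 R
  refine ⟨V' + 1, fun S D => ?_⟩
  obtain ⟨C', hbase⟩ := hV' (S + κ + 1) D
  obtain ⟨B1, h1⟩ := hR _ hbase
  refine ⟨C' + κ + 3, B1 + 1, fun E => ?_⟩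
  obtain ⟨n1, h1⟩ := h1 E
  obtain ⟨N₂, h2⟩ := eventually_atTop.1 (((ev_ge ((B : ℝ) + 6 + 2 ^ (V' + 1) + 2 ^ (C' + 1) + 2 ^ (B1 + 1) + 2 ^ (κ + 1))).and
    (ev_logN (κ + 3) 1)).and (ev_logN (W + 1) 1))
  refine ⟨n1 + N₂ + 3, fun N hN H hH ι _ v hv hoff Y hY z hz1 hz2 => ?_⟩
  obtain ⟨⟨hLb, hLN⟩, hLW⟩ := h2 N (by omega)
  rw [one_mul] at hLN hLW
  have p1 : (0 : ℝ) < 2 ^ (V' + 1) := by positivity
  have p2 : (0 : ℝ) < 2 ^ (C' + 1) := by positivity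
  have p3 : (0 : ℝ) < 2 ^ (B1 + 1) := by positivity
  have p4 : (0 : ℝ) < 2 ^ (κ + 1) := by positivity
  have hB0 : (0 : ℝ) ≤ B := Nat.cast_nonneg _
  have hN1 : (1 : ℝ) ≤ N := by exact_mod_cast (by omega : 1 ≤ N)
  have hN0 : (0 : ℝ) < N := by linarith
  obtain ⟨L, hL⟩ : ∃ L, L = Real.log (N : ℝ) := ⟨_, rfl⟩
  obtain ⟨l, hl⟩ : ∃ l, l = Real.log (Y : ℝ) := ⟨_, rfl⟩
  have hL6 : 6 ≤ L := by rw [hL]; linarith
  have hL0 : 0 < L := by linarith
  have hL1 : 1 ≤ L := by linarith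
  have hN3 : (N : ℝ) ^ (1 / 3 : ℝ) ≤ N := by
    calc (N : ℝ) ^ (1 / 3 : ℝ) ≤ (N : ℝ) ^ (1 : ℝ) := Real.rpow_le_rpow_of_exponent_le hN1 (by norm_num)
      _ = N := Real.rpow_one _
  have hYr : (Y : ℝ) = (B + 1) * N := by rw [hY]; push_cast; ring
  have hNY : (N : ℝ) ≤ Y := by rw [hYr]; nlinarith
  have hY0 : (0 : ℝ) < Y := by linarith
  have hLl : L ≤ l := by rw [hL, hl]; exact Real.log_le_log hN0 hNY
  have hl0 : 0 < l := by linarith
  have hl1 : 1 ≤ l := by linarith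
  have hlpow : ∀ a : ℕ, (1 : ℝ) ≤ l ^ a := fun a => one_le_pow₀ hl1
  -- Y ≤ L N, l ≤ L + log L
  have hYL : (Y : ℝ) ≤ L * N := by
    rw [hYr]
    apply mul_le_mul_of_nonneg_right _ hN0.le
    rw [hL]
    linarith
  -- the larger scale
  obtain ⟨m, hm⟩ : ∃ m : ℕ, m = ⌈l ^ κ⌉₊ := ⟨_, rfl⟩
  have hm1 : l ^ κ ≤ m := by rw [hm]; exact Nat.le_ceil _
  have hm2 : (m : ℝ) ≤ 2 * l ^ κ := by
    have : (m : ℝ) < l ^ κ + 1 := by rw [hm]; exact Nat.ceil_lt_add_one (by positivity)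
    linarith [hlpow κ]
  have hmone : 1 ≤ m := by
    have : (1 : ℝ) ≤ m := (hlpow κ).trans hm1
    exact_mod_cast this
  have hmr : (1 : ℝ) ≤ m := by exact_mod_cast hmone
  obtain ⟨M, hM⟩ : ∃ M : ℕ, M = Y * m := ⟨_, rfl⟩
  have hMr : (M : ℝ) = Y * m := by rw [hM]; push_cast; ring
  have hYM : (Y : ℝ) ≤ M := by rw [hMr]; nlinarith
  have hNM : (N : ℝ) ≤ M := hNY.trans hYM
  have hM0 : (0 : ℝ) < M := by linarith
  have hLLM : L ≤ Real.log M := by rw [hL]; exact Real.log_le_log hN0 hNM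
  have hlLM : l ≤ Real.log M := by rw [hl]; exact Real.log_le_log hY0 hYM
  have hl2L : l ≤ 2 * L := by
    have e1 : Real.log Y ≤ Real.log (L * N) := Real.log_le_log hY0 hYL
    rw [Real.log_mul hL0.ne' hN0.ne', ← hL, ← hl] at e1
    have e2 : Real.log L ≤ L := (Real.log_le_sub_one_of_pos hL0).trans (by linarith)
    linarith
  -- m ≤ L ^ (κ + 2)
  have hm3 : (m : ℝ) ≤ L ^ (κ + 1) := by
    calc (m : ℝ) ≤ 2 * l ^ κ := hm2
      _ ≤ 2 * (2 * L) ^ κ := by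
          apply mul_le_mul_of_nonneg_left _ (by norm_num)
          exact pow_le_pow_left₀ hl0.le hl2L κ
      _ = 2 ^ (κ + 1) * L ^ κ := by rw [mul_pow]; ring
      _ ≤ L * L ^ κ := mul_le_mul_of_nonneg_right (by rw [hL]; linarith) (by positivity)
      _ = _ := by rw [pow_succ]; ring
  have hMN : (M : ℝ) ≤ N * L ^ (κ + 2) := by
    calc (M : ℝ) = Y * m := hMr
      _ ≤ (L * N) * L ^ (κ + 1) := mul_le_mul hYL hm3 (by linarith) (by positivity)
      _ = _ := by rw [pow_succ L (κ + 1)]; ring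
  have hLM2 : Real.log M ≤ 2 * L := by
    have e1 : (M : ℝ) ≤ N * N := by
      refine hMN.trans (mul_le_mul_of_nonneg_left ?_ hN0.le)
      refine le_trans ?_ (hLN.trans hN3)
      rw [hL]
      exact pow_le_pow_right₀ (by linarith) (by omega)
    have e2 := Real.log_le_log hM0 e1
    rw [Real.log_mul hN0.ne' hN0.ne', ← hL] at e2
    linarith
  have hH' : (M : ℝ) ^ (1 / 3 : ℝ) * Real.log M ^ C' ≤ H := by
    refine le_trans ?_ hH
    have e1 : (M : ℝ) ^ (1 / 3 : ℝ) ≤ (N : ℝ) ^ (1 / 3 : ℝ) * L ^ (κ + 2) := by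
      calc (M : ℝ) ^ (1 / 3 : ℝ) ≤ (N * L ^ (κ + 2)) ^ (1 / 3 : ℝ) := Real.rpow_le_rpow hM0.le hMN (by norm_num)
        _ = (N : ℝ) ^ (1 / 3 : ℝ) * (L ^ (κ + 2)) ^ (1 / 3 : ℝ) := Real.mul_rpow hN0.le (by positivity)
        _ ≤ (N : ℝ) ^ (1 / 3 : ℝ) * (L ^ (κ + 2)) ^ (1 : ℝ) := by
            apply mul_le_mul_of_nonneg_left _ (by positivity)
            exact Real.rpow_le_rpow_of_exponent_le (one_le_pow₀ hL1) (by norm_num)
        _ = _ := by rw [Real.rpow_one]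
    have e2 : Real.log M ^ C' ≤ L ^ (C' + 1) := by
      calc Real.log M ^ C' ≤ (2 * L) ^ C' := pow_le_pow_left₀ (by linarith) hLM2 C'
        _ = 2 ^ C' * L ^ C' := by rw [mul_pow]
        _ ≤ L * L ^ C' := by
            apply mul_le_mul_of_nonneg_right _ (by positivity)
            have : (2 : ℝ) ^ C' ≤ 2 ^ (C' + 1) := pow_le_pow_right₀ (by norm_num) (by omega)
            rw [hL]
            linarith
        _ = _ := by rw [pow_succ]; ring
    calc (M : ℝ) ^ (1 / 3 : ℝ) * Real.log M ^ C' ≤ ((N : ℝ) ^ (1 / 3 : ℝ) * L ^ (κ + 2)) * L ^ (C' + 1) :=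
          mul_le_mul e1 e2 (by positivity) (by positivity)
      _ = (N : ℝ) ^ (1 / 3 : ℝ) * L ^ (C' + κ + 3) := by
          rw [show C' + κ + 3 = (κ + 2) + (C' + 1) by ring, pow_add]
          ring
      _ = _ := by rw [hL]
  -- the exceptions for one multiple of one neighbour
  obtain ⟨τ, hτ⟩ : ∃ τ : ℝ, τ = Y / l ^ J := ⟨_, rfl⟩
  have hτ0 : 0 < τ := by rw [hτ]; positivity
  obtain ⟨R₁, hR₁⟩ : ∃ R₁ : ℕ, R₁ = ⌊L ^ W⌋₊ := ⟨_, rfl⟩
  have hR₁L : (R₁ : ℝ) ≤ L ^ W := by rw [hR₁]; exact Nat.floor_le (by positivity)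
  have hR₁N : R₁ ≤ N := by
    have e1 : L ^ W ≤ L ^ (W + 1) := pow_le_pow_right₀ hL1 (by omega)
    have e2 : (R₁ : ℝ) ≤ N := hR₁L.trans (e1.trans (by rw [hL]; exact hLW.trans hN3))
    exact_mod_cast e2
  obtain ⟨R₂, hR₂⟩ : ∃ R₂ : ℕ, R₂ = ⌊l ^ κ⌋₊ := ⟨_, rfl⟩
  have hR₂l : (R₂ : ℝ) ≤ l ^ κ := by rw [hR₂]; exact Nat.floor_le (by positivity)
  have hR₂m : R₂ ≤ m := by exact_mod_cast hR₂l.trans hm1
  obtain ⟨GG, hGG⟩ : ∃ GG : ℕ → ℝ, GG = fun n => if n ≤ M then ArithmeticFunction.vonMangoldt n else 0 := ⟨_, rfl⟩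
  have hGGb : ∀ n, |GG n| ≤ Real.log M ^ 1 := by
    intro n
    rw [hGG, pow_one]
    simp only
    split_ifs with hn
    · rw [abs_of_nonneg ArithmeticFunction.vonMangoldt_nonneg]
      refine ArithmeticFunction.vonMangoldt_le_log.trans ?_
      rcases Nat.eq_zero_or_pos n with h0 | h0
      · rw [h0, Nat.cast_zero, Real.log_zero]; linarith
      · exact Real.log_le_log (by exact_mod_cast h0) (by exact_mod_cast hn)
    · rw [abs_zero]; linarith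
  have hzM1 : Real.log M ^ B1 ≤ z := by
    refine le_trans ?_ hz1
    rw [← hl]
    calc Real.log M ^ B1 ≤ (2 * L) ^ B1 := pow_le_pow_left₀ (by linarith) hLM2 B1
      _ ≤ (2 * l) ^ B1 := pow_le_pow_left₀ (by positivity) (by linarith) B1
      _ = 2 ^ B1 * l ^ B1 := by rw [mul_pow]
      _ ≤ l * l ^ B1 := by
          apply mul_le_mul_of_nonneg_right _ (by positivity)
          have : (2 : ℝ) ^ B1 ≤ 2 ^ (B1 + 1) := pow_le_pow_right₀ (by norm_num) (by omega)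
          refine le_trans ?_ hLl
          rw [hL]
          linarith
      _ = _ := by rw [pow_succ]; ring
  have hzM2 : (z : ℝ) ≤ Real.log M ^ E := hz2.trans (by rw [← hl]; exact pow_le_pow_left₀ hl0.le hlLM E)
  have hone : ∀ th ∈ (Icc (-(R₁ : ℤ)) R₁) ×ˢ (Icc 1 R₂),
      ((univ.filter (fun i : ι => ∃ N₁ : ℕ, N₁ ≤ M ∧ τ < |TH212.EH.S1 GG z N₁ (((th.2 : ℕ) : ℤ) * (v i + th.1))|)).card : ℝ) ≤
        (M * Fintype.card ι / Real.log M ^ U') / τ := by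
    intro th hth
    rw [mem_product, mem_Icc, mem_Icc] at hth
    obtain ⟨⟨ht1, ht2⟩, hh1, hh2⟩ := hth
    obtain ⟨w, hw⟩ : ∃ w : ι → ℤ, w = fun i => ((th.2 : ℕ) : ℤ) * (v i + th.1) := ⟨_, rfl⟩
    have hwM : ∀ i, |w i| ≤ (1 : ℕ) * M := by
      intro i
      have e1 : |v i + th.1| ≤ (Y : ℤ) := by
        refine (abs_add_le _ _).trans ?_
        have h3 := hv i
        have h4 : |th.1| ≤ (N : ℤ) := abs_le.2 ⟨by omega, by omega⟩
        rw [hY]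
        push_cast
        linarith
      rw [hw, hM]
      simp only
      rw [abs_mul, abs_of_nonneg (by positivity : (0 : ℤ) ≤ ((th.2 : ℕ) : ℤ))]
      have e2 : ((th.2 : ℕ) : ℤ) ≤ (m : ℤ) := by exact_mod_cast hh2.trans hR₂m
      calc ((th.2 : ℕ) : ℤ) * |v i + th.1| ≤ (m : ℤ) * Y := mul_le_mul e2 e1 (abs_nonneg _) (by positivity)
        _ = _ := by push_cast; ring
    have hmul : ((th.2 : ℕ) : ℝ) ≤ Real.log N ^ (κ + 1) := by
      rw [← hL]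
      refine le_trans ?_ hm3
      exact_mod_cast hh2.trans hR₂m
    have hoffw : Off V' (S + κ + 1) D M H w := by
      have o1 : Off (V' + 1) (S + (κ + 1)) D N H w := by
        rw [hw]
        exact off_mul (hoff.shift th.1) th.2 hh1 hmul
      refine off_scale (by rw [← hL]; exact hL1) (by rw [← hL]; exact hLLM) (by rw [← hL]; exact hLM2) ?_ o1
      have : (2 : ℝ) ^ V' ≤ 2 ^ (V' + 1) := pow_le_pow_right₀ (by norm_num) (by omega)
      linarith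
    have hP : ∀ i : ι, ∃ a : ℕ, a ≤ 1 * M ∧ ((∃ N₁ : ℕ, N₁ ≤ M ∧ τ < |TH212.EH.S1 GG z N₁ (w i)|) → τ < |TH212.EH.S1 GG z a (w i)|) := by
      intro i
      by_cases hi : ∃ N₁ : ℕ, N₁ ≤ M ∧ τ < |TH212.EH.S1 GG z N₁ (w i)|
      · obtain ⟨N₁, q1, q2⟩ := hi
        exact ⟨N₁, by omega, fun _ => q2⟩
      · exact ⟨0, by omega, fun q => absurd q hi⟩
    choose a ha1 ha2 using hP
    have key := (h1 M (by
      have : N ≤ M := by exact_mod_cast hNM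
      omega) ι w hwM ⟨H, hH', hoffw⟩ z hzM1 hzM2 GG hGGb a ha1).1
    have hmk := markov (fun i => ∃ N₁ : ℕ, N₁ ≤ M ∧ τ < |TH212.EH.S1 GG z N₁ (w i)|) (fun i => |TH212.EH.S1 GG z (a i) (w i)|) τ _ hτ0
      (fun i hi => (ha2 i hi).le) (fun i => abs_nonneg _) key
    rw [hw] at hmk
    exact hmk
  -- all of them
  have hsub : (univ.filter (fun i : ι => ¬ ∀ k : ℕ, |(k : ℝ) - v i| ≤ Real.log N ^ W → ∀ h : ℕ, 1 ≤ h → (h : ℝ) ≤ Real.log Y ^ κ →
      ∀ N₁ : ℕ, (N₁ : ℝ) ≤ Y * Real.log Y ^ κ → |cz z N₁ (h * k)| ≤ Y / Real.log Y ^ J)) ⊆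
      ((Icc (-(R₁ : ℤ)) R₁) ×ˢ (Icc 1 R₂)).biUnion (fun th => univ.filter (fun i : ι => ∃ N₁ : ℕ, N₁ ≤ M ∧
        τ < |TH212.EH.S1 GG z N₁ (((th.2 : ℕ) : ℤ) * (v i + th.1))|)) := by
    intro i hi
    rw [mem_filter] at hi
    have hi2 := hi.2
    push Not at hi2
    obtain ⟨k, hk1, h, hh1, hh2, N₁, hN₁, hlt⟩ := hi2
    rw [← hl] at hh2 hN₁ hlt
    rw [← hL] at hk1
    have hrt : (k : ℤ) - v i ∈ Icc (-(R₁ : ℤ)) R₁ := by
      have h8 : (((k : ℤ) - v i).natAbs : ℝ) ≤ L ^ W := by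
        rw [Nat.cast_natAbs]
        push_cast
        exact hk1
      have h9 := Nat.le_floor h8
      rw [← hR₁] at h9
      rw [mem_Icc]
      omega
    have hhR : h ∈ Icc 1 R₂ := by
      rw [mem_Icc, hR₂]
      exact ⟨hh1, Nat.le_floor hh2⟩
    have hNM1 : N₁ ≤ M := by
      have : (N₁ : ℝ) ≤ M := by
        rw [hMr]
        exact hN₁.trans (mul_le_mul_of_nonneg_left hm1 hY0.le)
      exact_mod_cast this
    rw [mem_biUnion]
    refine ⟨((k : ℤ) - v i, h), mem_product.2 ⟨hrt, hhR⟩, ?_⟩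
    rw [mem_filter]
    refine ⟨mem_univ _, N₁, hNM1, ?_⟩
    rw [hGG, cz_S1 z N₁ M (h * k) _ (by push_cast; ring) hNM1, hτ]
    exact hlt
  have h6 : ((univ.filter (fun i : ι => ¬ ∀ k : ℕ, |(k : ℝ) - v i| ≤ Real.log N ^ W → ∀ h : ℕ, 1 ≤ h → (h : ℝ) ≤ Real.log Y ^ κ →
      ∀ N₁ : ℕ, (N₁ : ℝ) ≤ Y * Real.log Y ^ κ → |cz z N₁ (h * k)| ≤ Y / Real.log Y ^ J)).card : ℝ) ≤
      ∑ th ∈ (Icc (-(R₁ : ℤ)) R₁) ×ˢ (Icc 1 R₂), ((univ.filter (fun i : ι => ∃ N₁ : ℕ, N₁ ≤ M ∧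
        τ < |TH212.EH.S1 GG z N₁ (((th.2 : ℕ) : ℤ) * (v i + th.1))|)).card : ℝ) := by
    exact_mod_cast (card_le_card hsub).trans card_biUnion_le
  refine h6.trans ?_
  refine (sum_le_sum hone).trans ?_
  rw [sum_const, card_product, nsmul_eq_mul, Int.card_Icc, Nat.card_Icc, Nat.add_sub_cancel]
  have e1 : ((R₁ : ℤ) + 1 - -(R₁ : ℤ)).toNat = 2 * R₁ + 1 := by omega
  rw [e1]
  have h9 : (((2 * R₁ + 1) * R₂ : ℕ) : ℝ) ≤ l ^ (W + 1) * l ^ κ := by
    push_cast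
    apply mul_le_mul _ hR₂l (Nat.cast_nonneg _) (by positivity)
    have q1 : 1 ≤ L ^ W := one_le_pow₀ hL1
    calc 2 * (R₁ : ℝ) + 1 ≤ 3 * L ^ W := by linarith
      _ ≤ L * L ^ W := mul_le_mul_of_nonneg_right (by linarith) (by positivity)
      _ = L ^ (W + 1) := by rw [pow_succ]; ring
      _ ≤ l ^ (W + 1) := pow_le_pow_left₀ hL0.le hLl _
  have h10 : (M * Fintype.card ι / Real.log M ^ U') / τ ≤ 2 * l ^ κ * l ^ J * (Fintype.card ι / l ^ U') := by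
    have q1 : (M * Fintype.card ι / Real.log M ^ U') / τ = (m * l ^ J) * (Fintype.card ι / Real.log M ^ U') := by
      rw [hτ, hMr]
      field_simp
    rw [q1]
    apply mul_le_mul _ _ (by positivity) (by positivity)
    · exact mul_le_mul_of_nonneg_right hm2 (by positivity)
    · apply div_le_div_of_nonneg_left (Nat.cast_nonneg _) (by positivity)
      exact pow_le_pow_left₀ hl0.le hlLM _
  calc (((2 * R₁ + 1) * R₂ : ℕ) : ℝ) * ((M * Fintype.card ι / Real.log M ^ U') / τ) ≤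
        (l ^ (W + 1) * l ^ κ) * (2 * l ^ κ * l ^ J * (Fintype.card ι / l ^ U')) :=
        mul_le_mul h9 h10 (by positivity) (by positivity)
    _ = 2 / l * (Fintype.card ι / l ^ (U + κ)) := by
        rw [hU', show U + W + 3 * κ + J + 2 = (U + κ) + ((W + 1) + κ + κ + J) + 1 by ring, pow_succ l ((U + κ) + ((W + 1) + κ + κ + J)),
          pow_add l (U + κ), pow_add l ((W + 1) + κ + κ), pow_add l ((W + 1) + κ), pow_add l (W + 1)]
        field_simp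
    _ ≤ 1 * (Fintype.card ι / l ^ (U + κ)) := by
        apply mul_le_mul_of_nonneg_right _ (by positivity)
        rw [div_le_one hl0]
        linarith
    _ = Fintype.card ι / l ^ (U + κ) := one_mul _
    _ ≤ Fintype.card ι / Real.log N ^ U := by
        rw [← hL]
        apply div_le_div_of_nonneg_left (Nat.cast_nonneg _) (by positivity)
        calc L ^ U ≤ l ^ U := pow_le_pow_left₀ hL0.le hLl U
          _ ≤ l ^ (U + κ) := pow_le_pow_right₀ hl1 (by omega)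

open Classical in
/-- **the variance formula with its second main term for almost all members of a family** -/
theorem var_fam (κ A : ℕ) : ∃ K : ℝ, 0 < K ∧ ∀ B W U : ℕ, ∃ V : ℕ, ∀ S D : ℕ, ∃ C N₀ : ℕ, ∀ N : ℕ, N₀ ≤ N → ∀ H : ℕ,
    (N : ℝ) ^ (1 / 3 : ℝ) * Real.log N ^ C ≤ H → ∀ (ι : Type) [Fintype ι] (v : ι → ℤ), (∀ i, |v i| ≤ B * N) → Off V S D N H v →
    ((univ.filter (fun i : ι => ¬ ∀ k : ℕ, |(k : ℝ) - v i| ≤ Real.log N ^ W → (N : ℝ) ≤ k * Real.log N ^ κ →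
      ∀ x : ℝ, (k : ℝ) ≤ x → x ≤ k * Real.log N ^ κ →
      |G x k - (x * Real.log k - CC k * x)| ≤ K * (x * (lamQ k * (k / x) ^ (1 / 3 : ℝ) + 1 / Real.log N ^ A)))).card : ℝ) ≤
      Fintype.card ι / Real.log N ^ U := by
  obtain ⟨κ', hκ'⟩ : ∃ κ', κ' = κ + 1 := ⟨_, rfl⟩
  obtain ⟨K, hK, hdet⟩ := det_var2 κ' A
  refine ⟨K, hK, fun B W U => ?_⟩
  obtain ⟨V, hV⟩ := corr_fam B κ' (2 * κ' + A) U W
  refine ⟨V, fun S D => ?_⟩
  obtain ⟨C, B₀, h1⟩ := hV S D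
  obtain ⟨E1, hE1⟩ : ∃ E1, E1 = B₀ + κ' + A + 3 := ⟨_, rfl⟩
  obtain ⟨n1, h1⟩ := h1 (E1 + 1)
  obtain ⟨n2, h2⟩ := hdet (E1 + 1)
  obtain ⟨n3, h3⟩ := eventually_atTop.1 ((ev_ge ((B : ℝ) + 3)).and (ev_logN W 1))
  refine ⟨C, n1 + n2 + n3 + 3, fun N hN H hH ι _ v hv hoff => ?_⟩
  obtain ⟨hLb, hLW⟩ := h3 N (by omega)
  rw [one_mul] at hLW
  have hB0 : (0 : ℝ) ≤ B := Nat.cast_nonneg _
  have hN1 : (1 : ℝ) ≤ N := by exact_mod_cast (by omega : 1 ≤ N)
  have hN0 : (0 : ℝ) < N := by linarith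
  have hN3 : (N : ℝ) ^ (1 / 3 : ℝ) ≤ N := by
    calc (N : ℝ) ^ (1 / 3 : ℝ) ≤ (N : ℝ) ^ (1 : ℝ) := Real.rpow_le_rpow_of_exponent_le hN1 (by norm_num)
      _ = N := Real.rpow_one _
  obtain ⟨Y, hY⟩ : ∃ Y : ℕ, Y = (B + 1) * N := ⟨_, rfl⟩
  have hYr : (Y : ℝ) = (B + 1) * N := by rw [hY]; push_cast; ring
  have hNY : (N : ℝ) ≤ Y := by rw [hYr]; nlinarith
  have hNYn : N ≤ Y := by exact_mod_cast hNY
  have hY0 : (0 : ℝ) < Y := by linarith
  have hLl : Real.log N ≤ Real.log Y := Real.log_le_log hN0 hNY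
  have hL1 : 1 ≤ Real.log N := by linarith
  have hl1 : 1 ≤ Real.log Y := by linarith
  obtain ⟨z, hz⟩ : ∃ z, z = ⌈Real.log Y ^ E1⌉₊ := ⟨_, rfl⟩
  have hz1 : Real.log Y ^ E1 ≤ z := by rw [hz]; exact Nat.le_ceil _
  have hz2 : (z : ℝ) ≤ Real.log Y ^ (E1 + 1) := by
    have q1 : (z : ℝ) < Real.log Y ^ E1 + 1 := by rw [hz]; exact Nat.ceil_lt_add_one (by positivity)
    have q2 : (1 : ℝ) ≤ Real.log Y ^ E1 := one_le_pow₀ hl1
    rw [pow_succ]
    nlinarith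
  refine le_trans ?_ (h1 N (by omega) H hH ι v hv hoff Y hY z ((pow_le_pow_right₀ hl1 (by omega)).trans hz1) hz2)
  apply Nat.cast_le.2
  apply card_le_card
  intro i hi
  rw [mem_filter] at hi ⊢
  refine ⟨hi.1, fun hcon => hi.2 fun k hk hkN x hx1 hx2 => ?_⟩
  have hkY : k ≤ Y := by
    have e1 := (abs_le.1 hk).2
    have e2 : (v i : ℝ) ≤ B * N := by
      have := (abs_le.1 (hv i)).2
      exact_mod_cast this
    have e3 : (k : ℝ) ≤ Y := by
      rw [hYr]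
      have := hLW.trans hN3
      linarith
    exact_mod_cast e3
  have hlκ : Real.log N ^ κ ≤ Real.log Y ^ κ' := by
    rw [hκ']
    exact (pow_le_pow_left₀ (by linarith) hLl κ).trans (pow_le_pow_right₀ hl1 (by omega))
  have hkd := h2 Y (by omega) z ((pow_le_pow_right₀ hl1 (by omega)).trans hz1) hz2 k hkY (by
    rw [hκ']
    calc (Y : ℝ) = ((B : ℝ) + 1) * N := hYr
      _ ≤ Real.log Y * (k * Real.log N ^ κ) := by
          apply mul_le_mul (by linarith) hkN hN0.le (by linarith)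
      _ ≤ Real.log Y * (k * Real.log Y ^ κ) := by
          apply mul_le_mul_of_nonneg_left _ (by linarith)
          apply mul_le_mul_of_nonneg_left _ (Nat.cast_nonneg _)
          exact pow_le_pow_left₀ (by linarith) hLl κ
      _ = _ := by rw [pow_succ]; ring) x hx1 (hx2.trans (mul_le_mul_of_nonneg_left hlκ (Nat.cast_nonneg _)))
    (fun h hh1 hh2 N₁ hN₁ => hcon k hk h hh1 hh2 N₁ hN₁)
  refine hkd.trans ?_
  apply mul_le_mul_of_nonneg_left _ hK.le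
  have hx0 : 0 ≤ x := le_trans (Nat.cast_nonneg _) hx1
  apply mul_le_mul_of_nonneg_left _ hx0
  apply add_le_add le_rfl
  apply one_div_le_one_div_of_le (by positivity)
  exact pow_le_pow_left₀ (by linarith) hLl A

end Pool.Agent.Run7.h27.FG
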