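import Mathlib

set_option autoImplicit false

/-!
Second order expansions: the harmonic numbers, the factorials, the sum of the inverse squares.
-/

namespace Pool.Agent.Run7.h27.FG

open Finset Filter Topology

/-- a telescoping comparison -/
lemma tele (a g : ℕ → ℝ) (L : ℝ) (ha : Tendsto a atTop (𝓝 L)) (hg : ∀ n, 1 ≤ n → 0 ≤ g n)
    (h : ∀ n, 1 ≤ n → |a (n + 1) - a n| ≤ g n - g (n + 1)) (n : ℕ) (hn : 1 ≤ n) : |a n - L| ≤ g n := by
  have h1 : ∀ m, |a (n + m) - a n| ≤ g n - g (n + m) := by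
    intro m
    induction m with
    | zero => simp
    | succ m ih =>
      have h2 := h (n + m) (by omega)
      have e : a (n + (m + 1)) - a n = (a (n + m + 1) - a (n + m)) + (a (n + m) - a n) := by
        rw [show n + (m + 1) = n + m + 1 by ring]; ring
      rw [e]
      refine (abs_add_le _ _).trans ?_
      rw [show n + (m + 1) = n + m + 1 by ring]
      linarith
  have h3 : Tendsto (fun m => |a (n + m) - a n|) atTop (𝓝 |L - a n|) := by
    have h4 : Tendsto (fun m => a (n + m)) atTop (𝓝 L) := by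
      have := ha.comp (tendsto_add_atTop_nat n)
      refine this.congr fun m => ?_
      simp only [Function.comp]
      rw [add_comm]
    exact (h4.sub_const _).abs
  have h5 := le_of_tendsto h3 (Eventually.of_forall fun m => show |a (n + m) - a n| ≤ g n from by
    have := h1 m
    have := hg (n + m) (by omega)
    linarith)
  rw [abs_sub_comm]
  exact h5

/-- two terms of the logarithm -/
lemma log_two (n : ℕ) (hn : 1 ≤ n) : |Real.log ((n : ℝ) + 1) - Real.log n - (1 / ((n : ℝ) + 1) + 1 / (2 * ((n : ℝ) + 1) ^ 2))| ≤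
    1 / (n * ((n : ℝ) + 1) ^ 2) := by
  have hn0 : (0 : ℝ) < n := by exact_mod_cast hn
  have hx : |1 / ((n : ℝ) + 1)| < 1 := by
    rw [abs_of_nonneg (by positivity), div_lt_one (by positivity)]
    linarith
  have key := Real.abs_log_sub_add_sum_range_le hx 2
  rw [sum_range_succ, sum_range_succ, sum_range_zero] at key
  have e1 : (1 : ℝ) - 1 / ((n : ℝ) + 1) = n / ((n : ℝ) + 1) := by field_simp; ring
  rw [e1, Real.log_div hn0.ne' (by positivity)] at key
  have e2 : |1 / ((n : ℝ) + 1)| ^ (2 + 1) / (1 - |1 / ((n : ℝ) + 1)|) = 1 / (n * ((n : ℝ) + 1) ^ 2) := by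
    rw [abs_of_nonneg (by positivity), e1, div_pow, one_pow]
    field_simp
  rw [e2] at key
  rw [abs_sub_comm]
  refine le_trans (le_of_eq ?_) key
  congr 1
  push_cast
  field_simp
  ring

/-- the harmonic numbers -/
lemma harm (n : ℕ) (hn : 1 ≤ n) :
    |∑ m ∈ Icc 1 n, 1 / (m : ℝ) - (Real.log n + Real.eulerMascheroniConstant + 1 / (2 * n))| ≤ 2 / (n : ℝ) ^ 2 := by
  have key := tele (fun n : ℕ => ∑ m ∈ Icc 1 n, 1 / (m : ℝ) - Real.log n - 1 / (2 * n)) (fun n => 2 / (n : ℝ) ^ 2)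
    Real.eulerMascheroniConstant ?_ (fun n _ => by positivity) ?_ n hn
  · refine le_trans (le_of_eq ?_) key
    congr 1
    ring
  · have h1 := Real.tendsto_harmonic_sub_log
    have h2 : Tendsto (fun n : ℕ => 1 / (2 * (n : ℝ))) atTop (𝓝 0) := by
      have := tendsto_one_div_atTop_nhds_zero_nat (𝕜 := ℝ)
      have h3 := this.const_mul (1 / 2)
      rw [mul_zero] at h3
      refine h3.congr fun n => ?_
      rcases eq_or_ne (n : ℝ) 0 with h | h
      · rw [h]; simp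
      · field_simp
    have h3 := h1.sub h2
    rw [sub_zero] at h3
    refine h3.congr fun n => ?_
    rw [harmonic_eq_sum_Icc]
    push_cast
    congr 2
    apply sum_congr rfl
    intro i _
    rw [one_div]
  · intro n hn
    have hn0 : (0 : ℝ) < n := by exact_mod_cast hn
    rw [sum_Icc_succ_top (by omega)]
    push_cast
    have h1 := log_two n hn
    rw [abs_le] at h1 ⊢
    have e1 : (∑ m ∈ Icc 1 n, 1 / (m : ℝ) + 1 / ((n : ℝ) + 1) - Real.log ((n : ℝ) + 1) - 1 / (2 * ((n : ℝ) + 1))) -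
        (∑ m ∈ Icc 1 n, 1 / (m : ℝ) - Real.log n - 1 / (2 * n)) =
        -(Real.log ((n : ℝ) + 1) - Real.log n - (1 / ((n : ℝ) + 1) + 1 / (2 * ((n : ℝ) + 1) ^ 2))) + 1 / (2 * (n * ((n : ℝ) + 1) ^ 2)) := by
      field_simp
      ring
    have e2 : 2 / (n : ℝ) ^ 2 - 2 / ((n : ℝ) + 1) ^ 2 = (2 * (2 * n + 1) / n) * (1 / (n * ((n : ℝ) + 1) ^ 2)) := by
      field_simp
      ring
    have e3 : (4 : ℝ) ≤ 2 * (2 * n + 1) / n := by
      rw [le_div_iff₀ hn0]
      linarith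
    have h0 : 0 < 1 / (n * ((n : ℝ) + 1) ^ 2) := by positivity
    have e4 : 1 / (2 * (n * ((n : ℝ) + 1) ^ 2)) = 1 / 2 * (1 / (n * ((n : ℝ) + 1) ^ 2)) := by field_simp
    rw [e1, e2, e4]
    obtain ⟨w, hw⟩ : ∃ w, w = 1 / (n * ((n : ℝ) + 1) ^ 2) := ⟨_, rfl⟩
    rw [← hw] at h1 h0 ⊢
    have h5 := mul_le_mul_of_nonneg_right e3 h0.le
    constructor <;> linarith

/-- the factorials -/
lemma stir (n : ℕ) (hn : 1 ≤ n) :
    |Real.log (n.factorial : ℝ) - (n * Real.log n - n + 1 / 2 * Real.log (2 * Real.pi) + 1 / 2 * Real.log n)| ≤ 2 / (n : ℝ) := by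
  have key := tele (fun n : ℕ => Real.log (n.factorial : ℝ) - (n * Real.log n - n + 1 / 2 * Real.log (2 * Real.pi) + 1 / 2 * Real.log n))
    (fun n => 2 / (n : ℝ)) 0 ?_ (fun n _ => by positivity) ?_ n hn
  · rw [sub_zero] at key
    exact key
  · have h1 := Stirling.tendsto_stirlingSeq_sqrt_pi
    have h2 : Tendsto (fun n : ℕ => Real.log (Stirling.stirlingSeq n)) atTop (𝓝 (Real.log √Real.pi)) :=
      h1.log (Real.sqrt_ne_zero'.2 Real.pi_pos)
    have h3 := h2.sub_const (Real.log √Real.pi)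
    rw [sub_self] at h3
    refine h3.congr' ?_
    filter_upwards [eventually_ge_atTop 1] with n hn
    have hn0 : (0 : ℝ) < n := by exact_mod_cast hn
    rw [Stirling.log_stirlingSeq_formula, Real.log_sqrt Real.pi_pos.le, Real.log_mul (by norm_num) hn0.ne',
      Real.log_div hn0.ne' (Real.exp_pos _).ne', Real.log_exp, Real.log_mul (by norm_num) Real.pi_pos.ne']
    ring
  · intro n hn
    have hn0 : (0 : ℝ) < n := by exact_mod_cast hn
    rw [Nat.factorial_succ]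
    push_cast
    rw [Real.log_mul (by positivity) (by exact_mod_cast Nat.factorial_ne_zero n)]
    have h1 := log_two n hn
    obtain ⟨θ, hθ⟩ : ∃ θ, θ = Real.log ((n : ℝ) + 1) - Real.log n - (1 / ((n : ℝ) + 1) + 1 / (2 * ((n : ℝ) + 1) ^ 2)) := ⟨_, rfl⟩
    rw [← hθ] at h1
    have e1 : (Real.log ((n : ℝ) + 1) + Real.log (n.factorial : ℝ) - (((n : ℝ) + 1) * Real.log ((n : ℝ) + 1) - ((n : ℝ) + 1) +
        1 / 2 * Real.log (2 * Real.pi) + 1 / 2 * Real.log ((n : ℝ) + 1))) - (Real.log (n.factorial : ℝ) - (n * Real.log n - n +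
        1 / 2 * Real.log (2 * Real.pi) + 1 / 2 * Real.log n)) = 1 - (n + 1 / 2) * (Real.log ((n : ℝ) + 1) - Real.log n) := by
      ring
    have e2 : Real.log ((n : ℝ) + 1) - Real.log n = θ + (1 / ((n : ℝ) + 1) + 1 / (2 * ((n : ℝ) + 1) ^ 2)) := by
      rw [hθ]; ring
    have e3 : 1 - (n + 1 / 2) * (θ + (1 / ((n : ℝ) + 1) + 1 / (2 * ((n : ℝ) + 1) ^ 2))) = 1 / (4 * ((n : ℝ) + 1) ^ 2) - (n + 1 / 2) * θ := by
      field_simp
      ring
    rw [e1, e2, e3]
    have h2 : |(n + 1 / 2) * θ| ≤ (n + 1 / 2) * (1 / (n * ((n : ℝ) + 1) ^ 2)) := by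
      rw [abs_mul, abs_of_pos (by positivity : (0 : ℝ) < n + 1 / 2)]
      exact mul_le_mul_of_nonneg_left h1 (by positivity)
    have h3 : (n + 1 / 2) * (1 / (n * ((n : ℝ) + 1) ^ 2)) ≤ 3 / 2 * (1 / ((n : ℝ) + 1) ^ 2) := by
      rw [show (n + 1 / 2) * (1 / (n * ((n : ℝ) + 1) ^ 2)) = ((n + 1 / 2) / n) * (1 / ((n : ℝ) + 1) ^ 2) by field_simp]
      apply mul_le_mul_of_nonneg_right _ (by positivity)
      rw [div_le_iff₀ hn0]
      have : (1 : ℝ) ≤ n := by exact_mod_cast hn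
      linarith
    have h4 : 2 / (n : ℝ) - 2 / ((n : ℝ) + 1) = 2 * (1 / (n * ((n : ℝ) + 1))) := by field_simp; ring
    have h5 : 1 / ((n : ℝ) + 1) ^ 2 ≤ 1 / (n * ((n : ℝ) + 1)) := by
      apply one_div_le_one_div_of_le (by positivity)
      nlinarith
    have h6 : 1 / (4 * ((n : ℝ) + 1) ^ 2) = 1 / 4 * (1 / ((n : ℝ) + 1) ^ 2) := by field_simp
    rw [h4, h6]
    have h7 : |1 / 4 * (1 / ((n : ℝ) + 1) ^ 2) - (n + 1 / 2) * θ| ≤ |1 / 4 * (1 / ((n : ℝ) + 1) ^ 2)| + |(n + 1 / 2) * θ| := abs_sub _ _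
    rw [abs_of_nonneg (by positivity : (0 : ℝ) ≤ 1 / 4 * (1 / ((n : ℝ) + 1) ^ 2))] at h7
    have h8 : 0 ≤ 1 / (n * ((n : ℝ) + 1)) := by positivity
    linarith

/-- `ζ(2)` -/
noncomputable def Z2 : ℝ := Real.pi ^ 2 / 6

/-- the inverse squares -/
lemma sqs (n : ℕ) (hn : 1 ≤ n) : |∑ m ∈ Icc 1 n, 1 / (m : ℝ) ^ 2 - (Z2 - 1 / n + 1 / (2 * (n : ℝ) ^ 2))| ≤ 1 / (n : ℝ) ^ 3 := by
  have key := tele (fun n : ℕ => ∑ m ∈ Icc 1 n, 1 / (m : ℝ) ^ 2 + 1 / n - 1 / (2 * (n : ℝ) ^ 2)) (fun n => 1 / (n : ℝ) ^ 3) Z2 ?_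
    (fun n _ => by positivity) ?_ n hn
  · refine le_trans (le_of_eq ?_) key
    congr 1
    ring
  · have h1 : Tendsto (fun n : ℕ => ∑ m ∈ Icc 1 n, 1 / (m : ℝ) ^ 2) atTop (𝓝 Z2) := by
      have h2 := hasSum_zeta_two.tendsto_sum_nat
      have h3 := h2.comp (tendsto_add_atTop_nat 1)
      refine h3.congr fun n => ?_
      simp only [Function.comp]
      rw [range_eq_Ico, sum_eq_sum_Ico_succ_bot (by omega)]
      simp only [Nat.cast_zero, ne_eq, OfNat.ofNat_ne_zero, not_false_eq_true, zero_pow, div_zero, zero_add]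
      rfl
    have h2 := tendsto_one_div_atTop_nhds_zero_nat (𝕜 := ℝ)
    have h3 : Tendsto (fun n : ℕ => 1 / (2 * (n : ℝ) ^ 2)) atTop (𝓝 0) := by
      have h4 := (h2.mul h2).const_mul (1 / 2)
      rw [mul_zero, mul_zero] at h4
      refine h4.congr fun n => ?_
      rcases eq_or_ne (n : ℝ) 0 with h | h
      · rw [h]; simp
      · field_simp
    have h4 := (h1.add h2).sub h3
    rw [add_zero, sub_zero] at h4
    exact h4
  · intro n hn
    have hn0 : (0 : ℝ) < n := by exact_mod_cast hn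
    rw [sum_Icc_succ_top (by omega)]
    push_cast
    have e1 : (∑ m ∈ Icc 1 n, 1 / (m : ℝ) ^ 2 + 1 / ((n : ℝ) + 1) ^ 2 + 1 / ((n : ℝ) + 1) - 1 / (2 * ((n : ℝ) + 1) ^ 2)) -
        (∑ m ∈ Icc 1 n, 1 / (m : ℝ) ^ 2 + 1 / n - 1 / (2 * (n : ℝ) ^ 2)) = (n * (n + 1) / 2) / ((n : ℝ) ^ 3 * ((n : ℝ) + 1) ^ 3) := by
      field_simp
      ring
    have e2 : 1 / (n : ℝ) ^ 3 - 1 / ((n : ℝ) + 1) ^ 3 = (3 * (n : ℝ) ^ 2 + 3 * n + 1) / ((n : ℝ) ^ 3 * ((n : ℝ) + 1) ^ 3) := by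
      field_simp
      ring
    rw [e1, e2, abs_of_nonneg (by positivity)]
    apply div_le_div_of_nonneg_right _ (by positivity)
    nlinarith

/-- the harmonic sums up to a real number -/
lemma harm_real (u : ℝ) (hu : 1 ≤ u) :
    |∑ m ∈ Icc 1 ⌊u⌋₊, 1 / (m : ℝ) - (Real.log u + Real.eulerMascheroniConstant + (1 / 2 - (u - ⌊u⌋₊)) / u)| ≤ 11 / u ^ 2 := by
  have hn : 1 ≤ ⌊u⌋₊ := Nat.le_floor (by exact_mod_cast hu)
  obtain ⟨n, hnd⟩ : ∃ n, n = ⌊u⌋₊ := ⟨_, rfl⟩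
  rw [← hnd] at hn ⊢
  have h1 : (n : ℝ) ≤ u := by rw [hnd]; exact Nat.floor_le (by linarith)
  have h2 : u < n + 1 := by rw [hnd]; exact Nat.lt_floor_add_one u
  have hn1 : (1 : ℝ) ≤ n := by exact_mod_cast hn
  have hn0 : (0 : ℝ) < n := by linarith
  have hu0 : 0 < u := by linarith
  have hnu : u / 2 ≤ n := by linarith
  obtain ⟨f, hf⟩ : ∃ f, f = u - n := ⟨_, rfl⟩
  rw [← hf]
  have hf0 : 0 ≤ f := by rw [hf]; linarith
  have hf1 : f ≤ 1 := by rw [hf]; linarith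
  have k1 := harm n hn
  have hx : |f / u| < 1 := by
    rw [abs_of_nonneg (by positivity), div_lt_one hu0]
    rw [hf]; linarith
  have key := Real.abs_log_sub_add_sum_range_le hx 1
  rw [sum_range_one, zero_add, pow_one] at key
  have e1 : 1 - f / u = n / u := by rw [hf]; field_simp; ring
  rw [abs_of_nonneg (by positivity : 0 ≤ f / u), e1, Real.log_div hn0.ne' hu0.ne'] at key
  have k2 : |f / u + (Real.log n - Real.log u)| ≤ 2 / u ^ 2 := by
    refine le_trans (le_of_eq ?_) (key.trans ?_)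
    · congr 1
      push_cast
      ring
    · rw [show (f / u) ^ (1 + 1) / (n / u) = f ^ 2 / (n * u) by rw [show (1 + 1 : ℕ) = 2 from rfl, div_pow]; field_simp, div_le_div_iff₀ (by positivity) (by positivity)]
      have : f ^ 2 ≤ 1 := by nlinarith
      nlinarith [mul_le_mul_of_nonneg_right hnu hu0.le, mul_nonneg (sub_nonneg.2 this) (sq_nonneg u)]
  have k3 : |1 / (2 * (n : ℝ)) - 1 / (2 * u)| ≤ 1 / u ^ 2 := by
    have e : 1 / (2 * (n : ℝ)) - 1 / (2 * u) = f / (2 * (n * u)) := by rw [hf]; field_simp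
    rw [e, abs_of_nonneg (by positivity), div_le_div_iff₀ (by positivity) (by positivity)]
    nlinarith [mul_le_mul_of_nonneg_right hnu hu0.le, mul_nonneg (sub_nonneg.2 hf1) (sq_nonneg u)]
  have k4 : 2 / (n : ℝ) ^ 2 ≤ 8 / u ^ 2 := by
    rw [div_le_div_iff₀ (by positivity) (by positivity)]
    nlinarith [mul_le_mul hnu hnu (by positivity) hn0.le]
  have e2 : ∑ m ∈ Icc 1 n, 1 / (m : ℝ) - (Real.log u + Real.eulerMascheroniConstant + (1 / 2 - f) / u) =
      (∑ m ∈ Icc 1 n, 1 / (m : ℝ) - (Real.log n + Real.eulerMascheroniConstant + 1 / (2 * n))) +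
      (f / u + (Real.log n - Real.log u)) + (1 / (2 * (n : ℝ)) - 1 / (2 * u)) := by
    have : (1 / 2 - f) / u = 1 / (2 * u) - f / u := by field_simp
    rw [this]
    ring
  rw [e2]
  refine (abs_add_le _ _).trans ((add_le_add_left (abs_add_le _ _) _).trans ?_)
  have e3 : (11 : ℝ) / u ^ 2 = 8 / u ^ 2 + 2 / u ^ 2 + 1 / u ^ 2 := by ring
  rw [e3]
  linarith

end Pool.Agent.Run7.h27.FG
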