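import Pool.Agent.Run7.h27.FG.Rall

set_option autoImplicit false

/-!
The singular series at the multiples of a modulus: passing from `σ(j)/j` to the product over a set of primes, one prime at
a time.
-/

namespace Pool.Agent.Run7.h27.FG

open Finset Filter Topology
open Pool.Agent.TH894.PV (al be al_nonneg be_nonneg be_le sum_mult)

/-- `1 + 1/p + ... + 1/p^a` -/
noncomputable def sloc (p a : ℕ) : ℝ := ∑ i ∈ range (a + 1), (1 / (p : ℝ)) ^ i

/-- the local factor of the singular series of `j Q` -/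
noncomputable def phl (Q p j : ℕ) : ℝ := if p ∣ Q then (1 - 1 / (p : ℝ))⁻¹ else ((if p ∣ j then al p else 0) + be p)

/-- the intermediate functions -/
noncomputable def Gm (Q : ℕ) (P : Finset ℕ) (j : ℕ) : ℝ :=
  (∏ q ∈ P, phl Q q j) * ∏ q ∈ j.primeFactors \ P, sloc q (j.factorization q)

lemma sg_mul (x y : ℕ) (h : x.Coprime y) : sg (x * y) = sg x * sg y := by
  have key : ∀ j : ℕ, sg j = ((∑ d ∈ j.divisors, d : ℕ) : ℝ) / j := by
    intro j
    unfold sg
    rw [← Nat.sum_div_divisors j (fun d => 1 / (d : ℝ))]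
    push_cast
    rw [sum_div]
    apply sum_congr rfl
    intro d hd
    rw [Nat.mem_divisors] at hd
    rw [Nat.cast_div hd.1 (by
      have : d ≠ 0 := by
        rintro rfl
        exact hd.2 (Nat.eq_zero_of_zero_dvd hd.1)
      exact_mod_cast this)]
    field_simp
  rw [key, key, key, h.sum_divisors_mul]
  push_cast
  field_simp

lemma sg_one : sg 1 = 1 := by
  unfold sg
  simp

lemma sg_pp (p k : ℕ) (hp : p.Prime) : sg (p ^ k) = sloc p k := by
  unfold sg sloc
  rw [Nat.sum_divisors_prime_pow hp]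
  apply sum_congr rfl
  intro i _
  push_cast
  rw [one_div_pow]

lemma Gm_empty (Q j : ℕ) (hj : j ≠ 0) : Gm Q ∅ j = sg j := by
  rw [Nat.multiplicative_factorization sg sg_mul sg_one hj]
  unfold Gm
  rw [prod_empty, one_mul, sdiff_empty, Finsupp.prod, Nat.support_factorization]
  apply prod_congr rfl
  intro q hq
  rw [sg_pp q _ (Nat.prime_of_mem_primeFactors hq)]

lemma pf_pow (p a m : ℕ) (hp : p.Prime) (hm : m ≠ 0) (ha : a ≠ 0) : (p ^ a * m).primeFactors = insert p m.primeFactors := by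
  rw [Nat.primeFactors_mul (pow_ne_zero _ hp.ne_zero) hm, Nat.primeFactors_prime_pow ha hp, insert_eq]

lemma fac_other (p a m q : ℕ) (hp : p.Prime) (hm : m ≠ 0) (hq : q ≠ p) : (p ^ a * m).factorization q = m.factorization q := by
  rw [Nat.factorization_mul (pow_ne_zero _ hp.ne_zero) hm, Finsupp.add_apply, Nat.Prime.factorization_pow hp,
    Finsupp.single_apply, if_neg (fun h => hq h.symm), zero_add]

lemma dvd_other (p a m q : ℕ) (hp : p.Prime) (hq : q.Prime) (hne : q ≠ p) : q ∣ p ^ a * m ↔ q ∣ m := by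
  rw [hq.dvd_mul]
  constructor
  · rintro (h | h)
    · exact absurd ((Nat.prime_dvd_prime_iff_eq hq hp).1 (hq.dvd_of_dvd_pow h)) hne
    · exact h
  · exact fun h => Or.inr h

lemma Gm_pow (Q : ℕ) (P : Finset ℕ) (hP : ∀ q ∈ P, q.Prime) (p a m : ℕ) (hp : p.Prime) (hpP : p ∉ P) (hm : m ≠ 0)
    (hpm : ¬ p ∣ m) : Gm Q P (p ^ a * m) = sloc p a * Gm Q P m := by
  have hpf : p ∉ m.primeFactors := fun h => hpm (Nat.dvd_of_mem_primeFactors h)
  rcases Nat.eq_zero_or_pos a with rfl | ha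
  · rw [pow_zero, one_mul]
    unfold sloc
    simp
  unfold Gm
  have h1 : ∏ q ∈ P, phl Q q (p ^ a * m) = ∏ q ∈ P, phl Q q m := by
    apply prod_congr rfl
    intro q hq
    unfold phl
    simp only [dvd_other p a m q hp (hP q hq) (fun h => hpP (h ▸ hq))]
  have h2 : (p ^ a * m).primeFactors \ P = insert p (m.primeFactors \ P) := by
    rw [pf_pow p a m hp hm (by omega), insert_sdiff_of_notMem _ hpP]
  rw [h1, h2, prod_insert (fun h => hpf (mem_sdiff.1 h).1)]
  have h3 : (p ^ a * m).factorization p = a := by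
    rw [Nat.factorization_mul (pow_ne_zero _ hp.ne_zero) hm, Finsupp.add_apply, Nat.Prime.factorization_pow hp,
      Finsupp.single_eq_same, Nat.factorization_eq_zero_of_not_dvd hpm, add_zero]
  have h4 : ∏ q ∈ m.primeFactors \ P, sloc q ((p ^ a * m).factorization q) = ∏ q ∈ m.primeFactors \ P, sloc q (m.factorization q) := by
    apply prod_congr rfl
    intro q hq
    rw [fac_other p a m q hp hm (fun h => hpf (h ▸ (mem_sdiff.1 hq).1))]
  rw [h3, h4]
  ring

lemma Gm_insert (Q : ℕ) (P : Finset ℕ) (hP : ∀ q ∈ P, q.Prime) (p a m : ℕ) (hp : p.Prime) (hpP : p ∉ P) (hm : m ≠ 0)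
    (hpm : ¬ p ∣ m) : Gm Q (insert p P) (p ^ a * m) = phl Q p (p ^ a * m) * Gm Q P m := by
  have hpf : p ∉ m.primeFactors := fun h => hpm (Nat.dvd_of_mem_primeFactors h)
  unfold Gm
  rw [prod_insert hpP]
  have h1 : ∏ q ∈ P, phl Q q (p ^ a * m) = ∏ q ∈ P, phl Q q m := by
    apply prod_congr rfl
    intro q hq
    unfold phl
    simp only [dvd_other p a m q hp (hP q hq) (fun h => hpP (h ▸ hq))]
  have h2 : (p ^ a * m).primeFactors \ (insert p P) = m.primeFactors \ P := by
    ext q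
    rw [Finset.mem_sdiff, Finset.mem_sdiff, Finset.mem_insert]
    rcases Nat.eq_zero_or_pos a with rfl | ha
    · rw [pow_zero, one_mul]
      constructor
      · rintro ⟨h3, h4⟩
        exact ⟨h3, fun h5 => h4 (Or.inr h5)⟩
      · rintro ⟨h3, h4⟩
        refine ⟨h3, ?_⟩
        rintro (h5 | h5)
        · exact hpf (h5 ▸ h3)
        · exact h4 h5
    · rw [pf_pow p a m hp hm (by omega), Finset.mem_insert]
      constructor
      · rintro ⟨h3, h4⟩
        refine ⟨?_, fun h5 => h4 (Or.inr h5)⟩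
        rcases h3 with h5 | h5
        · exact absurd (Or.inl h5) h4
        · exact h5
      · rintro ⟨h3, h4⟩
        refine ⟨Or.inr h3, ?_⟩
        rintro (h5 | h5)
        · exact hpf (h5 ▸ h3)
        · exact h4 h5
  rw [h1, h2]
  have h4 : ∏ q ∈ m.primeFactors \ P, sloc q ((p ^ a * m).factorization q) = ∏ q ∈ m.primeFactors \ P, sloc q (m.factorization q) := by
    apply prod_congr rfl
    intro q hq
    rw [fac_other p a m q hp hm (fun h => hpf (h ▸ (mem_sdiff.1 hq).1))]
  rw [h4]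
  ring

/-- the coefficients -/
noncomputable def b0 (Q p : ℕ) : ℝ := if p ∣ Q then (p : ℝ) / (p - 1) else be p
noncomputable def b1 (Q p : ℕ) : ℝ := if p ∣ Q then -1 / ((p : ℝ) - 1) else 2 / ((p : ℝ) - 1) ^ 2
noncomputable def b2 (Q p : ℕ) : ℝ := if p ∣ Q then 0 else -1 / ((p : ℝ) - 1) ^ 2

lemma sloc_closed (p a : ℕ) (hp : 2 ≤ p) : sloc p a = (p - (1 / (p : ℝ)) ^ a) / (p - 1) := by
  have h1 : (2 : ℝ) ≤ p := by exact_mod_cast hp
  have h2 : (p : ℝ) - 1 ≠ 0 := by linarith
  unfold sloc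
  induction a with
  | zero => simp [div_self h2]
  | succ a ih =>
    rw [sum_range_succ, ih, pow_succ]
    field_simp
    ring

lemma local_id (Q p a m : ℕ) (hp : p.Prime) (hpm : ¬ p ∣ m) :
    phl Q p (p ^ a * m) = b0 Q p * sloc p a + b1 Q p * (if 1 ≤ a then sloc p (a - 1) else 0) +
      b2 Q p * (if 2 ≤ a then sloc p (a - 2) else 0) := by
  have hp2 := hp.two_le
  have h1 : (2 : ℝ) ≤ p := by exact_mod_cast hp2
  have h2 : (p : ℝ) - 1 ≠ 0 := by linarith
  have h0 : (p : ℝ) ≠ 0 := by linarith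
  have hd : p ∣ p ^ a * m ↔ 1 ≤ a := by
    constructor
    · intro h
      by_contra hcon
      have : a = 0 := by omega
      rw [this, pow_zero, one_mul] at h
      exact hpm h
    · intro h
      exact Dvd.dvd.mul_right (dvd_pow_self p (by omega)) m
  unfold phl b0 b1 b2 al be
  by_cases hQ : p ∣ Q
  · rw [if_pos hQ, if_pos hQ, if_pos hQ, if_pos hQ]
    have e1 : (1 - 1 / (p : ℝ)) = (p - 1) / p := by field_simp
    rw [e1]
    rcases a with _ | a
    · simp [sloc]
    · rw [if_pos (by omega), sloc_closed p _ hp2, sloc_closed p _ hp2, Nat.add_sub_cancel, pow_succ]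
      field_simp
      ring
  · rw [if_neg hQ, if_neg hQ, if_neg hQ, if_neg hQ]
    rcases a with _ | _ | a
    · rw [if_neg (fun h => by have := hd.1 h; omega), if_neg (by omega), if_neg (by omega)]
      simp [sloc]
    · rw [if_pos (hd.2 (by omega)), if_pos (by omega), if_neg (by omega), sloc_closed p _ hp2, sloc_closed p _ hp2]
      norm_num
      field_simp
      ring
    · rw [if_pos (hd.2 (by omega)), if_pos (by omega), if_pos (by omega), sloc_closed p _ hp2, sloc_closed p _ hp2,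
        sloc_closed p _ hp2, show a + 1 + 1 - 1 = a + 1 by omega, show a + 1 + 1 - 2 = a by omega]
      obtain ⟨w, hw⟩ : ∃ w, w = (1 / (p : ℝ)) ^ a := ⟨_, rfl⟩
      have w1 : (1 / (p : ℝ)) ^ (a + 1) = w * (1 / p) := by rw [pow_succ, hw]
      have w2 : (1 / (p : ℝ)) ^ (a + 1 + 1) = w * (1 / p) * (1 / p) := by rw [pow_succ, w1]
      rw [w2, w1, ← hw]
      field_simp
      ring

/-- one more prime -/
lemma Gm_step (Q : ℕ) (P : Finset ℕ) (hP : ∀ q ∈ P, q.Prime) (p : ℕ) (hp : p.Prime) (hpP : p ∉ P) (j : ℕ) (hj : j ≠ 0) :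
    Gm Q (insert p P) j = b0 Q p * Gm Q P j + b1 Q p * (if p ∣ j then Gm Q P (j / p) else 0) +
      b2 Q p * (if p ^ 2 ∣ j then Gm Q P (j / p ^ 2) else 0) := by
  obtain ⟨a, m, hpm, rfl⟩ : ∃ a m : ℕ, ¬ p ∣ m ∧ j = p ^ a * m := by
    obtain ⟨a, m, h1, h2⟩ := Nat.exists_eq_pow_mul_and_not_dvd hj p hp.ne_one
    exact ⟨a, m, h1, h2⟩
  have hm : m ≠ 0 := fun h => hpm (h ▸ dvd_zero p)
  have hpp : 0 < p := hp.pos
  rw [Gm_insert Q P hP p a m hp hpP hm hpm, Gm_pow Q P hP p a m hp hpP hm hpm, local_id Q p a m hp hpm]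
  have e1 : (if p ∣ p ^ a * m then Gm Q P (p ^ a * m / p) else 0) = (if 1 ≤ a then sloc p (a - 1) else 0) * Gm Q P m := by
    by_cases h : 1 ≤ a
    · rw [if_pos (Dvd.dvd.mul_right (dvd_pow_self p (by omega)) m), if_pos h]
      have : p ^ a * m / p = p ^ (a - 1) * m := by
        rw [Nat.div_eq_iff_eq_mul_left hpp (Dvd.dvd.mul_right (dvd_pow_self p (by omega)) m)]
        calc p ^ a * m = p ^ (a - 1 + 1) * m := by rw [Nat.sub_add_cancel h]
          _ = _ := by rw [pow_succ]; ring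
      rw [this, Gm_pow Q P hP p (a - 1) m hp hpP hm hpm]
    · have ha : a = 0 := by omega
      rw [ha, pow_zero, one_mul, if_neg hpm, if_neg (by omega), zero_mul]
  have e2 : (if p ^ 2 ∣ p ^ a * m then Gm Q P (p ^ a * m / p ^ 2) else 0) = (if 2 ≤ a then sloc p (a - 2) else 0) * Gm Q P m := by
    by_cases h : 2 ≤ a
    · have hdv : p ^ 2 ∣ p ^ a * m := Dvd.dvd.mul_right (pow_dvd_pow p h) m
      rw [if_pos hdv, if_pos h]
      have : p ^ a * m / p ^ 2 = p ^ (a - 2) * m := by
        rw [Nat.div_eq_iff_eq_mul_left (by positivity) hdv]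
        calc p ^ a * m = p ^ (a - 2 + 2) * m := by rw [Nat.sub_add_cancel h]
          _ = _ := by rw [pow_add]; ring
      rw [this, Gm_pow Q P hP p (a - 2) m hp hpP hm hpm]
    · rw [if_neg h, zero_mul, if_neg]
      intro hdv
      have ha : a = 0 ∨ a = 1 := by omega
      rcases ha with ha | ha
      · rw [ha, pow_zero, one_mul] at hdv
        exact hpm ((dvd_pow_self p (by norm_num)).trans hdv)
      · rw [ha, pow_one, pow_two] at hdv
        exact hpm (Nat.dvd_of_mul_dvd_mul_left hpp hdv)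
  rw [e1, e2]
  ring

end Pool.Agent.Run7.h27.FG
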