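import Pool.Agent.Run7.h27.FG.Sum

set_option autoImplicit false

/-!
Bounds for `lamQ m`, the product of `1 + 4 p ^ (-2/3)` over the primes `p` dividing `m`: the deterministic part.
-/

namespace Pool.Agent.Run7.h27.FG

open Finset

/-- the number of the prime factors `p` of `m` with `2 ^ i ≤ p < 2 ^ (i + 1)` -/
def nP (m i : ℕ) : ℕ := (m.primeFactors.filter (fun p => Nat.log 2 p = i)).card

lemma nP_le_pow (m i : ℕ) : nP m i ≤ 2 ^ i := by
  unfold nP
  have h1 : m.primeFactors.filter (fun p => Nat.log 2 p = i) ⊆ Ico (2 ^ i) (2 ^ (i + 1)) := by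
    intro p hp
    rw [mem_filter] at hp
    have hp0 : p ≠ 0 := (Nat.prime_of_mem_primeFactors hp.1).ne_zero
    rw [mem_Ico]
    constructor
    · rw [← hp.2]
      exact Nat.pow_log_le_self 2 hp0
    · rw [← hp.2]
      exact Nat.lt_pow_succ_log_self (by norm_num) p
  refine (card_le_card h1).trans ?_
  rw [Nat.card_Ico, pow_succ]
  omega

lemma two_pow_card (m : ℕ) (hm : m ≠ 0) : 2 ^ m.primeFactors.card ≤ m := by
  have h1 : ∏ p ∈ m.primeFactors, p ∣ m := Nat.prod_primeFactors_dvd m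
  have h2 : ∏ _p ∈ m.primeFactors, 2 ≤ ∏ p ∈ m.primeFactors, p :=
    prod_le_prod' fun p hp => (Nat.prime_of_mem_primeFactors hp).two_le
  rw [prod_const] at h2
  exact h2.trans (Nat.le_of_dvd (Nat.pos_of_ne_zero hm) h1)

lemma lam_le_exp (m : ℕ) : lamQ m ≤ Real.exp (4 * ∑ p ∈ m.primeFactors, (p : ℝ) ^ (-(2 / 3) : ℝ)) := by
  unfold lamQ
  rw [mul_sum, Real.exp_sum]
  apply prod_le_prod
  · intro p _
    have : (0 : ℝ) ≤ (p : ℝ) ^ (-(2 / 3) : ℝ) := Real.rpow_nonneg (Nat.cast_nonneg _) _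
    linarith
  · intro p _
    have := Real.add_one_le_exp (4 * (p : ℝ) ^ (-(2 / 3) : ℝ))
    linarith

lemma sum_le_of (m i₀ : ℕ) (h : ∀ i : ℕ, i₀ ≤ i → nP m i ^ 2 ≤ 2 ^ i) :
    ∑ p ∈ m.primeFactors, (p : ℝ) ^ (-(2 / 3) : ℝ) ≤ 4 * ((2 : ℝ) ^ i₀) ^ (1 / 3 : ℝ) + 10 := by
  obtain ⟨c, hc⟩ : ∃ c : ℝ, c = (2 : ℝ) ^ (1 / 3 : ℝ) := ⟨_, rfl⟩
  obtain ⟨b, hb⟩ : ∃ b : ℝ, b = (2 : ℝ) ^ (-(1 / 6) : ℝ) := ⟨_, rfl⟩
  have hc0 : 0 < c := by rw [hc]; positivity
  have hb0 : 0 < b := by rw [hb]; positivity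
  have hc3 : c ^ 3 = 2 := by
    rw [hc, ← Real.rpow_natCast, ← Real.rpow_mul (by norm_num)]
    norm_num
  have hb6 : b ^ 6 = 1 / 2 := by
    rw [hb, ← Real.rpow_natCast, ← Real.rpow_mul (by norm_num)]
    norm_num
  have hc1 : 5 / 4 ≤ c := by
    by_contra hcon
    push Not at hcon
    have := pow_lt_pow_left₀ hcon hc0.le (show 3 ≠ 0 by norm_num)
    norm_num [hc3] at this
  have hb1 : b ≤ 9 / 10 := by
    by_contra hcon
    push Not at hcon
    have := pow_lt_pow_left₀ hcon (by norm_num : (0 : ℝ) ≤ 9 / 10) (show 6 ≠ 0 by norm_num)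
    norm_num [hb6] at this
  have hci : ∀ i : ℕ, ((2 : ℝ) ^ i) ^ (1 / 3 : ℝ) = c ^ i := by
    intro i
    rw [hc, ← Real.rpow_natCast, ← Real.rpow_natCast, ← Real.rpow_mul (by norm_num), ← Real.rpow_mul (by norm_num)]
    congr 1
    ring
  obtain ⟨L, hL⟩ : ∃ L, L = Nat.log 2 m + 1 := ⟨_, rfl⟩
  have h1 : ∑ p ∈ m.primeFactors, (p : ℝ) ^ (-(2 / 3) : ℝ) =
      ∑ i ∈ range L, ∑ p ∈ m.primeFactors.filter (fun p => Nat.log 2 p = i), (p : ℝ) ^ (-(2 / 3) : ℝ) := by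
    rw [sum_fiberwise_of_maps_to]
    intro p hp
    rw [mem_range, hL]
    have h2 : p ≤ m := Nat.le_of_dvd (Nat.pos_of_ne_zero (Nat.mem_primeFactors.1 hp).2.2) (Nat.dvd_of_mem_primeFactors hp)
    exact Nat.lt_succ_of_le (Nat.log_mono_right h2)
  have h2 : ∀ i ∈ range L, ∑ p ∈ m.primeFactors.filter (fun p => Nat.log 2 p = i), (p : ℝ) ^ (-(2 / 3) : ℝ) ≤
      (if i < i₀ then c ^ i else 0) + b ^ i := by
    intro i _
    have h3 : ∑ p ∈ m.primeFactors.filter (fun p => Nat.log 2 p = i), (p : ℝ) ^ (-(2 / 3) : ℝ) ≤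
        nP m i * ((2 : ℝ) ^ i) ^ (-(2 / 3) : ℝ) := by
      unfold nP
      rw [← nsmul_eq_mul, ← sum_const]
      apply sum_le_sum
      intro p hp
      rw [mem_filter] at hp
      have hp0 : p ≠ 0 := (Nat.prime_of_mem_primeFactors hp.1).ne_zero
      apply Real.rpow_le_rpow_of_nonpos (by positivity) _ (by norm_num)
      have : 2 ^ i ≤ p := by
        rw [← hp.2]
        exact Nat.pow_log_le_self 2 hp0
      exact_mod_cast this
    have hpow : (0 : ℝ) < (2 : ℝ) ^ i := by positivity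
    refine h3.trans ?_
    split_ifs with hi
    · have h4 : (nP m i : ℝ) ≤ (2 : ℝ) ^ i := by exact_mod_cast nP_le_pow m i
      have h5 : (2 : ℝ) ^ i * ((2 : ℝ) ^ i) ^ (-(2 / 3) : ℝ) = c ^ i := by
        rw [← hci]
        nth_rw 1 [← Real.rpow_one ((2 : ℝ) ^ i)]
        rw [← Real.rpow_add hpow]
        norm_num
      have h6 : (nP m i : ℝ) * ((2 : ℝ) ^ i) ^ (-(2 / 3) : ℝ) ≤ (2 : ℝ) ^ i * ((2 : ℝ) ^ i) ^ (-(2 / 3) : ℝ) :=
        mul_le_mul_of_nonneg_right h4 (by positivity)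
      have h7 : 0 < b ^ i := by positivity
      linarith
    · have h4 : (nP m i : ℝ) ≤ ((2 : ℝ) ^ i) ^ (1 / 2 : ℝ) := by
        rw [← Real.sqrt_eq_rpow]
        apply Real.le_sqrt_of_sq_le
        exact_mod_cast h i (by omega)
      have h5 : ((2 : ℝ) ^ i) ^ (1 / 2 : ℝ) * ((2 : ℝ) ^ i) ^ (-(2 / 3) : ℝ) = b ^ i := by
        rw [← Real.rpow_add hpow, hb, ← Real.rpow_natCast, ← Real.rpow_natCast, ← Real.rpow_mul (by norm_num),
          ← Real.rpow_mul (by norm_num)]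
        congr 1
        ring
      rw [zero_add, ← h5]
      exact mul_le_mul_of_nonneg_right h4 (by positivity)
  rw [h1]
  refine (sum_le_sum h2).trans ?_
  rw [sum_add_distrib]
  have h3 : ∑ i ∈ range L, (if i < i₀ then c ^ i else 0) ≤ 4 * c ^ i₀ := by
    have h4 : ∑ i ∈ range L, (if i < i₀ then c ^ i else 0) ≤ ∑ i ∈ range i₀, c ^ i := by
      rw [← sum_filter]
      apply sum_le_sum_of_subset_of_nonneg
      · intro i hi
        rw [mem_filter] at hi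
        rw [mem_range]
        exact hi.2
      · intro i _ _
        positivity
    refine h4.trans ?_
    rw [geom_sum_eq (by linarith)]
    rw [div_le_iff₀ (by linarith)]
    have : 0 < c ^ i₀ := by positivity
    nlinarith
  have h4 : ∑ i ∈ range L, b ^ i ≤ 10 := by
    have h5 : ∑ i ∈ range L, b ^ i = (1 - b ^ L) / (1 - b) := by
      rw [geom_sum_eq (by linarith), ← neg_div_neg_eq]
      congr 1 <;> ring
    rw [h5, div_le_iff₀ (by linarith)]
    have : 0 < b ^ L := by positivity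
    linarith
  rw [hci]
  linarith

end Pool.Agent.Run7.h27.FG
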