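import Pool.Agent.Run7.h27.FG.Lam
import Pool.Agent.Run7.h582.FM.Ae
import Pool.Agent.N193.PS.Frac
import Pool.Agent.N384.MQ.Flat

set_option autoImplicit false
set_option maxHeartbeats 4000000

/-!
`lamQ m` is at most a small power of `log N` for all the integers `m` near almost all the members of families of reals with small
exponential sums.
-/

namespace Pool.Agent.Run7.h27.FG

open Finset Filter
open Pool.Agent.H469R2.NK (e norm_e e_add)
open Pool.Agent.Run7.h844.RP (ES)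

open Classical in
/-- the multiples of `d` -/
lemma div_bound (B V : ℕ) (δ : ℝ) (hδ : 0 < δ) : ∃ N₀ : ℕ, ∀ N : ℕ, N₀ ≤ N → ∀ (ι : Type) (s : Finset ι) (y : ι → ℝ),
    ES B δ V N s y → ∀ (r : ℤ) (d : ℕ), 1 ≤ d → (d : ℝ) ≤ Real.log N ^ V →
    ((s.filter (fun i => (d : ℤ) ∣ ⌊y i⌋ + r)).card : ℝ) ≤ 72 * s.card / d := by
  obtain ⟨n, hn⟩ := exists_nat_ge (((B + V : ℕ) : ℝ) / δ)
  obtain ⟨N₀, h0⟩ := eventually_atTop.1 ((Pool.Agent.N384.MQ.ev_log_ge 1).and (Pool.Agent.N384.MQ.ev_log_pow (V + n) 1))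
  refine ⟨N₀, fun N hN ι s y hs r d hd1 hdV => ?_⟩
  obtain ⟨hL1, hLN⟩ := h0 N hN
  obtain ⟨L, hL⟩ : ∃ L, L = Real.log (N : ℝ) := ⟨_, rfl⟩
  rw [← hL] at hL1 hLN hdV
  have hL0 : 0 < L := by linarith
  have hd0 : (0 : ℝ) < d := by exact_mod_cast hd1
  have hc0 : (0 : ℝ) ≤ s.card := Nat.cast_nonneg _
  by_cases hd8 : d < 8
  · have h1 : ((s.filter (fun i => (d : ℤ) ∣ ⌊y i⌋ + r)).card : ℝ) ≤ s.card := by exact_mod_cast card_filter_le _ _
    refine h1.trans ?_
    rw [le_div_iff₀ hd0]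
    have h2 : (d : ℝ) ≤ 8 := by exact_mod_cast hd8.le
    nlinarith
  push Not at hd8
  obtain ⟨Q, hQ⟩ : ∃ Q, Q = d / 8 := ⟨_, rfl⟩
  have hQ1 : 1 ≤ Q := by omega
  have hQd : 8 * Q ≤ d := by omega
  have hdQ : d ≤ 16 * Q := by omega
  have hQ0 : (0 : ℝ) < Q := by exact_mod_cast hQ1
  obtain ⟨E, hE⟩ : ∃ E : ℝ, E = s.card * (2 / L ^ V) := ⟨_, rfl⟩
  have hE0 : 0 ≤ E := by rw [hE]; positivity
  have key := Pool.Agent.N193.PS.near_int s (fun i => (y i + r) / d) Q hQ1 E (fun m hm0 hm => by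
    have h1 : ∑ i ∈ s, e (m * ((y i + r) / d)) = e ((m : ℝ) / d * r) * ∑ i ∈ s, e ((m : ℝ) / d * y i) := by
      rw [mul_sum]
      refine sum_congr rfl fun i _ => ?_
      rw [← e_add]
      congr 1
      field_simp
      ring
    rw [h1, norm_mul, norm_e, one_mul]
    have hmr : (m : ℝ) ≠ 0 := by exact_mod_cast hm0
    have hmabs : (1 : ℝ) ≤ |(m : ℝ)| := by
      have : (1 : ℤ) ≤ |m| := Int.one_le_abs hm0
      exact_mod_cast this
    have hmd : |(m : ℝ)| ≤ d := by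
      have : |m| ≤ (d : ℤ) := by omega
      exact_mod_cast this
    have ht1 : |(m : ℝ) / d| ≤ 1 := by
      rw [abs_div, abs_of_pos hd0, div_le_one hd0]
      exact hmd
    have ht2 : 1 / L ^ V ≤ |(m : ℝ) / d| := by
      rw [abs_div, abs_of_pos hd0]
      apply div_le_div₀ (by positivity) hmabs hd0 hdV
    have h2 := hs ((m : ℝ) / d) (div_ne_zero hmr hd0.ne') (ht1.trans (one_le_pow₀ (by rw [← hL]; exact hL1)))
    rw [← hL] at h2
    refine h2.trans ?_
    rw [hE]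
    apply mul_le_mul_of_nonneg_left _ hc0
    have h3 : L ^ n ≤ |(m : ℝ) / d| * N := by
      calc L ^ n = 1 / L ^ V * L ^ (V + n) := by rw [pow_add]; field_simp
        _ ≤ |(m : ℝ) / d| * N := by
          apply mul_le_mul ht2 _ (by positivity) (abs_nonneg _)
          linarith
    have h4 : (|(m : ℝ) / d| * N) ^ (-δ) ≤ (L ^ n) ^ (-δ) := by
      apply Real.rpow_le_rpow_of_nonpos (by positivity) h3
      linarith
    have h5 : L ^ B * (L ^ n) ^ (-δ) ≤ 1 / L ^ V := by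
      have e1 : (L ^ n) ^ (-δ) = L ^ (-(n * δ)) := by
        rw [← Real.rpow_natCast, ← Real.rpow_mul hL0.le]
        congr 1
        ring
      have e2 : L ^ (-(n * δ)) ≤ L ^ (-((B + V : ℕ) : ℝ)) := by
        apply Real.rpow_le_rpow_of_exponent_le hL1
        rw [div_le_iff₀ hδ] at hn
        linarith
      have e3 : L ^ (-((B + V : ℕ) : ℝ)) = 1 / (L ^ B * L ^ V) := by
        rw [Real.rpow_neg hL0.le, Real.rpow_natCast, pow_add, one_div]
      rw [e1]
      calc L ^ B * L ^ (-(n * δ)) ≤ L ^ B * (1 / (L ^ B * L ^ V)) := by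
            apply mul_le_mul_of_nonneg_left _ (by positivity)
            rw [← e3]
            exact e2
        _ = 1 / L ^ V := by field_simp
    have h6 : L ^ B * (|(m : ℝ) / d| * N) ^ (-δ) ≤ 1 / L ^ V :=
      (mul_le_mul_of_nonneg_left h4 (by positivity)).trans h5
    calc L ^ B * (|(m : ℝ) / d| * N) ^ (-δ) + 1 / L ^ V ≤ 1 / L ^ V + 1 / L ^ V := add_le_add h6 le_rfl
      _ = 2 / L ^ V := by ring) (1 / d) (by
    have : (8 * Q : ℝ) ≤ d := by exact_mod_cast hQd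
    rw [mul_one_div, ← mul_div_assoc, div_le_one hd0]
    exact this)
  have hsub : s.filter (fun i => (d : ℤ) ∣ ⌊y i⌋ + r) ⊆
      s.filter (fun i => Int.fract ((y i + r) / d) < 1 / d ∨ 1 - 1 / (d : ℝ) < Int.fract ((y i + r) / d)) := by
    intro i hi
    rw [mem_filter] at hi ⊢
    refine ⟨hi.1, Or.inl ?_⟩
    obtain ⟨k, hk⟩ := hi.2
    have h1 : (y i + r) / d = (k : ℝ) + Int.fract (y i) / d := by
      have h2 : (y i : ℝ) = ⌊y i⌋ + Int.fract (y i) := (Int.floor_add_fract _).symm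
      have h3 : ((⌊y i⌋ + r : ℤ) : ℝ) = ((d : ℤ) * k : ℤ) := by rw [hk]
      push_cast at h3
      rw [div_eq_iff hd0.ne']
      have h4 : ((k : ℝ) + Int.fract (y i) / d) * d = d * k + Int.fract (y i) := by
        field_simp
      rw [h4, ← h3]
      linarith
    have h5 : 0 ≤ Int.fract (y i) / d := div_nonneg (Int.fract_nonneg _) hd0.le
    have h6 : Int.fract (y i) / d < 1 / d := div_lt_div_of_pos_right (Int.fract_lt_one _) hd0
    have h7 : (1 : ℝ) / d ≤ 1 := by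
      rw [div_le_one hd0]
      exact_mod_cast hd1
    rw [h1, Int.fract_intCast_add, Int.fract_eq_self.2 ⟨h5, by linarith⟩]
    exact h6
  have h1 : ((s.filter (fun i => (d : ℤ) ∣ ⌊y i⌋ + r)).card : ℝ) ≤ 4 * (s.card / Q) + 4 * |E| := by
    refine le_trans ?_ key
    exact_mod_cast card_le_card hsub
  refine h1.trans ?_
  rw [abs_of_nonneg hE0, hE]
  have h2 : (s.card : ℝ) / Q ≤ 16 * (s.card / d) := by
    rw [← mul_div_assoc, div_le_div_iff₀ hQ0 hd0]
    have : (d : ℝ) ≤ 16 * Q := by exact_mod_cast hdQ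
    nlinarith
  have h3 : (s.card : ℝ) * (2 / L ^ V) ≤ 2 * (s.card / d) := by
    rw [← mul_div_assoc, ← mul_div_assoc, mul_comm (s.card : ℝ) 2]
    exact div_le_div_of_nonneg_left (by positivity) hd0 hdV
  have h4 : 72 * (s.card : ℝ) / d = 72 * (s.card / d) := by ring
  rw [h4]
  linarith

open Classical in
/-- many prime factors of the same size -/
lemma class_bound {ι : Type} (s : Finset ι) (m : ι → ℕ) (Cc D : ℝ)
    (hdiv : ∀ d : ℕ, 1 ≤ d → (d : ℝ) ≤ D → ((s.filter (fun ω => d ∣ m ω)).card : ℝ) ≤ Cc / d) (i j n₀ : ℕ)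
    (hD : ((2 : ℝ) ^ (i + 1)) ^ j ≤ D) :
    ((s.filter (fun ω => n₀ ≤ nP (m ω) i)).card : ℝ) * ((n₀ + 1 - j : ℕ) : ℝ) ^ j ≤ Cc := by
  obtain ⟨P, hP⟩ : ∃ P, P = (Ico (2 ^ i) (2 ^ (i + 1))).filter Nat.Prime := ⟨_, rfl⟩
  have hC0 : 0 ≤ Cc := by
    have h1 := hdiv 1 le_rfl (by
      refine le_trans ?_ hD
      rw [Nat.cast_one]
      exact one_le_pow₀ (one_le_pow₀ (by norm_num)))
    have h2 : (0 : ℝ) ≤ ((s.filter (fun ω => 1 ∣ m ω)).card : ℝ) := Nat.cast_nonneg _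
    rw [Nat.cast_one, div_one] at h1
    linarith
  have hPc : P.card ≤ 2 ^ i := by
    rw [hP]
    refine (card_filter_le _ _).trans ?_
    rw [Nat.card_Ico, pow_succ]
    omega
  -- the subsets
  have h1 : ∀ ω ∈ s.filter (fun ω => n₀ ≤ nP (m ω) i), n₀.choose j ≤
      ((powersetCard j P).filter (fun S => (∏ p ∈ S, p) ∣ m ω)).card := by
    intro ω hω
    rw [mem_filter] at hω
    have h2 : n₀.choose j ≤ (nP (m ω) i).choose j := Nat.choose_le_choose j hω.2
    refine h2.trans ?_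
    unfold nP
    rw [← card_powersetCard]
    apply card_le_card
    intro S hS
    rw [mem_powersetCard] at hS
    rw [mem_filter, mem_powersetCard]
    refine ⟨⟨fun p hp => ?_, hS.2⟩, ?_⟩
    · have h3 := hS.1 hp
      rw [mem_filter] at h3
      have hp0 : p ≠ 0 := (Nat.prime_of_mem_primeFactors h3.1).ne_zero
      rw [hP, mem_filter, mem_Ico]
      refine ⟨⟨?_, ?_⟩, Nat.prime_of_mem_primeFactors h3.1⟩
      · rw [← h3.2]
        exact Nat.pow_log_le_self 2 hp0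
      · rw [← h3.2]
        exact Nat.lt_pow_succ_log_self (by norm_num) p
    · apply prod_primes_dvd
      · intro p hp
        exact (Nat.prime_of_mem_primeFactors (mem_filter.1 (hS.1 hp)).1).prime
      · intro p hp
        exact Nat.dvd_of_mem_primeFactors (mem_filter.1 (hS.1 hp)).1
  have h2 : ((s.filter (fun ω => n₀ ≤ nP (m ω) i)).card : ℝ) * n₀.choose j ≤
      ∑ S ∈ powersetCard j P, ((s.filter (fun ω => (∏ p ∈ S, p) ∣ m ω)).card : ℝ) := by
    have h3 : (s.filter (fun ω => n₀ ≤ nP (m ω) i)).card * n₀.choose j ≤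
        ∑ S ∈ powersetCard j P, (s.filter (fun ω => (∏ p ∈ S, p) ∣ m ω)).card := by
      calc (s.filter (fun ω => n₀ ≤ nP (m ω) i)).card * n₀.choose j
          = ∑ ω ∈ s.filter (fun ω => n₀ ≤ nP (m ω) i), n₀.choose j := by rw [sum_const, smul_eq_mul]
        _ ≤ ∑ ω ∈ s.filter (fun ω => n₀ ≤ nP (m ω) i),
            ((powersetCard j P).filter (fun S => (∏ p ∈ S, p) ∣ m ω)).card := sum_le_sum h1
        _ ≤ ∑ ω ∈ s, ((powersetCard j P).filter (fun S => (∏ p ∈ S, p) ∣ m ω)).card :=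
            sum_le_sum_of_subset (filter_subset _ _)
        _ = ∑ S ∈ powersetCard j P, (s.filter (fun ω => (∏ p ∈ S, p) ∣ m ω)).card := by
            simp only [card_filter]
            rw [sum_comm]
    exact_mod_cast h3
  have hpow : (0 : ℝ) < ((2 : ℝ) ^ i) ^ j := by positivity
  have h3 : ∀ S ∈ powersetCard j P, ((s.filter (fun ω => (∏ p ∈ S, p) ∣ m ω)).card : ℝ) ≤ Cc / ((2 : ℝ) ^ i) ^ j := by
    intro S hS
    rw [mem_powersetCard] at hS
    have h4 : (2 ^ i) ^ j ≤ ∏ p ∈ S, p := by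
      rw [← hS.2]
      apply pow_card_le_prod
      intro p hp
      have := hS.1 hp
      rw [hP, mem_filter, mem_Ico] at this
      exact this.1.1
    have h5 : ∏ p ∈ S, p ≤ (2 ^ (i + 1)) ^ j := by
      rw [← hS.2]
      apply prod_le_pow_card
      intro p hp
      have := hS.1 hp
      rw [hP, mem_filter, mem_Ico] at this
      exact this.1.2.le
    have h6 : (((2 : ℝ) ^ i) ^ j) ≤ ((∏ p ∈ S, p : ℕ) : ℝ) := by exact_mod_cast h4
    have h7 : ((∏ p ∈ S, p : ℕ) : ℝ) ≤ D := by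
      refine le_trans ?_ hD
      exact_mod_cast h5
    have h8 : 1 ≤ ∏ p ∈ S, p := by
      have : (0 : ℝ) < ((∏ p ∈ S, p : ℕ) : ℝ) := lt_of_lt_of_le hpow h6
      exact_mod_cast this
    refine (hdiv _ h8 h7).trans ?_
    exact div_le_div_of_nonneg_left hC0 hpow h6
  have h4 := h2.trans (sum_le_sum h3)
  rw [sum_const, card_powersetCard, nsmul_eq_mul] at h4
  have h5 : ((P.card.choose j : ℕ) : ℝ) ≤ ((2 : ℝ) ^ i) ^ j / j.factorial := by
    have h6 : ((P.card.choose j : ℕ) : ℝ) ≤ (((2 ^ i : ℕ).choose j : ℕ) : ℝ) := by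
      exact_mod_cast Nat.choose_le_choose j hPc
    refine h6.trans ((Nat.choose_le_pow_div (α := ℝ) j (2 ^ i)).trans (le_of_eq ?_))
    push_cast
    rfl
  have h6 := Nat.pow_le_choose (α := ℝ) j n₀
  have hf : (0 : ℝ) < j.factorial := by exact_mod_cast Nat.factorial_pos j
  have hcard : (0 : ℝ) ≤ ((s.filter (fun ω => n₀ ≤ nP (m ω) i)).card : ℝ) := Nat.cast_nonneg _
  have h7 : ((s.filter (fun ω => n₀ ≤ nP (m ω) i)).card : ℝ) * (((n₀ + 1 - j : ℕ) : ℝ) ^ j / j.factorial) ≤ Cc / j.factorial := by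
    refine (mul_le_mul_of_nonneg_left h6 hcard).trans (h4.trans ?_)
    calc ((P.card.choose j : ℕ) : ℝ) * (Cc / ((2 : ℝ) ^ i) ^ j) ≤ (((2 : ℝ) ^ i) ^ j / j.factorial) * (Cc / ((2 : ℝ) ^ i) ^ j) :=
          mul_le_mul_of_nonneg_right h5 (by positivity)
      _ = Cc / j.factorial := by field_simp
  rw [← mul_div_assoc, div_le_div_iff_of_pos_right hf] at h7
  exact h7

end Pool.Agent.Run7.h27.FG
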