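import Pool.Agent.Run7.h27.FG.Lam2

set_option autoImplicit false
set_option maxHeartbeats 4000000

/-!
`lamQ m` is at most a small power of `log N` for all the integers `m` near almost all the members of families of reals with small
exponential sums.
-/

namespace Pool.Agent.Run7.h27.FG

open Finset Filter
open Pool.Agent.Run7.h844.RP (ES)

/-- one dyadic range of primes -/
lemma one_class (U V : ℕ) (hV : V = 4 * (U + 2)) (L t : ℝ) (ht : t = Real.log L) (hL : 1 ≤ L) (ht1 : 256 * (V : ℝ) ^ 4 + 2 ≤ t)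
    {ι : Type} (s : Finset ι) (m : ι → ℕ)
    (hdiv : ∀ d : ℕ, 1 ≤ d → (d : ℝ) ≤ L ^ V → ((s.filter (fun ω => d ∣ m ω)).card : ℝ) ≤ 72 * s.card / d) (i : ℕ) (hi5 : 5 ≤ i)
    (hi1 : t ^ 5 ≤ ((2 : ℝ) ^ i) ^ 2) (hi2 : (2 : ℝ) ^ i ≤ 16 * L ^ 2) :
    ((s.filter (fun ω => 2 ^ i < nP (m ω) i ^ 2)).card : ℝ) ≤ 72 * s.card / L ^ U := by
  have hL0 : 0 < L := by linarith
  have hl2 := Real.log_two_gt_d9
  have hl2' := Real.log_two_lt_d9
  have hl20 : 0 < Real.log 2 := by linarith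
  have ht0 : 0 < t := by
    have : (0 : ℝ) ≤ (V : ℝ) ^ 4 := by positivity
    linarith
  have ht2 : 2 ≤ t := by
    have : (0 : ℝ) ≤ (V : ℝ) ^ 4 := by positivity
    linarith
  obtain ⟨j, hj⟩ : ∃ j, j = ⌊V * t / ((i + 1) * Real.log 2)⌋₊ := ⟨_, rfl⟩
  obtain ⟨x, hx⟩ : ∃ x, x = √((2 : ℝ) ^ i) := ⟨_, rfl⟩
  have hx0 : 0 < x := by rw [hx]; positivity
  have hxx : x * x = (2 : ℝ) ^ i := by rw [hx]; exact Real.mul_self_sqrt (by positivity)
  have hi0 : (0 : ℝ) < (i + 1) * Real.log 2 := by positivity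
  have hquo : 0 ≤ V * t / ((i + 1) * Real.log 2) := by positivity
  have hj1 : (j : ℝ) ≤ V * t / ((i + 1) * Real.log 2) := by rw [hj]; exact Nat.floor_le hquo
  have hj2 : V * t / ((i + 1) * Real.log 2) < j + 1 := by rw [hj]; exact Nat.lt_floor_add_one _
  -- the divisors are small
  have hD : ((2 : ℝ) ^ (i + 1)) ^ j ≤ L ^ V := by
    have h1 : ((2 : ℝ) ^ (i + 1)) ^ j = Real.exp (((i + 1) * Real.log 2) * j) := by
      rw [← pow_mul]
      have : ((i : ℝ) + 1) * Real.log 2 * j = ((i + 1) * j : ℕ) * Real.log 2 := by push_cast; ring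
      rw [this, Real.exp_nat_mul, Real.exp_log (by norm_num)]
    have h2 : L ^ V = Real.exp (V * t) := by
      rw [ht, Real.exp_nat_mul, Real.exp_log hL0]
    rw [h1, h2]
    apply Real.exp_le_exp.2
    rw [le_div_iff₀ hi0] at hj1
    linarith
  have key := class_bound s m (72 * s.card) (L ^ V) hdiv i j (Nat.sqrt (2 ^ i) + 1) hD
  -- the set
  have hsub : s.filter (fun ω => 2 ^ i < nP (m ω) i ^ 2) ⊆ s.filter (fun ω => Nat.sqrt (2 ^ i) + 1 ≤ nP (m ω) i) := by
    intro ω hω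
    rw [mem_filter] at hω ⊢
    refine ⟨hω.1, ?_⟩
    have := Nat.sqrt_lt'.2 hω.2
    omega
  have hcard : ((s.filter (fun ω => 2 ^ i < nP (m ω) i ^ 2)).card : ℝ) ≤
      ((s.filter (fun ω => Nat.sqrt (2 ^ i) + 1 ≤ nP (m ω) i)).card : ℝ) := by exact_mod_cast card_le_card hsub
  -- the size of the base
  have hV0 : (0 : ℝ) ≤ V := Nat.cast_nonneg _
  have hxt : 4 * (V * t) ≤ x := by
    have h1 : (16 * (V * t) ^ 2) ^ 2 ≤ ((2 : ℝ) ^ i) ^ 2 := by
      refine le_trans ?_ hi1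
      have h2 : (16 * (V * t) ^ 2) ^ 2 = (256 * (V : ℝ) ^ 4) * t ^ 4 := by ring
      rw [h2]
      calc (256 * (V : ℝ) ^ 4) * t ^ 4 ≤ t * t ^ 4 := mul_le_mul_of_nonneg_right (by linarith) (by positivity)
        _ = t ^ 5 := by ring
    have h2 : 16 * (V * t) ^ 2 ≤ (2 : ℝ) ^ i := by
      exact (le_abs_self _).trans (abs_le_of_sq_le_sq h1 (by positivity))
    rw [hx]
    apply Real.le_sqrt_of_sq_le
    calc (4 * (V * t)) ^ 2 = 16 * (V * t) ^ 2 := by ring
      _ ≤ _ := h2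
  have hjx : (j : ℝ) ≤ x / 2 := by
    have h1 : V * t / ((i + 1) * Real.log 2) ≤ 2 * (V * t) := by
      rw [div_le_iff₀ hi0]
      have h2 : (1 : ℝ) ≤ 2 * ((i + 1) * Real.log 2) := by
        have : (5 : ℝ) ≤ i := by exact_mod_cast hi5
        nlinarith
      nlinarith [mul_nonneg hV0 ht0.le]
    linarith
  have hbase : x / 2 ≤ ((Nat.sqrt (2 ^ i) + 1 + 1 - j : ℕ) : ℝ) := by
    have h1 : x < (Nat.sqrt (2 ^ i) : ℝ) + 1 := by
      rw [hx, Real.sqrt_lt' (by positivity)]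
      have h2 := Nat.lt_succ_sqrt' (2 ^ i)
      have h3 : ((2 ^ i : ℕ) : ℝ) < ((Nat.succ (Nat.sqrt (2 ^ i)) ^ 2 : ℕ) : ℝ) := by exact_mod_cast h2
      push_cast at h3
      exact h3
    have h2 : j ≤ Nat.sqrt (2 ^ i) + 1 + 1 := by
      have : (j : ℝ) ≤ ((Nat.sqrt (2 ^ i) + 1 + 1 : ℕ) : ℝ) := by
        push_cast
        linarith
      exact_mod_cast this
    rw [Nat.cast_sub h2]
    push_cast
    linarith
  -- the gain
  have hgain : L ^ U ≤ (x / 2) ^ j := by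
    have h1 : Real.log (x / 2) = (i / 2 - 1) * Real.log 2 := by
      rw [Real.log_div hx0.ne' (by norm_num), hx, Real.log_sqrt (by positivity), Real.log_pow]
      ring
    have h2 : (x / 2) ^ j = Real.exp (j * ((i / 2 - 1) * Real.log 2)) := by
      rw [← h1, Real.exp_nat_mul, Real.exp_log (by positivity)]
    have h3 : L ^ U = Real.exp (U * t) := by
      rw [ht, Real.exp_nat_mul, Real.exp_log hL0]
    rw [h2, h3]
    apply Real.exp_le_exp.2
    have hi5r : (5 : ℝ) ≤ i := by exact_mod_cast hi5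
    have h4 : (i : ℝ) * Real.log 2 ≤ 2 * t + 3 := by
      have e1 : Real.log ((2 : ℝ) ^ i) ≤ Real.log (16 * L ^ 2) := Real.log_le_log (by positivity) hi2
      rw [Real.log_pow, Real.log_mul (by norm_num) (by positivity), Real.log_pow] at e1
      have e2 : Real.log 16 ≤ 3 := by
        have : (16 : ℝ) = 2 ^ 4 := by norm_num
        rw [this, Real.log_pow]
        push_cast
        linarith
      rw [← ht] at e1
      push_cast at e1
      linarith
    have h5 : V * t - (i + 1) * Real.log 2 ≤ j * ((i + 1) * Real.log 2) := by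
      rw [div_lt_iff₀ hi0] at hj2
      nlinarith
    have h6 : (0 : ℝ) ≤ (i : ℝ) / 2 - 1 := by linarith
    have h7 : ((i : ℝ) + 1) / 4 ≤ i / 2 - 1 := by linarith
    -- multiply
    have h8 : (V * t - (i + 1) * Real.log 2) * ((i / 2 - 1) / (i + 1)) ≤ j * ((i / 2 - 1) * Real.log 2) := by
      have e1 := mul_le_mul_of_nonneg_right h5 (show (0 : ℝ) ≤ (i / 2 - 1) / (i + 1) by positivity)
      refine e1.trans (le_of_eq ?_)
      field_simp
    refine le_trans ?_ h8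
    have h9 : (1 : ℝ) / 4 ≤ (i / 2 - 1) / (i + 1) := by
      rw [le_div_iff₀ (by positivity)]
      linarith
    have h10 : V * t * (1 / 4) ≤ V * t * ((i / 2 - 1) / (i + 1)) := mul_le_mul_of_nonneg_left h9 (by positivity)
    have h11 : (i + 1) * Real.log 2 * ((i / 2 - 1) / (i + 1)) = (i / 2 - 1) * Real.log 2 := by
      field_simp
    have hVr : (V : ℝ) = 4 * (U + 2) := by rw [hV]; push_cast; ring
    rw [sub_mul, h11]
    have h12 : V * t * (1 / 4) = U * t + 2 * t := by rw [hVr]; ring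
    nlinarith
  have hLU : 0 < L ^ U := by positivity
  rw [le_div_iff₀ hLU]
  have h1 : (x / 2) ^ j ≤ ((Nat.sqrt (2 ^ i) + 1 + 1 - j : ℕ) : ℝ) ^ j := pow_le_pow_left₀ (by positivity) hbase _
  calc ((s.filter (fun ω => 2 ^ i < nP (m ω) i ^ 2)).card : ℝ) * L ^ U
      ≤ ((s.filter (fun ω => Nat.sqrt (2 ^ i) + 1 ≤ nP (m ω) i)).card : ℝ) * ((Nat.sqrt (2 ^ i) + 1 + 1 - j : ℕ) : ℝ) ^ j :=
        mul_le_mul hcard (hgain.trans h1) hLU.le (Nat.cast_nonneg _)
    _ ≤ 72 * s.card := key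

end Pool.Agent.Run7.h27.FG
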