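import Pool.Agent.Run7.h27.FG.Rs

set_option autoImplicit false

/-!
The smoothed sum of `σ(j)/j` at all real numbers.
-/

namespace Pool.Agent.Run7.h27.FG

open Finset Filter Topology

lemma RR_floor (y : ℝ) : RR y = RR ((⌊y⌋₊ : ℕ) : ℝ) + (y - ⌊y⌋₊) * S1 ⌊y⌋₊ := by
  unfold RR S1
  rw [Nat.floor_natCast, mul_sum, ← sum_add_distrib]
  apply sum_congr rfl
  intro j _
  ring

lemma RR_succ (n : ℕ) : RR (((n + 1 : ℕ)) : ℝ) = RR (n : ℝ) + S1 n := by
  unfold RR S1
  rw [Nat.floor_natCast, Nat.floor_natCast, sum_Icc_succ_top (by omega), sub_self, zero_mul, add_zero, ← sum_add_distrib]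
  apply sum_congr rfl
  intro j _
  push_cast
  ring

lemma RR_steps (a b : ℕ) (hab : a ≤ b) : RR (b : ℝ) = RR (a : ℝ) + ∑ n ∈ Ico a b, S1 n := by
  induction b, hab using Nat.le_induction with
  | base => simp
  | succ b hb ih => rw [RR_succ, ih, sum_Ico_succ_top hb]; ring

lemma sum_ids (a b : ℕ) (hab : a ≤ b) : ∑ n ∈ Ico a b, (n : ℝ) = ((b : ℝ) ^ 2 - b - (a : ℝ) ^ 2 + a) / 2 := by
  induction b, hab using Nat.le_induction with
  | base => simp
  | succ b hb ih => rw [sum_Ico_succ_top hb, ih]; push_cast; ring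

lemma sqrt_log (y : ℝ) (hy : 1 ≤ y) : √y * (1 + Real.log y) ≤ 7 * y ^ (2 / 3 : ℝ) := by
  have h0 : 0 < y := by linarith
  have h1 : Real.log y ≤ y ^ (1 / 6 : ℝ) / (1 / 6) := Real.log_le_rpow_div h0.le (by norm_num)
  have h2 : √y = y ^ (1 / 2 : ℝ) := Real.sqrt_eq_rpow y
  have h3 : y ^ (1 / 2 : ℝ) * y ^ (1 / 6 : ℝ) = y ^ (2 / 3 : ℝ) := by
    rw [← Real.rpow_add h0]
    norm_num
  have h4 : y ^ (1 / 2 : ℝ) ≤ y ^ (2 / 3 : ℝ) := Real.rpow_le_rpow_of_exponent_le hy (by norm_num)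
  have h5 : 0 ≤ y ^ (1 / 2 : ℝ) := by positivity
  rw [h2]
  have h6 := mul_le_mul_of_nonneg_left h1 h5
  have h7 : y ^ (1 / 2 : ℝ) * (y ^ (1 / 6 : ℝ) / (1 / 6)) = 6 * y ^ (2 / 3 : ℝ) := by
    rw [← h3]; ring
  rw [h7] at h6
  linarith

lemma Z2_le : Z2 ≤ 2 := by
  unfold Z2
  have := Real.pi_lt_d2
  have h0 := Real.pi_pos
  nlinarith

lemma Z2_pos : 0 < Z2 := by
  unfold Z2
  have := Real.pi_pos
  positivity

/-- **the smoothed sum** -/
theorem RR_all : ∃ C : ℝ, 0 < C ∧ ∀ y : ℝ, 0 < y → |RR y - MM y| ≤ C * y ^ (2 / 3 : ℝ) := by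
  refine ⟨7 * (50 + 3 * |c1|), by positivity, fun y hy => ?_⟩
  have hc := abs_nonneg c1
  have hyp : 0 < y ^ (2 / 3 : ℝ) := by positivity
  rcases lt_or_ge y 1 with h1 | h1
  · have e0 : RR y = 0 := by
      unfold RR
      rw [Nat.floor_eq_zero.2 h1]
      simp
    rw [e0, zero_sub, abs_neg]
    unfold MM
    have k1 : y ≤ y ^ (2 / 3 : ℝ) := by
      calc y = y ^ (1 : ℝ) := (Real.rpow_one y).symm
        _ ≤ y ^ (2 / 3 : ℝ) := Real.rpow_le_rpow_of_exponent_ge hy h1.le (by norm_num)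
    have k2 : y ^ 2 ≤ y ^ (2 / 3 : ℝ) := by nlinarith
    have k3 : |Real.log y * y ^ (1 / 3 : ℝ)| < 1 / (1 / 3) := Real.abs_log_mul_self_rpow_lt y (1 / 3) hy h1.le (by norm_num)
    have k4 : y = y ^ (2 / 3 : ℝ) * y ^ (1 / 3 : ℝ) := by
      rw [← Real.rpow_add hy]
      norm_num
    have k5 : |y / 2 * (Real.log y + c1)| ≤ y ^ (2 / 3 : ℝ) * (3 / 2 + |c1| / 2) := by
      have e1 : y / 2 * (Real.log y + c1) = y ^ (2 / 3 : ℝ) * (Real.log y * y ^ (1 / 3 : ℝ) / 2) + y / 2 * c1 := by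
        have : y ^ (2 / 3 : ℝ) * (Real.log y * y ^ (1 / 3 : ℝ) / 2) = (y ^ (2 / 3 : ℝ) * y ^ (1 / 3 : ℝ)) / 2 * Real.log y := by ring
        rw [this, ← k4]
        ring
      rw [e1]
      refine (abs_add_le _ _).trans ?_
      rw [abs_mul, abs_of_pos hyp, abs_div, abs_mul (y / 2), abs_of_pos (by positivity : 0 < y / 2)]
      have h3 : |(2 : ℝ)| = 2 := by norm_num
      rw [h3]
      have h4 : |Real.log y * y ^ (1 / 3 : ℝ)| / 2 ≤ 3 / 2 := by linarith
      have h5 := mul_le_mul_of_nonneg_left h4 hyp.le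
      have h6 := mul_le_mul_of_nonneg_right k1 hc
      nlinarith
    have k6 : |Z2 * y ^ 2 / 2| ≤ y ^ (2 / 3 : ℝ) := by
      have hz := Z2_pos
      rw [abs_of_nonneg (by positivity)]
      have := Z2_le
      nlinarith [sq_nonneg y]
    refine (abs_sub _ _).trans ?_
    nlinarith [mul_nonneg hyp.le hc]
  · obtain ⟨M, hM⟩ : ∃ M, M = ⌊y⌋₊ := ⟨_, rfl⟩
    obtain ⟨N, hN⟩ : ∃ N, N = Nat.sqrt M := ⟨_, rfl⟩
    have hM1 : 1 ≤ M := by rw [hM]; exact Nat.le_floor (by exact_mod_cast h1)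
    have hMy : (M : ℝ) ≤ y := by rw [hM]; exact Nat.floor_le hy.le
    have hMy2 : y < M + 1 := by rw [hM]; exact Nat.lt_floor_add_one y
    have hN1 : 1 ≤ N := by rw [hN]; exact Nat.sqrt_pos.2 hM1
    have hNM : N * N ≤ M := by rw [hN]; exact Nat.sqrt_le M
    have hNM2 : M ≤ N * N + 2 * N := by
      have := Nat.lt_succ_sqrt M
      rw [← hN] at this
      have h3 : M < (N + 1) * (N + 1) := this
      nlinarith
    have hN1r : (1 : ℝ) ≤ N := by exact_mod_cast hN1
    have hNMr : (N : ℝ) * N ≤ M := by exact_mod_cast hNM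
    have hNM2r : (M : ℝ) ≤ N * N + 2 * N := by exact_mod_cast hNM2
    have hly : 0 ≤ Real.log y := Real.log_nonneg h1
    have hlM : Real.log M ≤ Real.log y := Real.log_le_log (by exact_mod_cast hM1) hMy
    obtain ⟨e1, he1⟩ : ∃ e, e = ∑ n ∈ Ico (N * N) M, (S1 n - Z2 * n) := ⟨_, rfl⟩
    obtain ⟨e2, he2⟩ : ∃ e, e = S1 M - Z2 * M := ⟨_, rfl⟩
    have b1 : |e1| ≤ 2 * N * (4 + Real.log y) := by
      rw [he1]
      refine (abs_sum_le_sum_abs _ _).trans ?_
      calc ∑ n ∈ Ico (N * N) M, |S1 n - Z2 * n| ≤ ∑ _n ∈ Ico (N * N) M, (4 + Real.log y) := by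
            apply sum_le_sum
            intro n hn
            rw [mem_Ico] at hn
            refine (S1_bound n).trans ?_
            have h4 : Real.log n ≤ Real.log y := by
              apply Real.log_le_log
              · have : 0 < n := by nlinarith
                exact_mod_cast this
              · refine le_trans ?_ hMy
                exact_mod_cast hn.2.le
            linarith
        _ = ((M - N * N : ℕ) : ℝ) * (4 + Real.log y) := by rw [sum_const, Nat.card_Ico, nsmul_eq_mul]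
        _ ≤ 2 * N * (4 + Real.log y) := by
            apply mul_le_mul_of_nonneg_right _ (by linarith)
            have : M - N * N ≤ 2 * N := by omega
            exact_mod_cast this
    have b2 : |e2| ≤ 4 + Real.log y := by
      rw [he2]
      exact (S1_bound M).trans (by linarith)
    have b3 := RR_sq N hN1
    obtain ⟨e3, he3⟩ : ∃ e, e = RR (((N * N : ℕ) : ℝ)) - MM (((N * N : ℕ) : ℝ)) := ⟨_, rfl⟩
    rw [← he3] at b3
    have r1 : RR y = RR (((N * N : ℕ) : ℝ)) + (Z2 * (((M : ℝ) ^ 2 - M - ((N * N : ℕ) : ℝ) ^ 2 + ((N * N : ℕ) : ℝ)) / 2) + e1) + (y - M) * (Z2 * M + e2) := by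
      rw [RR_floor y, ← hM, RR_steps (N * N) M hNM, he1, sum_sub_distrib, ← mul_sum, sum_ids _ _ hNM, he2]
      ring
    have hNN : (((N * N : ℕ) : ℝ)) = (N : ℝ) * N := by push_cast; ring
    obtain ⟨W, hW⟩ : ∃ W, W = (N : ℝ) * N := ⟨_, rfl⟩
    have hW1 : 1 ≤ W := by rw [hW]; nlinarith
    obtain ⟨D, hD⟩ : ∃ D, D = y * Real.log y - W * Real.log W := ⟨_, rfl⟩
    have hWy : W ≤ y := by rw [hW]; linarith
    have hyW : y - W ≤ 3 * N := by rw [hW]; linarith
    have hD0 : 0 ≤ D := by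
      rw [hD]
      have := Real.log_le_log (by linarith) hWy
      have h3 := Real.log_nonneg hW1
      nlinarith
    have hD1 : D ≤ 3 * N * (1 + Real.log y) := by
      have h3 : Real.log (y / W) ≤ y / W - 1 := Real.log_le_sub_one_of_pos (by positivity)
      rw [Real.log_div hy.ne' (by linarith)] at h3
      have h4 : W * (Real.log y - Real.log W) ≤ y - W := by
        have h5 := mul_le_mul_of_nonneg_left h3 (by linarith : 0 ≤ W)
        have h6 : W * (y / W - 1) = y - W := by field_simp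
        linarith
      have h7 : D = (y - W) * Real.log y + W * (Real.log y - Real.log W) := by rw [hD]; ring
      rw [h7]
      nlinarith [mul_le_mul_of_nonneg_right hyW hly]
    have r2 : RR y - MM y = e3 + Z2 * (-(y - M) ^ 2 / 2 - (M - W) / 2) + e1 + (y - M) * e2 + 1 / 2 * D + 1 / 2 * (c1 * (y - W)) := by
      have r3 : RR (((N * N : ℕ) : ℝ)) = e3 + MM (((N * N : ℕ) : ℝ)) := by rw [he3]; ring
      rw [r1, r3]
      unfold MM
      rw [hNN, ← hW, hD]
      ring
    have b4 : |Z2 * (-(y - M) ^ 2 / 2 - (M - W) / 2)| ≤ 3 * (N : ℝ) := by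
      have hz := Z2_pos
      have hz2 := Z2_le
      have h3 : 0 ≤ y - M := by linarith
      have h4 : y - M ≤ 1 := by linarith
      have h5 : (y - M) ^ 2 ≤ 1 := pow_le_one₀ h3 h4
      have h6 : 0 ≤ (M : ℝ) - W := by rw [hW]; linarith
      have h7 : (M : ℝ) - W ≤ 2 * N := by rw [hW]; linarith
      have h8 : -(y - M) ^ 2 / 2 - (M - W) / 2 = -(((y - M) ^ 2 + (M - W)) / 2) := by ring
      rw [h8, mul_neg, abs_neg, abs_of_nonneg (by positivity)]
      have h9 : 0 ≤ ((y - M) ^ 2 + (M - W)) / 2 := by positivity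
      have h10 : ((y - M) ^ 2 + (M - W)) / 2 ≤ 3 * (N : ℝ) / 2 := by linarith
      calc Z2 * (((y - M) ^ 2 + (M - W)) / 2) ≤ 2 * (3 * (N : ℝ) / 2) := mul_le_mul hz2 h10 h9 (by norm_num)
        _ = 3 * (N : ℝ) := by ring
    have b5 : |(y - M) * e2| ≤ 4 + Real.log y := by
      rw [abs_mul, abs_of_nonneg (by linarith : 0 ≤ y - M)]
      have := abs_nonneg e2
      nlinarith
    have b6 : |c1 * (y - W)| ≤ |c1| * (3 * N) := by
      rw [abs_mul, abs_of_nonneg (by linarith : 0 ≤ y - W)]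
      exact mul_le_mul_of_nonneg_left hyW hc
    have hNs : (N : ℝ) ≤ √y := Real.le_sqrt_of_sq_le (by nlinarith)
    have key : |RR y - MM y| ≤ (50 + 3 * |c1|) * (N * (1 + Real.log y)) := by
      rw [r2]
      have hN0 : (0 : ℝ) ≤ N := by linarith
      have hNl : 0 ≤ (N : ℝ) * Real.log y := by positivity
      have hcl : 0 ≤ |c1| * ((N : ℝ) * Real.log y) := by positivity
      have hlN : Real.log y ≤ N * Real.log y := le_mul_of_one_le_left hly hN1r
      have hcN : 0 ≤ |c1| * (N : ℝ) := by positivity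
      have hfin : (50 + 3 * |c1|) * ((N : ℝ) * (1 + Real.log y)) = 50 * N + 50 * (N * Real.log y) + 3 * (|c1| * N) + 3 * (|c1| * (N * Real.log y)) := by ring
      have hb1 : 2 * (N : ℝ) * (4 + Real.log y) = 8 * N + 2 * (N * Real.log y) := by ring
      have hb6 : |c1| * (3 * (N : ℝ)) = 3 * (|c1| * N) := by ring
      have hb7 : 3 * (N : ℝ) * (1 + Real.log y) = 3 * N + 3 * (N * Real.log y) := by ring
      rw [hfin]
      rw [hb1] at b1
      rw [hb6] at b6
      rw [hb7] at hD1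
      rw [abs_le] at b1 b3 b4 b5 b6 ⊢
      obtain ⟨b11, b12⟩ := b1
      obtain ⟨b31, b32⟩ := b3
      obtain ⟨b41, b42⟩ := b4
      obtain ⟨b51, b52⟩ := b5
      obtain ⟨b61, b62⟩ := b6
      constructor <;> linarith
    refine key.trans ?_
    calc (50 + 3 * |c1|) * (N * (1 + Real.log y)) ≤ (50 + 3 * |c1|) * (√y * (1 + Real.log y)) := by
          apply mul_le_mul_of_nonneg_left _ (by positivity)
          exact mul_le_mul_of_nonneg_right hNs (by linarith)
      _ ≤ (50 + 3 * |c1|) * (7 * y ^ (2 / 3 : ℝ)) := mul_le_mul_of_nonneg_left (sqrt_log y h1) (by positivity)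
      _ = _ := by ring

end Pool.Agent.Run7.h27.FG
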