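import Pool.Agent.Run7.h27.FG.Harm
import Pool.Agent.TH894.PV1

set_option autoImplicit false

/-!
The smoothed sum of `σ(j)/j` with its second main term.
-/

namespace Pool.Agent.Run7.h27.FG

open Finset Filter Topology

/-- `σ(j)/j` -/
noncomputable def sg (j : ℕ) : ℝ := ∑ d ∈ j.divisors, 1 / (d : ℝ)

/-- the smoothed sum -/
noncomputable def RR (y : ℝ) : ℝ := ∑ j ∈ Icc 1 ⌊y⌋₊, (y - (j : ℝ)) * sg j

/-- the constant `γ - 1 + log (2 π)` -/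
noncomputable def c1 : ℝ := Real.eulerMascheroniConstant - 1 + Real.log (2 * Real.pi)

/-- the main term -/
noncomputable def MM (y : ℝ) : ℝ := Z2 * y ^ 2 / 2 - y / 2 * (Real.log y + c1)

lemma sg_sum (n : ℕ) (F : ℕ → ℝ) : ∑ j ∈ Icc 1 n, F j * sg j = ∑ m ∈ Icc 1 n, ∑ l ∈ Icc 1 (n / m), F (m * l) / m := by
  have h1 : ∀ j ∈ Icc 1 n, F j * sg j = ∑ d ∈ Icc 1 n, (if d ∣ j then F j / d else 0) := by
    intro j hj
    rw [mem_Icc] at hj
    unfold sg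
    rw [mul_sum, ← sum_filter]
    have e : j.divisors = (Icc 1 n).filter (fun d => d ∣ j) := by
      ext d
      rw [Nat.mem_divisors, mem_filter, mem_Icc]
      constructor
      · rintro ⟨h1, h2⟩
        exact ⟨⟨Nat.pos_of_dvd_of_pos h1 (by omega), (Nat.le_of_dvd (by omega) h1).trans hj.2⟩, h1⟩
      · rintro ⟨h1, h2⟩
        exact ⟨h2, by omega⟩
    rw [e]
    apply sum_congr rfl
    intro d _
    ring
  rw [sum_congr rfl h1, sum_comm]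
  apply sum_congr rfl
  intro d hd
  rw [mem_Icc] at hd
  rw [← sum_filter, TH894.PV.sum_mult n d hd.1 (fun j => F j / d)]

/-- the partial sums -/
noncomputable def S1 (n : ℕ) : ℝ := ∑ j ∈ Icc 1 n, sg j

lemma sg_nonneg (j : ℕ) : 0 ≤ sg j := sum_nonneg fun _ _ => by positivity

lemma S1_bound (n : ℕ) : |S1 n - Z2 * n| ≤ 4 + Real.log n := by
  rcases Nat.eq_zero_or_pos n with rfl | hn
  · unfold S1
    simp
  have hn0 : (0 : ℝ) < n := by exact_mod_cast hn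
  have hn1 : (1 : ℝ) ≤ n := by exact_mod_cast hn
  have h0 : S1 n = ∑ m ∈ Icc 1 n, ((n / m : ℕ) : ℝ) / m := by
    unfold S1
    have := sg_sum n (fun _ => 1)
    simp only [one_mul] at this
    rw [this]
    apply sum_congr rfl
    intro m _
    rw [sum_const, Nat.card_Icc, nsmul_eq_mul, Nat.add_sub_cancel, mul_one_div]
  have h1 : S1 n ≤ n * ∑ m ∈ Icc 1 n, 1 / (m : ℝ) ^ 2 := by
    rw [h0, mul_sum]
    apply sum_le_sum
    intro m hm
    rw [mem_Icc] at hm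
    have hm0 : (0 : ℝ) < m := by exact_mod_cast hm.1
    calc ((n / m : ℕ) : ℝ) / m ≤ ((n : ℝ) / m) / m := div_le_div_of_nonneg_right Nat.cast_div_le hm0.le
      _ = _ := by field_simp
  have h2 : n * ∑ m ∈ Icc 1 n, 1 / (m : ℝ) ^ 2 - ∑ m ∈ Icc 1 n, 1 / (m : ℝ) ≤ S1 n := by
    rw [h0, mul_sum, ← sum_sub_distrib]
    apply sum_le_sum
    intro m hm
    rw [mem_Icc] at hm
    have hm0 : (0 : ℝ) < m := by exact_mod_cast hm.1
    have h3 : (n : ℝ) / m - 1 ≤ ((n / m : ℕ) : ℝ) := by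
      have := Nat.lt_div_mul_add (a := n) (b := m) hm.1
      have h4 : (n : ℝ) < ((n / m : ℕ) : ℝ) * m + m := by exact_mod_cast this
      rw [sub_le_iff_le_add, div_le_iff₀ hm0]
      linarith
    calc n * (1 / (m : ℝ) ^ 2) - 1 / m = ((n : ℝ) / m - 1) / m := by field_simp
      _ ≤ _ := div_le_div_of_nonneg_right h3 hm0.le
  have h3 := sqs n hn
  have h4 := harm n hn
  have hγ := Real.eulerMascheroniConstant_lt_two_thirds
  have hh : ∑ m ∈ Icc 1 n, 1 / (m : ℝ) ≤ 1 + Real.log n := by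
    have := harmonic_le_one_add_log n
    rw [harmonic_eq_sum_Icc] at this
    push_cast at this
    refine le_trans (le_of_eq ?_) this
    apply sum_congr rfl
    intro i _
    rw [one_div]
  rw [abs_le] at h3 ⊢
  have e1 : n * (Z2 - 1 / n + 1 / (2 * (n : ℝ) ^ 2)) = Z2 * n - 1 + 1 / (2 * n) := by field_simp
  have e2 : n * (1 / (n : ℝ) ^ 3) = 1 / (n : ℝ) ^ 2 := by field_simp
  have u1 := mul_le_mul_of_nonneg_left h3.1 hn0.le
  have u2 := mul_le_mul_of_nonneg_left h3.2 hn0.le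
  rw [mul_sub, e1, mul_neg, e2] at u1
  rw [mul_sub, e1, e2] at u2
  have b1 : 1 / (n : ℝ) ^ 2 ≤ 1 := by
    rw [div_le_one (by positivity)]
    exact one_le_pow₀ hn1
  have b2 : 1 / (2 * (n : ℝ)) ≤ 1 := by
    rw [div_le_one (by positivity)]
    linarith
  have b3 : 0 ≤ 1 / (2 * (n : ℝ)) := by positivity
  have hlog : 0 ≤ Real.log n := Real.log_nonneg hn1
  constructor <;> linarith

/-- the value at a square -/
lemma RR_sq (N : ℕ) (hN : 1 ≤ N) : |RR (((N * N : ℕ) : ℝ)) - MM (((N * N : ℕ) : ℝ))| ≤ 20 * N := by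
  obtain ⟨Y, hY⟩ : ∃ Y, Y = N * N := ⟨_, rfl⟩
  have hYr : (Y : ℝ) = (N : ℝ) ^ 2 := by rw [hY]; push_cast; ring
  rw [← hY]
  have hN1 : (1 : ℝ) ≤ N := by exact_mod_cast hN
  have hN0 : (0 : ℝ) < N := by linarith
  have hY0 : (0 : ℝ) < Y := by rw [hYr]; positivity
  have hNY : N ≤ Y := by rw [hY]; nlinarith
  obtain ⟨P1, hP1⟩ : ∃ P1, P1 = ∑ m ∈ Icc 1 N, ∑ l ∈ Icc 1 (Y / m), ((Y : ℝ) / m - l) := ⟨_, rfl⟩
  obtain ⟨P2, hP2⟩ : ∃ P2, P2 = ∑ l ∈ Icc 1 N, ∑ m ∈ Ioc N (Y / l), ((Y : ℝ) / m - l) := ⟨_, rfl⟩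
  have hsplit : RR (Y : ℝ) = P1 + P2 := by
    unfold RR
    rw [Nat.floor_natCast, sg_sum Y (fun j => (Y : ℝ) - j)]
    have e1 : ∑ m ∈ Icc 1 Y, ∑ l ∈ Icc 1 (Y / m), ((Y : ℝ) - ((m * l : ℕ) : ℝ)) / m =
        ∑ m ∈ Icc 1 Y, ∑ l ∈ Icc 1 (Y / m), ((Y : ℝ) / m - l) := by
      apply sum_congr rfl
      intro m hm
      rw [mem_Icc] at hm
      have hm0 : (0 : ℝ) < m := by exact_mod_cast hm.1
      apply sum_congr rfl
      intro l _
      push_cast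
      field_simp
    rw [e1]
    have e2 : Icc 1 Y = Icc 1 N ∪ Ioc N Y := by
      ext m
      rw [mem_union, mem_Icc, mem_Icc, mem_Ioc]
      omega
    have e3 : Disjoint (Icc 1 N) (Ioc N Y) := by
      rw [disjoint_left]
      intro m h1 h2
      rw [mem_Icc] at h1
      rw [mem_Ioc] at h2
      omega
    rw [e2, sum_union e3, hP1, hP2]
    congr 1
    apply sum_comm'
    intro m l
    rw [mem_Ioc, mem_Icc, mem_Icc, mem_Ioc]
    constructor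
    · rintro ⟨⟨a1, a2⟩, a3, a4⟩
      have a5 := (Nat.le_div_iff_mul_le (by omega)).1 a4
      have a6 : m ≤ Y / l := (Nat.le_div_iff_mul_le (by omega)).2 (by rw [mul_comm]; exact a5)
      refine ⟨⟨a1, a6⟩, a3, ?_⟩
      by_contra hcon
      push Not at hcon
      have : N * N < l * m := by nlinarith
      omega
    · rintro ⟨⟨a1, a2⟩, a3, a4⟩
      have a5 := (Nat.le_div_iff_mul_le (by omega)).1 a2
      refine ⟨⟨a1, ?_⟩, a3, (Nat.le_div_iff_mul_le (by omega)).2 (by rw [mul_comm]; exact a5)⟩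
      exact a2.trans (Nat.div_le_self _ _)
  -- the first part
  have hp1 : |P1 - ∑ m ∈ Icc 1 N, (((Y : ℝ) / m) ^ 2 / 2 - ((Y : ℝ) / m) / 2)| ≤ N * (1 / 8) := by
    rw [hP1, ← sum_sub_distrib]
    refine (abs_sum_le_sum_abs _ _).trans ?_
    have e : (N : ℝ) * (1 / 8) = ∑ _m ∈ Icc 1 N, (1 / 8 : ℝ) := by
      rw [sum_const, Nat.card_Icc, nsmul_eq_mul, Nat.add_sub_cancel]
    rw [e]
    apply sum_le_sum
    intro m hm
    rw [mem_Icc] at hm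
    have hm0 : (0 : ℝ) < m := by exact_mod_cast hm.1
    rw [TH894.PV.sum_tri]
    obtain ⟨w, hw⟩ : ∃ w, w = (Y : ℝ) / m := ⟨_, rfl⟩
    obtain ⟨n, hn⟩ : ∃ n, n = Y / m := ⟨_, rfl⟩
    rw [← hw, ← hn]
    have h1 : (n : ℝ) ≤ w := by rw [hn, hw]; exact Nat.cast_div_le
    have h2 : w ≤ n + 1 := by
      have := Nat.lt_div_mul_add (a := Y) (b := m) hm.1
      have h4 : (Y : ℝ) < ((Y / m : ℕ) : ℝ) * m + m := by exact_mod_cast this
      rw [hw, hn, div_le_iff₀ hm0]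
      linarith
    obtain ⟨f, hf⟩ : ∃ f, f = w - n := ⟨_, rfl⟩
    have hw2 : w = n + f := by rw [hf]; ring
    have hf0 : 0 ≤ f := by linarith
    have hf1 : f ≤ 1 := by linarith
    have e5 : w * n - n * (n + 1) / 2 - (w ^ 2 / 2 - w / 2) = f * (1 - f) / 2 := by rw [hw2]; ring
    rw [e5, abs_of_nonneg (by nlinarith [mul_nonneg hf0 (sub_nonneg.2 hf1)])]
    nlinarith [sq_nonneg (f - 1 / 2)]
  have hs1 : ∑ m ∈ Icc 1 N, (((Y : ℝ) / m) ^ 2 / 2 - ((Y : ℝ) / m) / 2) =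
      (Y : ℝ) ^ 2 / 2 * ∑ m ∈ Icc 1 N, 1 / (m : ℝ) ^ 2 - (Y : ℝ) / 2 * ∑ m ∈ Icc 1 N, 1 / (m : ℝ) := by
    rw [mul_sum, mul_sum, ← sum_sub_distrib]
    apply sum_congr rfl
    intro m hm
    rw [mem_Icc] at hm
    have hm0 : (0 : ℝ) < m := by exact_mod_cast hm.1
    field_simp
  -- the second part
  obtain ⟨HN, hHN⟩ : ∃ HN, HN = ∑ m ∈ Icc 1 N, 1 / (m : ℝ) := ⟨_, rfl⟩
  obtain ⟨γ, hγ⟩ : ∃ γ, γ = Real.eulerMascheroniConstant := ⟨_, rfl⟩
  have hp2 : |P2 - ∑ l ∈ Icc 1 N, ((Y : ℝ) * (Real.log Y - Real.log l + γ - 1 - HN) + l * (N + 1 / 2))| ≤ N * 11 := by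
    rw [hP2, ← sum_sub_distrib]
    refine (abs_sum_le_sum_abs _ _).trans ?_
    have e : (N : ℝ) * 11 = ∑ _m ∈ Icc 1 N, (11 : ℝ) := by
      rw [sum_const, Nat.card_Icc, nsmul_eq_mul, Nat.add_sub_cancel]
    rw [e]
    apply sum_le_sum
    intro l hl
    rw [mem_Icc] at hl
    have hl0 : (0 : ℝ) < l := by exact_mod_cast hl.1
    have hlN : (l : ℝ) ≤ N := by exact_mod_cast hl.2
    obtain ⟨u, hu⟩ : ∃ u, u = (Y : ℝ) / l := ⟨_, rfl⟩
    have huN : (N : ℝ) ≤ u := by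
      rw [hu, le_div_iff₀ hl0, hYr]
      nlinarith
    have hu1 : 1 ≤ u := by linarith
    have hu0 : 0 < u := by linarith
    have hfl : ⌊u⌋₊ = Y / l := by rw [hu, Nat.floor_div_natCast, Nat.floor_natCast]
    have k1 := harm_real u hu1
    rw [hfl] at k1
    have hK : N ≤ Y / l := (Nat.le_div_iff_mul_le hl.1).2 (by rw [hY]; exact Nat.mul_le_mul_left _ hl.2)
    obtain ⟨K, hKd⟩ : ∃ K, K = Y / l := ⟨_, rfl⟩
    rw [← hKd] at k1 hK ⊢
    have e1 : ∑ m ∈ Ioc N K, ((Y : ℝ) / m - l) = Y * (∑ m ∈ Icc 1 K, 1 / (m : ℝ) - HN) - l * (K - N) := by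
      have e2 : ∑ m ∈ Icc 1 K, 1 / (m : ℝ) - HN = ∑ m ∈ Ioc N K, 1 / (m : ℝ) := by
        rw [hHN]
        have e3 : Icc 1 K = Icc 1 N ∪ Ioc N K := by
          ext m
          rw [mem_union, mem_Icc, mem_Icc, mem_Ioc]
          omega
        have e4 : Disjoint (Icc 1 N) (Ioc N K) := by
          rw [disjoint_left]
          intro m h1 h2
          rw [mem_Icc] at h1
          rw [mem_Ioc] at h2
          omega
        rw [e3, sum_union e4]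
        ring
      rw [e2, sum_sub_distrib, sum_const, Nat.card_Ioc, nsmul_eq_mul, mul_sum, Nat.cast_sub hK]
      congr 1
      · apply sum_congr rfl
        intro m _
        ring
      · ring
    rw [e1]
    have hlog : Real.log u = Real.log Y - Real.log l := by rw [hu, Real.log_div hY0.ne' hl0.ne']
    obtain ⟨HK, hHK⟩ : ∃ HK, HK = ∑ m ∈ Icc 1 K, 1 / (m : ℝ) := ⟨_, rfl⟩
    rw [← hHK, ← hγ, hlog] at k1
    rw [← hHK]
    have hYu : (Y : ℝ) = u * l := by rw [hu]; field_simp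
    have e5 : Y * (HK - HN) - l * (K - N) - (Y * (Real.log Y - Real.log l + γ - 1 - HN) + l * (N + 1 / 2)) =
        Y * (HK - (Real.log Y - Real.log l + γ + (1 / 2 - (u - K)) / u)) := by
      obtain ⟨Λ, hΛ⟩ : ∃ Λ, Λ = Real.log Y - Real.log l := ⟨_, rfl⟩
      rw [← hΛ, hYu]
      field_simp
      ring
    rw [e5, abs_mul, abs_of_pos hY0]
    refine (mul_le_mul_of_nonneg_left k1 hY0.le).trans ?_
    rw [hYu]
    have : u * l * (11 / u ^ 2) = 11 * (l / u) := by field_simp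
    rw [this]
    have h6 : (l : ℝ) / u ≤ 1 := by
      rw [div_le_one hu0]
      linarith
    linarith
  have hs2 : ∑ l ∈ Icc 1 N, ((Y : ℝ) * (Real.log Y - Real.log l + γ - 1 - HN) + l * (N + 1 / 2)) =
      Y * (N * (Real.log Y + γ - 1 - HN) - Real.log (N.factorial : ℝ)) + (N + 1 / 2) * (N * (N + 1) / 2) := by
    have e1 : ∑ l ∈ Icc 1 N, Real.log (l : ℝ) = Real.log (N.factorial : ℝ) := by
      clear * -
      induction N with
      | zero => simp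
      | succ n ih =>
        rw [sum_Icc_succ_top (by omega), ih, Nat.factorial_succ]
        push_cast
        rw [Real.log_mul (by positivity) (by exact_mod_cast Nat.factorial_ne_zero n)]
        ring
    have e2 : ∑ l ∈ Icc 1 N, (l : ℝ) = N * (N + 1) / 2 := by
      have := TH894.PV.sum_tri N 0
      simp only [zero_sub, sum_neg_distrib, zero_mul] at this
      linarith
    rw [sum_add_distrib, ← mul_sum, ← sum_mul, e2]
    have e3 : ∑ l ∈ Icc 1 N, (Real.log Y - Real.log l + γ - 1 - HN) = N * (Real.log Y + γ - 1 - HN) - Real.log (N.factorial : ℝ) := by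
      have : ∀ l ∈ Icc 1 N, (Real.log Y - Real.log l + γ - 1 - HN) = (Real.log Y + γ - 1 - HN) - Real.log (l : ℝ) := fun l _ => by ring
      rw [sum_congr rfl this, sum_sub_distrib, e1, sum_const, Nat.card_Icc, nsmul_eq_mul, Nat.add_sub_cancel]
    rw [e3]
    ring
  -- the constants
  obtain ⟨θ1, h1⟩ : ∃ θ, θ = ∑ m ∈ Icc 1 N, 1 / (m : ℝ) ^ 2 - (Z2 - 1 / N + 1 / (2 * (N : ℝ) ^ 2)) := ⟨_, rfl⟩
  obtain ⟨θ2, h2⟩ : ∃ θ, θ = HN - (Real.log N + γ + 1 / (2 * N)) := ⟨_, rfl⟩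
  obtain ⟨θ3, h3⟩ : ∃ θ, θ = Real.log (N.factorial : ℝ) - (N * Real.log N - N + 1 / 2 * Real.log (2 * Real.pi) + 1 / 2 * Real.log N) := ⟨_, rfl⟩
  have b1 : |θ1| ≤ 1 / (N : ℝ) ^ 3 := by rw [h1]; exact sqs N hN
  have b2 : |θ2| ≤ 2 / (N : ℝ) ^ 2 := by rw [h2, hHN, hγ]; exact harm N hN
  have b3 : |θ3| ≤ 2 / (N : ℝ) := by rw [h3]; exact stir N hN
  have hlogY : Real.log Y = 2 * Real.log N := by rw [hYr, Real.log_pow]; push_cast; ring
  have g1 : ∑ m ∈ Icc 1 N, 1 / (m : ℝ) ^ 2 = θ1 + (Z2 - 1 / N + 1 / (2 * (N : ℝ) ^ 2)) := by rw [h1]; ring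
  have g2 : HN = θ2 + (Real.log N + γ + 1 / (2 * N)) := by rw [h2]; ring
  have g3 : Real.log (N.factorial : ℝ) = θ3 + (N * Real.log N - N + 1 / 2 * Real.log (2 * Real.pi) + 1 / 2 * Real.log N) := by rw [h3]; ring
  have hmain : (Y : ℝ) ^ 2 / 2 * ∑ m ∈ Icc 1 N, 1 / (m : ℝ) ^ 2 - (Y : ℝ) / 2 * ∑ m ∈ Icc 1 N, 1 / (m : ℝ) +
      (Y * (N * (Real.log Y + γ - 1 - HN) - Real.log (N.factorial : ℝ)) + (N + 1 / 2) * (N * (N + 1) / 2)) - MM (Y : ℝ) =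
      (N : ℝ) ^ 4 / 2 * θ1 - (N : ℝ) ^ 2 / 2 * θ2 - (N : ℝ) ^ 3 * θ2 - (N : ℝ) ^ 2 * θ3 := by
    unfold MM c1
    rw [← hHN, ← hγ, g1, g3, g2, hlogY, hYr]
    field_simp
    ring
  rw [hsplit]
  have e9 : P1 + P2 - MM (Y : ℝ) = (P1 - ∑ m ∈ Icc 1 N, (((Y : ℝ) / m) ^ 2 / 2 - ((Y : ℝ) / m) / 2)) +
      (P2 - ∑ l ∈ Icc 1 N, ((Y : ℝ) * (Real.log Y - Real.log l + γ - 1 - HN) + l * (N + 1 / 2))) +
      ((N : ℝ) ^ 4 / 2 * θ1 - (N : ℝ) ^ 2 / 2 * θ2 - (N : ℝ) ^ 3 * θ2 - (N : ℝ) ^ 2 * θ3) := by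
    rw [← hmain, hs1, hs2]
    ring
  rw [e9]
  have a1 : |(N : ℝ) ^ 4 / 2 * θ1| ≤ (N : ℝ) := by
    rw [abs_mul, abs_of_pos (by positivity)]
    calc (N : ℝ) ^ 4 / 2 * |θ1| ≤ (N : ℝ) ^ 4 / 2 * (1 / (N : ℝ) ^ 3) := mul_le_mul_of_nonneg_left b1 (by positivity)
      _ = N / 2 := by field_simp
      _ ≤ N := by linarith
  have a2 : |(N : ℝ) ^ 2 / 2 * θ2| ≤ (N : ℝ) := by
    rw [abs_mul, abs_of_pos (by positivity)]
    calc (N : ℝ) ^ 2 / 2 * |θ2| ≤ (N : ℝ) ^ 2 / 2 * (2 / (N : ℝ) ^ 2) := mul_le_mul_of_nonneg_left b2 (by positivity)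
      _ = 1 := by field_simp
      _ ≤ N := hN1
  have a3 : |(N : ℝ) ^ 3 * θ2| ≤ 2 * N := by
    rw [abs_mul, abs_of_pos (by positivity)]
    calc (N : ℝ) ^ 3 * |θ2| ≤ (N : ℝ) ^ 3 * (2 / (N : ℝ) ^ 2) := mul_le_mul_of_nonneg_left b2 (by positivity)
      _ = 2 * N := by field_simp
  have a4 : |(N : ℝ) ^ 2 * θ3| ≤ 2 * N := by
    rw [abs_mul, abs_of_pos (by positivity)]
    calc (N : ℝ) ^ 2 * |θ3| ≤ (N : ℝ) ^ 2 * (2 / (N : ℝ)) := mul_le_mul_of_nonneg_left b3 (by positivity)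
      _ = 2 * N := by field_simp
  rw [abs_le] at hp1 hp2 a1 a2 a3 a4 ⊢
  constructor <;> linarith [hp1.1, hp1.2, hp2.1, hp2.2, a1.1, a1.2, a2.1, a2.2, a3.1, a3.2, a4.1, a4.2]

end Pool.Agent.Run7.h27.FG
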