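import Pool.Agent.Run7.h27.FG.Ind

set_option autoImplicit false

/-!
The second main term of the smoothed sum of the singular series at the multiples of a modulus, for a finite set of primes.
-/

namespace Pool.Agent.Run7.h27.FG

open Finset Filter Topology
open Pool.Agent.TH894.PV (al be al_nonneg be_nonneg be_le sum_mult)

/-- the smoothed sums -/
noncomputable def DD (Q : ℕ) (P : Finset ℕ) (y : ℝ) : ℝ := ∑ j ∈ Icc 1 ⌊y⌋₊, (y - (j : ℝ)) * Gm Q P j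

lemma DD_part (Q : ℕ) (P : Finset ℕ) (d : ℕ) (hd : 1 ≤ d) (y : ℝ) :
    ∑ j ∈ Icc 1 ⌊y⌋₊, (y - (j : ℝ)) * (if d ∣ j then Gm Q P (j / d) else 0) = d * DD Q P (y / d) := by
  have hd0 : (0 : ℝ) < d := by exact_mod_cast hd
  have h1 : ∀ j ∈ Icc 1 ⌊y⌋₊, (y - (j : ℝ)) * (if d ∣ j then Gm Q P (j / d) else 0) =
      (if d ∣ j then (y - (j : ℝ)) * Gm Q P (j / d) else 0) := by
    intro j _
    split_ifs
    · rfl
    · ring
  rw [sum_congr rfl h1, ← sum_filter, sum_mult _ d hd (fun j => (y - (j : ℝ)) * Gm Q P (j / d))]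
  unfold DD
  rw [Nat.floor_div_natCast, mul_sum]
  apply sum_congr rfl
  intro m _
  rw [Nat.mul_div_cancel_left m (by omega)]
  push_cast
  field_simp

lemma DD_step (Q : ℕ) (P : Finset ℕ) (hP : ∀ q ∈ P, q.Prime) (p : ℕ) (hp : p.Prime) (hpP : p ∉ P) (y : ℝ) :
    DD Q (insert p P) y = b0 Q p * DD Q P y + b1 Q p * (p * DD Q P (y / p)) + b2 Q p * (p ^ 2 * DD Q P (y / p ^ 2)) := by
  have h1 := DD_part Q P p hp.one_lt.le y
  have h2 := DD_part Q P (p ^ 2) (Nat.one_le_pow _ _ hp.pos) y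
  push_cast at h2
  rw [← h1, ← h2]
  unfold DD
  rw [mul_sum, mul_sum, mul_sum, ← sum_add_distrib, ← sum_add_distrib]
  apply sum_congr rfl
  intro j hj
  rw [mem_Icc] at hj
  rw [Gm_step Q P hP p hp hpP j (by omega)]
  ring

/-- the coefficient of the first main term -/
noncomputable def aP (Q : ℕ) (P : Finset ℕ) : ℝ := Z2 * ∏ p ∈ P, (b0 Q p + b1 Q p / p + b2 Q p / p ^ 2)

/-- the constant in the second main term -/
noncomputable def cP (Q : ℕ) (P : Finset ℕ) : ℝ := c1 - ∑ p ∈ P, (b1 Q p + 2 * b2 Q p) * Real.log p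

/-- the factor of the error term -/
noncomputable def eP (Q : ℕ) (P : Finset ℕ) : ℝ := ∏ p ∈ P, (|b0 Q p| + |b1 Q p| * (p : ℝ) ^ (1 / 3 : ℝ) + |b2 Q p| * (p : ℝ) ^ (2 / 3 : ℝ))

lemma b_sum (Q p : ℕ) (hp : 2 ≤ p) : b0 Q p + b1 Q p + b2 Q p = 1 := by
  have h1 : (2 : ℝ) ≤ p := by exact_mod_cast hp
  have h2 : (p : ℝ) - 1 ≠ 0 := by linarith
  unfold b0 b1 b2 be
  split_ifs
  · field_simp
    ring
  · field_simp
    ring

theorem DD_main : ∃ C : ℝ, 0 < C ∧ ∀ Q : ℕ, ∀ P : Finset ℕ, (∀ q ∈ P, q.Prime) → ∀ y : ℝ, 0 < y →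
    |DD Q P y - (aP Q P * y ^ 2 / 2 - y / 2 * (Real.log y + cP Q P))| ≤ C * eP Q P * y ^ (2 / 3 : ℝ) := by
  obtain ⟨C, hC, hR⟩ := RR_all
  refine ⟨C, hC, fun Q P => ?_⟩
  classical
  induction P using Finset.induction_on with
  | empty =>
    intro _ y hy
    unfold aP cP eP
    rw [prod_empty, sum_empty, prod_empty, mul_one, mul_one, sub_zero]
    have h0 : DD Q ∅ y = RR y := by
      unfold DD RR
      apply sum_congr rfl
      intro j hj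
      rw [mem_Icc] at hj
      rw [Gm_empty Q j (by omega)]
    rw [h0]
    exact hR y hy
  | insert p P hpP ih =>
    intro hP y hy
    have hp : p.Prime := hP p (mem_insert_self _ _)
    have hP' : ∀ q ∈ P, q.Prime := fun q hq => hP q (mem_insert_of_mem hq)
    have ih' := ih hP'
    have hp2 : (2 : ℝ) ≤ p := by exact_mod_cast hp.two_le
    have hp0 : (0 : ℝ) < p := by linarith
    have hlog : Real.log (p ^ 2 : ℝ) = 2 * Real.log p := by rw [Real.log_pow]; push_cast; ring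
    obtain ⟨m, hm⟩ : ∃ m : ℝ → ℝ, m = fun y => aP Q P * y ^ 2 / 2 - y / 2 * (Real.log y + cP Q P) := ⟨_, rfl⟩
    have hih : ∀ y : ℝ, 0 < y → |DD Q P y - m y| ≤ C * eP Q P * y ^ (2 / 3 : ℝ) := by
      intro y hy
      rw [hm]
      exact ih' y hy
    have e1 : aP Q (insert p P) * y ^ 2 / 2 - y / 2 * (Real.log y + cP Q (insert p P)) =
        b0 Q p * m y + b1 Q p * (p * m (y / p)) + b2 Q p * (p ^ 2 * m (y / p ^ 2)) := by
      have ha : aP Q (insert p P) = aP Q P * (b0 Q p + b1 Q p / p + b2 Q p / p ^ 2) := by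
        unfold aP
        rw [prod_insert hpP]
        ring
      have hc : cP Q (insert p P) = cP Q P - (b1 Q p + 2 * b2 Q p) * Real.log p := by
        unfold cP
        rw [sum_insert hpP]
        ring
      have hs := b_sum Q p hp.two_le
      have hb0 : b0 Q p = 1 - b1 Q p - b2 Q p := by linarith
      rw [ha, hc, hm]
      simp only
      rw [Real.log_div hy.ne' hp0.ne', Real.log_div hy.ne' (by positivity), hlog, hb0]
      field_simp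
      ring
    rw [e1, DD_step Q P hP' p hp hpP y]
    have f0 := hih y hy
    have f1 := hih (y / p) (by positivity)
    have f2 := hih (y / p ^ 2) (by positivity)
    have p1 : (y / p) ^ (2 / 3 : ℝ) * p = y ^ (2 / 3 : ℝ) * (p : ℝ) ^ (1 / 3 : ℝ) := by
      rw [Real.div_rpow hy.le hp0.le]
      have : (p : ℝ) = (p : ℝ) ^ (2 / 3 : ℝ) * (p : ℝ) ^ (1 / 3 : ℝ) := by
        rw [← Real.rpow_add hp0]
        norm_num
      have h3 : (0 : ℝ) < (p : ℝ) ^ (2 / 3 : ℝ) := by positivity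
      calc y ^ (2 / 3 : ℝ) / (p : ℝ) ^ (2 / 3 : ℝ) * p = y ^ (2 / 3 : ℝ) / (p : ℝ) ^ (2 / 3 : ℝ) * ((p : ℝ) ^ (2 / 3 : ℝ) * (p : ℝ) ^ (1 / 3 : ℝ)) := by rw [← this]
        _ = _ := by field_simp
    have p2 : (y / p ^ 2) ^ (2 / 3 : ℝ) * p ^ 2 = y ^ (2 / 3 : ℝ) * (p : ℝ) ^ (2 / 3 : ℝ) := by
      rw [Real.div_rpow hy.le (by positivity)]
      have h4 : ((p : ℝ) ^ 2) ^ (2 / 3 : ℝ) = (p : ℝ) ^ (4 / 3 : ℝ) := by
        rw [← Real.rpow_natCast, ← Real.rpow_mul hp0.le]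
        norm_num
      have : (p : ℝ) ^ 2 = (p : ℝ) ^ (4 / 3 : ℝ) * (p : ℝ) ^ (2 / 3 : ℝ) := by
        rw [← Real.rpow_add hp0, ← Real.rpow_natCast]
        norm_num
      have h3 : (0 : ℝ) < (p : ℝ) ^ (4 / 3 : ℝ) := by positivity
      rw [h4]
      calc y ^ (2 / 3 : ℝ) / (p : ℝ) ^ (4 / 3 : ℝ) * p ^ 2 = y ^ (2 / 3 : ℝ) / (p : ℝ) ^ (4 / 3 : ℝ) * ((p : ℝ) ^ (4 / 3 : ℝ) * (p : ℝ) ^ (2 / 3 : ℝ)) := by rw [← this]
        _ = _ := by field_simp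
    have e2 : b0 Q p * DD Q P y + b1 Q p * (p * DD Q P (y / p)) + b2 Q p * (p ^ 2 * DD Q P (y / p ^ 2)) -
        (b0 Q p * m y + b1 Q p * (p * m (y / p)) + b2 Q p * (p ^ 2 * m (y / p ^ 2))) =
        b0 Q p * (DD Q P y - m y) + b1 Q p * p * (DD Q P (y / p) - m (y / p)) + b2 Q p * p ^ 2 * (DD Q P (y / p ^ 2) - m (y / p ^ 2)) := by
      ring
    rw [e2]
    refine (abs_add_le _ _).trans ((add_le_add_left (abs_add_le _ _) _).trans ?_)
    simp only [abs_mul, abs_of_pos hp0, abs_of_pos (by positivity : (0 : ℝ) < (p : ℝ) ^ 2)]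
    have g0 : |b0 Q p| * |DD Q P y - m y| ≤ C * eP Q P * |b0 Q p| * y ^ (2 / 3 : ℝ) := by
      calc |b0 Q p| * |DD Q P y - m y| ≤ |b0 Q p| * (C * eP Q P * y ^ (2 / 3 : ℝ)) := mul_le_mul_of_nonneg_left f0 (abs_nonneg _)
        _ = _ := by ring
    have g1 : |b1 Q p| * p * |DD Q P (y / p) - m (y / p)| ≤ C * eP Q P * (|b1 Q p| * (p : ℝ) ^ (1 / 3 : ℝ)) * y ^ (2 / 3 : ℝ) := by
      calc |b1 Q p| * p * |DD Q P (y / p) - m (y / p)| ≤ |b1 Q p| * p * (C * eP Q P * (y / p) ^ (2 / 3 : ℝ)) :=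
            mul_le_mul_of_nonneg_left f1 (by positivity)
        _ = C * eP Q P * |b1 Q p| * ((y / p) ^ (2 / 3 : ℝ) * p) := by ring
        _ = _ := by rw [p1]; ring
    have g2 : |b2 Q p| * p ^ 2 * |DD Q P (y / p ^ 2) - m (y / p ^ 2)| ≤ C * eP Q P * (|b2 Q p| * (p : ℝ) ^ (2 / 3 : ℝ)) * y ^ (2 / 3 : ℝ) := by
      calc |b2 Q p| * p ^ 2 * |DD Q P (y / p ^ 2) - m (y / p ^ 2)| ≤ |b2 Q p| * p ^ 2 * (C * eP Q P * (y / p ^ 2) ^ (2 / 3 : ℝ)) :=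
            mul_le_mul_of_nonneg_left f2 (by positivity)
        _ = C * eP Q P * |b2 Q p| * ((y / p ^ 2) ^ (2 / 3 : ℝ) * p ^ 2) := by ring
        _ = _ := by rw [p2]; ring
    have he : eP Q (insert p P) = eP Q P * (|b0 Q p| + |b1 Q p| * (p : ℝ) ^ (1 / 3 : ℝ) + |b2 Q p| * (p : ℝ) ^ (2 / 3 : ℝ)) := by
      unfold eP
      rw [prod_insert hpP]
      ring
    rw [he]
    calc _ ≤ C * eP Q P * |b0 Q p| * y ^ (2 / 3 : ℝ) + C * eP Q P * (|b1 Q p| * (p : ℝ) ^ (1 / 3 : ℝ)) * y ^ (2 / 3 : ℝ) +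
          C * eP Q P * (|b2 Q p| * (p : ℝ) ^ (2 / 3 : ℝ)) * y ^ (2 / 3 : ℝ) := add_le_add (add_le_add g0 g1) g2
      _ = _ := by ring

/-- the factor of the error term of the modulus `Q` -/
noncomputable def lamQ (Q : ℕ) : ℝ := ∏ p ∈ Q.primeFactors, (1 + 4 * (p : ℝ) ^ (-(2 / 3) : ℝ))

lemma eP_le : ∃ C : ℝ, 1 ≤ C ∧ ∀ Q : ℕ, Q ≠ 0 → ∀ P : Finset ℕ, (∀ q ∈ P, q.Prime) → eP Q P ≤ C * lamQ Q := by
  obtain ⟨C, hC1, hC⟩ := Pool.Agent.TH894.PV.prod_bdd (1 / 3) (by norm_num)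
  refine ⟨C ^ 3, one_le_pow₀ hC1, fun Q hQ P hP => ?_⟩
  have h1 : ∀ p ∈ P, |b0 Q p| + |b1 Q p| * (p : ℝ) ^ (1 / 3 : ℝ) + |b2 Q p| * (p : ℝ) ^ (2 / 3 : ℝ) ≤
      (1 + 4 * (p : ℝ) ^ (-(1 + 1 / 3) : ℝ)) ^ 3 * (if p ∣ Q then 1 + 4 * (p : ℝ) ^ (-(2 / 3) : ℝ) else 1) := by
    intro p hp
    have hp2 : (2 : ℝ) ≤ p := by exact_mod_cast (hP p hp).two_le
    have hp0 : (0 : ℝ) < p := by linarith
    have hp1 : (1 : ℝ) ≤ p := by linarith
    have w0 : (0 : ℝ) < (p : ℝ) ^ (-(1 + 1 / 3) : ℝ) := by positivity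
    have k1 : (1 : ℝ) ≤ (p : ℝ) ^ (1 / 3 : ℝ) := Real.one_le_rpow hp1 (by norm_num)
    have hinv : 1 / ((p : ℝ) - 1) ≤ 2 / p := by
      rw [div_le_div_iff₀ (by linarith) hp0]
      linarith
    unfold b0 b1 b2
    split_ifs with hQp
    · have e1 : |(p : ℝ) / ((p : ℝ) - 1)| = 1 + 1 / ((p : ℝ) - 1) := by
        rw [abs_of_nonneg (div_nonneg hp0.le (by linarith))]
        have : (p : ℝ) - 1 ≠ 0 := by linarith
        field_simp
        ring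
      have e2 : |-1 / ((p : ℝ) - 1)| = 1 / ((p : ℝ) - 1) := by
        rw [neg_div, abs_neg, abs_of_nonneg (div_nonneg zero_le_one (by linarith))]
      rw [e1, e2, abs_zero, zero_mul, add_zero]
      have e3 : (p : ℝ) ^ (-(2 / 3) : ℝ) = (p : ℝ) ^ (1 / 3 : ℝ) / p := by
        rw [eq_div_iff hp0.ne']
        nth_rewrite 2 [← Real.rpow_one (p : ℝ)]
        rw [← Real.rpow_add hp0]
        norm_num
      have h3 : 1 / ((p : ℝ) - 1) + 1 / (p - 1) * (p : ℝ) ^ (1 / 3 : ℝ) ≤ 4 * (p : ℝ) ^ (-(2 / 3) : ℝ) := by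
        rw [e3]
        calc 1 / ((p : ℝ) - 1) + 1 / (p - 1) * (p : ℝ) ^ (1 / 3 : ℝ) ≤ 2 / p * (p : ℝ) ^ (1 / 3 : ℝ) + 2 / p * (p : ℝ) ^ (1 / 3 : ℝ) := by
              apply add_le_add
              · refine hinv.trans (le_mul_of_one_le_right (by positivity) k1)
              · exact mul_le_mul_of_nonneg_right hinv (by positivity)
          _ = _ := by ring
      have h4 : (1 : ℝ) ≤ (1 + 4 * (p : ℝ) ^ (-(1 + 1 / 3) : ℝ)) ^ 3 := one_le_pow₀ (by linarith)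
      have h5 : 0 ≤ 1 + 4 * (p : ℝ) ^ (-(2 / 3) : ℝ) := by positivity
      calc 1 + 1 / ((p : ℝ) - 1) + 1 / (p - 1) * (p : ℝ) ^ (1 / 3 : ℝ) ≤ 1 * (1 + 4 * (p : ℝ) ^ (-(2 / 3) : ℝ)) := by linarith
        _ ≤ _ := mul_le_mul_of_nonneg_right h4 h5
    · rw [mul_one, abs_of_nonneg (be_nonneg p (hP p hp).two_le)]
      have hb := be_le p
      have e1 : |2 / ((p : ℝ) - 1) ^ 2| = 2 * (1 / ((p : ℝ) - 1)) ^ 2 := by
        rw [abs_of_nonneg (by positivity)]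
        rw [one_div_pow]
        ring
      have e2 : |-1 / ((p : ℝ) - 1) ^ 2| = (1 / ((p : ℝ) - 1)) ^ 2 := by
        rw [neg_div, abs_neg, abs_of_nonneg (by positivity), one_div_pow]
      rw [e1, e2]
      have k2 : (1 / ((p : ℝ) - 1)) ^ 2 ≤ 4 / p ^ 2 := by
        calc (1 / ((p : ℝ) - 1)) ^ 2 ≤ (2 / p) ^ 2 := pow_le_pow_left₀ (div_nonneg zero_le_one (by linarith)) hinv 2
          _ = 4 / p ^ 2 := by rw [div_pow]; norm_num
      have e3 : (p : ℝ) ^ (-(1 + 1 / 3) : ℝ) = (p : ℝ) ^ (2 / 3 : ℝ) / p ^ 2 := by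
        rw [eq_div_iff (by positivity), ← Real.rpow_natCast (p : ℝ) 2, ← Real.rpow_add hp0]
        norm_num
      have k3 : (p : ℝ) ^ (1 / 3 : ℝ) ≤ (p : ℝ) ^ (2 / 3 : ℝ) := Real.rpow_le_rpow_of_exponent_le hp1 (by norm_num)
      have h3 : 2 * (1 / ((p : ℝ) - 1)) ^ 2 * (p : ℝ) ^ (1 / 3 : ℝ) + (1 / (p - 1)) ^ 2 * (p : ℝ) ^ (2 / 3 : ℝ) ≤ 12 * (p : ℝ) ^ (-(1 + 1 / 3) : ℝ) := by
        rw [e3]
        calc 2 * (1 / ((p : ℝ) - 1)) ^ 2 * (p : ℝ) ^ (1 / 3 : ℝ) + (1 / (p - 1)) ^ 2 * (p : ℝ) ^ (2 / 3 : ℝ) ≤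
              2 * (4 / p ^ 2) * (p : ℝ) ^ (2 / 3 : ℝ) + (4 / p ^ 2) * (p : ℝ) ^ (2 / 3 : ℝ) := by gcongr
          _ = _ := by ring
      nlinarith [mul_nonneg w0.le w0.le, mul_nonneg (mul_nonneg w0.le w0.le) w0.le]
  have h2 : eP Q P ≤ ∏ p ∈ P, ((1 + 4 * (p : ℝ) ^ (-(1 + 1 / 3) : ℝ)) ^ 3 * (if p ∣ Q then 1 + 4 * (p : ℝ) ^ (-(2 / 3) : ℝ) else 1)) := by
    unfold eP
    apply prod_le_prod _ h1
    intro p _
    positivity
  refine h2.trans ?_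
  rw [prod_mul_distrib, prod_pow]
  have h3 : (∏ p ∈ P, (1 + 4 * (p : ℝ) ^ (-(1 + 1 / 3) : ℝ))) ^ 3 ≤ C ^ 3 :=
    pow_le_pow_left₀ (prod_nonneg fun p _ => by positivity) (hC P) 3
  have h4 : ∏ p ∈ P, (if p ∣ Q then 1 + 4 * (p : ℝ) ^ (-(2 / 3) : ℝ) else 1) ≤ lamQ Q := by
    rw [← prod_filter]
    unfold lamQ
    have hsub : P.filter (fun p => p ∣ Q) ⊆ Q.primeFactors := by
      intro p hp
      rw [mem_filter] at hp
      exact Nat.mem_primeFactors.2 ⟨hP p hp.1, hp.2, hQ⟩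
    rw [← prod_sdiff hsub]
    apply le_mul_of_one_le_left
    · exact prod_nonneg fun p _ => by positivity
    · calc (1 : ℝ) = ∏ _p ∈ Q.primeFactors \ P.filter (fun p => p ∣ Q), 1 := prod_const_one.symm
        _ ≤ _ := prod_le_prod (fun _ _ => zero_le_one) fun p _ => by
            have : (0 : ℝ) ≤ (p : ℝ) ^ (-(2 / 3) : ℝ) := by positivity
            linarith
  apply mul_le_mul h3 h4 _ (by positivity)
  apply prod_nonneg
  intro p _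
  split_ifs <;> positivity

end Pool.Agent.Run7.h27.FG
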