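import Pool.Agent.Run7.h27.FG.Cls2
import Pool.Agent.Run7.h582.FM.VarT
import Pool.Agent.Run7.h844.RP.Main2

set_option autoImplicit false
set_option maxHeartbeats 4000000

/-!
The variance with its second main term for all the multiples of all the neighbours: almost every real number for measures with
Fourier decay, and values of generalised polynomials at primes. Adapted from `Pool.Agent.Run7.h582.FM.VarT` and
`Pool.Agent.Run7.h844.RP.Main2` (first main term).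
-/

namespace Pool.Agent.Run7.h27.FG

open Finset Filter MeasureTheory
open Pool.Agent.N625.PT (TCls)

open Classical in
/-- families of reals with small exponential sums -/
theorem thin_fg (K : ℝ) (T A : ℕ) (hK : ∀ {b : ℕ} {κ : ℤ} {C : ℕ → (ℕ → ℝ) → Prop}, TCls b κ C → ∀ B J W U : ℕ,
    ∃ k₀ : ℕ, ∀ k : ℕ, k₀ ≤ k → ∀ p, C k p → ∀ c : ℤ, |c| ≤ B * (b : ℤ) ^ k →
    ∑ v ∈ range (b ^ k), (if ∀ q : ℕ, 1 ≤ q → |(q : ℤ) - (c + κ * v)| ≤ (k : ℤ) ^ W → ∀ h : ℕ, 1 ≤ h → h ≤ k ^ J →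
      FGood K T A (h * q) then 0 else p v) ≤ 1 / (k : ℝ) ^ U) (J W : ℕ) :
    Pool.Agent.Run7.h582.FM.Thin (fun N y => ∀ q : ℕ, 1 ≤ q → |(q : ℝ) - y| ≤ Real.log N ^ W → ∀ h : ℕ, 1 ≤ h →
      (h : ℝ) ≤ Real.log N ^ J → FGood K T A (h * q)) := by
  intro B δ hδ hδ1 U
  obtain ⟨G, hG⟩ : ∃ G : ℕ → ℤ → Prop, G = fun k z => ∀ q : ℕ, 1 ≤ q → |(q : ℤ) - z| ≤ ((k : ℕ) : ℤ) ^ (W + 1) →
      ∀ h : ℕ, 1 ≤ h → h ≤ k ^ J → FGood K T A (h * q) := ⟨_, rfl⟩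
  obtain ⟨V, q₀, h0⟩ := Pool.Agent.Run7.h582.FM.transferTN B δ hδ hδ1 0 1 one_ne_zero U G (fun C hC => by
    obtain ⟨k₀, h1⟩ := hK hC 1 J (W + 1) U
    refine ⟨k₀, fun k hk p hp c hc => ?_⟩
    rw [hG]
    exact h1 k hk p hp c (by rw [Nat.cast_one, one_mul]; exact hc))
  obtain ⟨N₁, h1⟩ := Pool.Agent.N193.PS.ev_near 1
  refine ⟨V, q₀ + N₁ + 2, fun M hM ι s y hy hf => ?_⟩
  obtain ⟨k, g1, g2, g3, g4, g5⟩ := h0 M (by omega)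
  have hL3 := (h1 M (by omega)).1
  have hl0 : 0 ≤ Real.log M := Real.log_natCast_nonneg M
  refine le_trans (Nat.cast_le.2 (card_le_card fun i hi => ?_)) (g5 ι s y hy hf 0 (by
    rw [Int.cast_zero, abs_zero]
    positivity))
  rw [mem_filter] at hi ⊢
  refine ⟨hi.1, fun hcon => hi.2 ?_⟩
  rw [hG] at hcon
  intro q hq1 hq h hh1 hh2
  refine hcon q hq1 ?_ h hh1 ?_
  · have h3 : ((|(q : ℤ) - (0 + 1 * ⌊y i⌋)| : ℤ) : ℝ) ≤ ((((k : ℕ) : ℤ) ^ (W + 1) : ℤ) : ℝ) := by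
      push_cast
      rw [zero_add, one_mul]
      have h8 := Int.floor_le (y i)
      have h9 := Int.lt_floor_add_one (y i)
      have h10 : |(q : ℝ) - ⌊y i⌋| ≤ |(q : ℝ) - y i| + 1 := by
        have : (q : ℝ) - ⌊y i⌋ = (q - y i) + (y i - ⌊y i⌋) := by ring
        rw [this]
        refine (abs_add_le _ _).trans (add_le_add le_rfl ?_)
        rw [abs_of_nonneg (by linarith)]
        linarith
      have h11 : 1 ≤ Real.log M ^ W := one_le_pow₀ (by linarith)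
      have h12 : Real.log M ^ W ≤ (k : ℝ) ^ W := pow_le_pow_left₀ hl0 g1 W
      have h13 : (3 : ℝ) ≤ k := by linarith
      rw [pow_succ]
      nlinarith
    exact_mod_cast h3
  · have : (h : ℝ) ≤ ((k ^ J : ℕ) : ℝ) := by
      push_cast
      exact hh2.trans (pow_le_pow_left₀ hl0 g1 J)
    exact_mod_cast this

/-- almost every real number with respect to every measure with Fourier decay -/
theorem ae_fg : ∃ K : ℕ → ℕ → ℝ, (∀ T A, 0 < K T A) ∧ ∀ (μ : Measure ℝ), Pool.Agent.Run7.h582.FM.Decay μ →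
    ∀ (η : ℝ), 0 < η → ∀ (B T' : ℕ) (N : ℕ → ℕ) (lam c : ℕ → ℝ), Pool.Agent.Run7.h582.FM.Sc η B T' N lam c →
    ∀ᵐ x ∂μ, ∀ T A J W : ℕ, ∀ᶠ n : ℕ in atTop, ∀ q : ℕ, 1 ≤ q → |(q : ℝ) - (lam n * x + c n)| ≤ Real.log (N n) ^ W →
      ∀ h : ℕ, 1 ≤ h → (h : ℝ) ≤ Real.log (N n) ^ J → FGood (K T A) T A (h * q) := by
  choose K hK hmain using t_fg
  refine ⟨K, hK, fun μ hμ η hη B T' N lam c hS => ?_⟩
  have key := Pool.Agent.Run7.h582.FM.ae_mult (ι := ℕ × ℕ) (fun i => FGood (K i.1 i.2) i.1 i.2)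
    (fun i J W => thin_fg (K i.1 i.2) i.1 i.2 (fun hC => hmain i.1 i.2 hC) J W) μ hμ η hη B T' N lam c hS
  filter_upwards [key] with x hx T A J W
  exact hx (T, A) J W

open Classical in
/-- families of reals with small exponential sums, form for values at primes -/
theorem fg_near (K : ℝ) (T A : ℕ) (hK : ∀ {b : ℕ} {κ : ℤ} {C : ℕ → (ℕ → ℝ) → Prop}, TCls b κ C → ∀ B J W U : ℕ,
    ∃ k₀ : ℕ, ∀ k : ℕ, k₀ ≤ k → ∀ p, C k p → ∀ c : ℤ, |c| ≤ B * (b : ℤ) ^ k →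
    ∑ v ∈ range (b ^ k), (if ∀ q : ℕ, 1 ≤ q → |(q : ℤ) - (c + κ * v)| ≤ (k : ℤ) ^ W → ∀ h : ℕ, 1 ≤ h → h ≤ k ^ J →
      FGood K T A (h * q) then 0 else p v) ≤ 1 / (k : ℝ) ^ U) (B : ℕ) (δ : ℝ) (hδ : 0 < δ) (hδ1 : δ ≤ 1) (J W U : ℕ) :
    ∃ V N₀ : ℕ, ∀ N : ℕ, N₀ ≤ N →
    ∀ (ι : Type) (s : Finset ι) (y : ι → ℝ), (∀ i ∈ s, |y i| ≤ N) → Pool.Agent.Run7.h844.RP.ES B δ V N s y →
    ((s.filter fun i => ¬ Pool.Agent.Run7.h844.RP.NearP (fun q => ∀ h : ℕ, 1 ≤ h → (h : ℝ) ≤ Real.log N ^ J →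
      FGood K T A (h * q)) (Real.log N ^ W) (y i)).card : ℝ) ≤ s.card / Real.log N ^ U := by
  obtain ⟨G, hG⟩ : ∃ G : ℕ → ℤ → Prop, G = fun k z => ∀ q : ℕ, 1 ≤ q → |(q : ℤ) - z| ≤ ((k : ℕ) : ℤ) ^ (W + 1) →
      ∀ h : ℕ, 1 ≤ h → h ≤ k ^ J → FGood K T A (h * q) := ⟨_, rfl⟩
  obtain ⟨V, N₀, h0⟩ := Pool.Agent.Run7.h844.RP.transferN2 B δ hδ hδ1 U G (fun C hC => by
    obtain ⟨k₀, h1⟩ := hK (hC 1 one_ne_zero).2 1 J (W + 1) U
    refine ⟨k₀, fun k hk p hp c hc => ?_⟩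
    rw [hG]
    exact h1 k hk p hp c (by rw [Nat.cast_one, one_mul]; exact hc))
  obtain ⟨N₁, h1⟩ := eventually_atTop.mp (Pool.Agent.N384.MQ.ev_log_ge 2)
  refine ⟨V, N₀ + N₁, fun N hN ι s y hy hs => ?_⟩
  obtain ⟨k, g1, g2, g3⟩ := h0 N (by omega)
  have hL := h1 N (by omega)
  refine le_trans ?_ (g3 ι s y hy hs)
  apply Pool.Agent.Run7.h844.RP.card_filter_mono'
  intro i _ hi hcon
  refine hi fun q hq0 hq h hh1 hh2 => ?_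
  rw [hG] at hcon
  refine hcon q hq0 (Pool.Agent.Run7.h844.RP.near_fl W k _ (y i) hL g1 (q : ℤ) (by rw [Int.cast_natCast]; exact hq)) h hh1 ?_
  have : (h : ℝ) ≤ ((k ^ J : ℕ) : ℝ) := by
    push_cast
    exact hh2.trans (pow_le_pow_left₀ (by linarith) g1 J)
  exact_mod_cast this

open Classical in
/-- values of generalised polynomials at primes -/
theorem fg_primes (T A : ℕ) : ∃ K : ℝ, 0 < K ∧ ∀ (F : Finset ℝ) (c : ℝ), c ∈ F → (∀ m : ℕ, c ≠ m) → 0 < c → (∀ x ∈ F, x ≤ c) →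
    ∀ (a : ℝ → ℝ), a c ≠ 0 → ∀ J W U : ℕ, ∃ X₀ : ℕ, ∀ X : ℕ, X₀ ≤ X → ∀ z : ℝ, |z| ≤ (X : ℝ) ^ c →
      (((Ioc X (2 * X)).filter fun p : ℕ => p.Prime ∧
        ¬ Pool.Agent.Run7.h844.RP.NearP (fun q => ∀ h : ℕ, 1 ≤ h → (h : ℝ) ≤ Real.log X ^ J → FGood K T A (h * q))
          (Real.log X ^ W) (Pool.Agent.Run7.h844.RP.ph F a p + z)).card : ℝ) ≤ X / Real.log X ^ U := by
  obtain ⟨K, hK, hmain⟩ := t_fg T A
  refine ⟨K, hK, fun F c hcF hn hc hmax a ha J W U => ?_⟩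
  obtain ⟨X₂, h2⟩ := Pool.Agent.Run7.h844.RP.log_cmp (Pool.Agent.Run7.h844.RP.Ac F c a) c
    (Pool.Agent.Run7.h844.RP.Ac_pos F c a) hc J
  exact Pool.Agent.Run7.h844.RP.primes_nearX F c hcF hn hc hmax a ha U W
    (fun N q => ∀ h : ℕ, 1 ≤ h → (h : ℝ) ≤ Real.log N ^ (J + 1) → FGood K T A (h * q))
    (fun X q => ∀ h : ℕ, 1 ≤ h → (h : ℝ) ≤ Real.log X ^ J → FGood K T A (h * q))
    ⟨X₂, fun X hX m hm h h1 h3 => hm h h1 (h3.trans (h2 X hX).2.2.1)⟩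
    (fg_near K T A (fun hC => hmain hC) 8 (1 / 2) (by norm_num) (by norm_num) (J + 1) (W + 1) (U + 1))

end Pool.Agent.Run7.h27.FG
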